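import Mathlib

namespace Pool.Agent.Bicomp

theorem cb_ineq (h : ℕ) (hh : 3 ≤ h) :
    ((h : ℚ) + 1) * (4 * h + 1) * (Nat.centralBinom (2 * h)) <
      2 * h ^ 2 * (2 * h + 1) * (Nat.centralBinom h) ^ 2 := by
  induction h, hh using Nat.le_induction with
  | base =>
    have h1 : Nat.centralBinom (2 * 3) = 924 := by
      rw [Nat.centralBinom_eq_two_mul_choose]; decide
    have h2 : Nat.centralBinom 3 = 20 := by
      rw [Nat.centralBinom_eq_two_mul_choose]; decide
    rw [h1, h2]
    norm_num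
  | succ h hh ih =>
    have e1 : ((h : ℚ) + 1) * (Nat.centralBinom (h + 1)) = 2 * (2 * h + 1) * Nat.centralBinom h := by
      exact_mod_cast Nat.succ_mul_centralBinom_succ h
    have e2 : ((2 * h : ℚ) + 1) * (Nat.centralBinom (2 * h + 1)) =
        2 * (2 * (2 * h) + 1) * Nat.centralBinom (2 * h) := by
      exact_mod_cast Nat.succ_mul_centralBinom_succ (2 * h)
    have e3 : ((2 * h : ℚ) + 1 + 1) * (Nat.centralBinom (2 * h + 1 + 1)) =
        2 * (2 * (2 * h + 1) + 1) * Nat.centralBinom (2 * h + 1) := by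
      exact_mod_cast Nat.succ_mul_centralBinom_succ (2 * h + 1)
    have e4 : 2 * (h + 1) = 2 * h + 1 + 1 := by ring
    rw [e4]
    set x : ℚ := (Nat.centralBinom (2 * h) : ℚ)
    set y : ℚ := (Nat.centralBinom h : ℚ)
    set x1 : ℚ := (Nat.centralBinom (2 * h + 1) : ℚ)
    set x2 : ℚ := (Nat.centralBinom (2 * h + 1 + 1) : ℚ)
    set y1 : ℚ := (Nat.centralBinom (h + 1) : ℚ)
    have hp : (0 : ℚ) < h + 1 := by positivity
    have hq : (0 : ℚ) < 2 * h + 1 := by positivity
    have hy1 : y1 = 2 * (2 * h + 1) * y / (h + 1) := by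
      field_simp
      linarith
    have hx1 : x1 = 2 * (2 * (2 * h) + 1) * x / (2 * h + 1) := by
      field_simp
      linarith
    have hx2 : x2 = 2 * (2 * (2 * h + 1) + 1) * x1 / (2 * (h + 1)) := by
      field_simp
      linarith
    have hy : 0 < y ^ 2 := by
      have : (0 : ℚ) < y := Nat.cast_pos.2 (Nat.centralBinom_pos h)
      positivity
    rw [hx2, hx1, hy1]
    push_cast
    have hL : ((h : ℚ) + 1 + 1) * (4 * (h + 1) + 1) *
        (2 * (2 * (2 * h + 1) + 1) * (2 * (2 * (2 * h) + 1) * x / (2 * h + 1)) / (2 * (h + 1))) =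
        (((h : ℚ) + 1) * (4 * h + 1) * x) *
          ((h + 2) * (4 * h + 5) * 2 * (4 * h + 3) / ((2 * h + 1) * (h + 1) ^ 2)) := by
      field_simp
      ring
    have hR : 2 * ((h : ℚ) + 1) ^ 2 * (2 * (h + 1) + 1) * (2 * (2 * h + 1) * y / (h + 1)) ^ 2 =
        8 * (2 * h + 3) * (2 * h + 1) ^ 2 * y ^ 2 := by
      field_simp
      ring
    rw [hL, hR]
    have h1 : (((h : ℚ) + 1) * (4 * h + 1) * x) *
          ((h + 2) * (4 * h + 5) * 2 * (4 * h + 3) / ((2 * h + 1) * (h + 1) ^ 2)) <
        (2 * h ^ 2 * (2 * h + 1) * y ^ 2) *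
          ((h + 2) * (4 * h + 5) * 2 * (4 * h + 3) / ((2 * h + 1) * (h + 1) ^ 2)) :=
      mul_lt_mul_of_pos_right ih (by positivity)
    refine h1.trans_le ?_
    have h2 : (2 * (h : ℚ) ^ 2 * (2 * h + 1) * y ^ 2) *
          ((h + 2) * (4 * h + 5) * 2 * (4 * h + 3) / ((2 * h + 1) * (h + 1) ^ 2)) =
        (4 * h ^ 2 * ((h + 2) * (4 * h + 5) * (4 * h + 3)) / (h + 1) ^ 2) * y ^ 2 := by
      field_simp
      ring
    rw [h2]
    apply mul_le_mul_of_nonneg_right _ hy.le
    rw [div_le_iff₀ (by positivity)]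
    have h3 : (0 : ℚ) ≤ h := by positivity
    nlinarith [mul_nonneg h3 h3, mul_nonneg (mul_nonneg h3 h3) h3,
      mul_nonneg (mul_nonneg h3 h3) (mul_nonneg h3 h3)]

theorem choose_ineq (h : ℕ) (hh : 3 ≤ h) :
    (4 * h + 1).choose (2 * h) < 2 * h * ((2 * h).choose h * (2 * h).choose (h - 1)) := by
  have h0 := cb_ineq h hh
  have e1 : (2 * h).choose (h - 1) * (h + 1) = (2 * h).choose h * h := by
    have h1 : (2 * h).choose (h - 1) = (2 * h).choose (h + 1) := by
      rw [← Nat.choose_symm (by omega : h + 1 ≤ 2 * h)]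
      congr 1
      omega
    rw [h1, Nat.choose_succ_right_eq]
    congr 1
    omega
  have e2 : (4 * h + 1).choose (2 * h) * (2 * h + 1) = (4 * h + 1) * Nat.centralBinom (2 * h) := by
    have h1 : (4 * h + 1).choose (2 * h) = (4 * h + 1).choose (2 * h + 1) := by
      rw [← Nat.choose_symm (by omega : 2 * h + 1 ≤ 4 * h + 1)]
      congr 1
      omega
    rw [h1, ← Nat.add_one_mul_choose_eq, Nat.centralBinom_eq_two_mul_choose]
    congr 2
    ring
  have e3 : Nat.centralBinom h = (2 * h).choose h := Nat.centralBinom_eq_two_mul_choose h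
  have e1' : (((2 * h).choose (h - 1) : ℕ) : ℚ) * (h + 1) = ((2 * h).choose h : ℕ) * h := by
    exact_mod_cast e1
  have e2' : (((4 * h + 1).choose (2 * h) : ℕ) : ℚ) * (2 * h + 1) =
      (4 * h + 1) * Nat.centralBinom (2 * h) := by
    exact_mod_cast e2
  rw [e3] at h0
  have goal : (((4 * h + 1).choose (2 * h) : ℕ) : ℚ) <
      2 * h * (((2 * h).choose h : ℕ) * ((2 * h).choose (h - 1) : ℕ)) := by
    set X : ℚ := (((4 * h + 1).choose (2 * h) : ℕ) : ℚ)
    set A : ℚ := (((2 * h).choose h : ℕ) : ℚ)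
    set B : ℚ := (((2 * h).choose (h - 1) : ℕ) : ℚ)
    have hpos : (0 : ℚ) < (2 * h + 1) * (h + 1) := by positivity
    have h1 : X * ((2 * h + 1) * (h + 1)) < 2 * h * (A * B) * ((2 * h + 1) * (h + 1)) := by
      calc X * ((2 * h + 1) * (h + 1)) = (X * (2 * h + 1)) * (h + 1) := by ring
        _ = (h + 1) * (4 * h + 1) * Nat.centralBinom (2 * h) := by rw [e2']; ring
        _ < 2 * h ^ 2 * (2 * h + 1) * A ^ 2 := h0
        _ = 2 * h * A * (2 * h + 1) * (A * h) := by ring
        _ = 2 * h * A * (2 * h + 1) * (B * (h + 1)) := by rw [e1']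
        _ = _ := by ring
    exact lt_of_mul_lt_mul_right h1 hpos.le
  exact_mod_cast goal

theorem choose_even (h : ℕ) (hh : 1 ≤ h) : 2 ∣ (4 * h + 1).choose (2 * h) := by
  have e2 : (4 * h + 1).choose (2 * h) * (2 * h + 1) = (4 * h + 1) * Nat.centralBinom (2 * h) := by
    have h1 : (4 * h + 1).choose (2 * h) = (4 * h + 1).choose (2 * h + 1) := by
      rw [← Nat.choose_symm (by omega : 2 * h + 1 ≤ 4 * h + 1)]
      congr 1
      omega
    rw [h1, ← Nat.add_one_mul_choose_eq, Nat.centralBinom_eq_two_mul_choose]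
    congr 2
    ring
  have h3 : 2 ∣ Nat.centralBinom (2 * h) := Nat.two_dvd_centralBinom_of_one_le (by omega)
  have h4 : 2 ∣ (4 * h + 1).choose (2 * h) * (2 * h + 1) := by
    rw [e2]; exact h3.mul_left _
  exact (Nat.Coprime.dvd_of_dvd_mul_right (by simp) h4)

theorem choose_mod (n : ℕ) (hn : 1 ≤ n) (h : ∀ i, 0 < i → i < n → n ∣ n.choose i) :
    (n : ℤ) ∣ ((2 * n - 1).choose (n - 1) : ℤ) - 1 := by
  have e : 2 * n - 1 = n + (n - 1) := by omega
  rw [e, Nat.add_choose_eq]
  have h1 : (0, n - 1) ∈ Finset.HasAntidiagonal.antidiagonal (n - 1) := by simp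
  rw [← Finset.add_sum_erase _ _ h1]
  push_cast
  simp only [Nat.choose_zero_right, Nat.choose_self, Nat.cast_one, mul_one, add_sub_cancel_left]
  apply Finset.dvd_sum
  rintro ⟨i, j⟩ hij
  rw [Finset.mem_erase, Finset.HasAntidiagonal.mem_antidiagonal] at hij
  simp only [ne_eq, Prod.mk.injEq, not_and] at hij
  have hi : 0 < i := by
    by_contra hcon
    apply hij.1 (by omega)
    omega
  have := h i hi (by omega)
  exact_mod_cast this.mul_right _

/-- The final numerical contradiction. -/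
theorem final_arith (n h : ℕ) (hn : n = 2 * h + 1) (hh : 2 ≤ h) (K : ℤ)
    (hdvd : ∀ i, 0 < i → i < n → n ∣ n.choose i)
    (hb : ((2 * h).choose h * (2 * h).choose (h - 1) : ℤ) *
      |4 * n * K - (4 * h + 1).choose (2 * h)| ≤ (4 * h + 1).choose (2 * h)) : False := by
  by_cases h3 : h = 2
  · subst h3
    subst hn
    have e1 : (2 * 2).choose 2 = 6 := by decide
    have e2 : (2 * 2).choose (2 - 1) = 4 := by decide
    have e3 : (4 * 2 + 1).choose (2 * 2) = 126 := by decide
    rw [e1, e2, e3] at hb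
    push_cast at hb
    have e5 : (4 * (2 * 2 + 1) * K - 126 : ℤ) = 20 * K - 126 := by ring
    try rw [e5] at hb
    have hb2 : |20 * K - 126| ≤ 5 := by omega
    rw [abs_le] at hb2
    omega
  · have hmod := choose_mod n (by omega) hdvd
    have e4 : (2 * n - 1).choose (n - 1) = (4 * h + 1).choose (2 * h) := by
      congr 1 <;> omega
    rw [e4] at hmod
    have heven := choose_even h (by omega)
    have hlt := choose_ineq h (by omega)
    set C : ℕ := (4 * h + 1).choose (2 * h)
    obtain ⟨u, hu⟩ := hmod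
    obtain ⟨v, hv⟩ := heven
    set Z : ℤ := 4 * n * K - C with hZ
    have hZ1 : Z = n * (4 * K - u) - 1 := by
      rw [hZ]; linarith
    have hZ2 : Z = 2 * (2 * n * K - v) := by
      rw [hZ, hv]; push_cast; ring
    have hZabs : (2 * h : ℤ) ≤ |Z| := by
      have hn' : (n : ℤ) = 2 * h + 1 := by exact_mod_cast hn
      rcases lt_trichotomy (4 * K - u) 0 with ht | ht | ht
      · have : Z ≤ -(n : ℤ) - 1 := by
          rw [hZ1]
          have : (n : ℤ) * (4 * K - u) ≤ n * (-1) :=
            mul_le_mul_of_nonneg_left (by omega) (by positivity)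
          linarith
        have := neg_le_abs Z
        linarith
      · rw [ht] at hZ1
        omega
      · have : (n : ℤ) - 1 ≤ Z := by
          rw [hZ1]
          have : (n : ℤ) * 1 ≤ n * (4 * K - u) :=
            mul_le_mul_of_nonneg_left (by omega) (by positivity)
          linarith
        have := le_abs_self Z
        linarith
    have hlt' : (C : ℤ) < 2 * h * ((2 * h).choose h * (2 * h).choose (h - 1)) := by
      exact_mod_cast hlt
    have hp : (0 : ℤ) ≤ (2 * h).choose h * (2 * h).choose (h - 1) := by positivity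
    have := mul_le_mul_of_nonneg_left hZabs hp
    linarith

end Pool.Agent.Bicomp
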