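import Pool.Agent.Bicomp.Frame

namespace Pool.Agent.Bicomp

section

variable {K : Type*}

/-- Sum over all orders of the letters of `L`. -/
def T (H : List K → ℚ) (L : List K) : ℚ := ((L.permutations').map H).sum

theorem permutations'Aux_eq_shuf (a : K) (w : List K) : w.permutations'Aux a = shuf [a] w := by
  induction w with
  | nil => simp
  | cons b w ih => simp [List.permutations'Aux, shuf_cons_cons, ih]

@[simp] theorem T_nil (H : List K → ℚ) : T H [] = H [] := by simp [T]

theorem sum_map_flatMap' {L : Type*} (H : L → ℚ) (f : K → List L) (l : List K) :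
    ((l.flatMap f).map H).sum = (l.map (fun x => ((f x).map H).sum)).sum := by
  induction l with
  | nil => simp
  | cons a l ih => simp [ih]

theorem T_cons (H : List K → ℚ) (a : K) (L : List K) :
    T H (a :: L) = T (fun w => S H [a] w) L := by
  unfold T
  have : (a :: L).permutations' = L.permutations'.flatMap (List.permutations'Aux a) := rfl
  rw [this, sum_map_flatMap']
  simp only [permutations'Aux_eq_shuf, S]

theorem T_perm (H : List K → ℚ) {L L' : List K} (h : L.Perm L') : T H L = T H L' := by
  unfold T
  exact (h.permutations'.map H).sum_eq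

theorem T_congr {H G : List K → ℚ} {L : List K} (h : ∀ w, w.Perm L → H w = G w) :
    T H L = T G L := by
  unfold T
  congr 1
  apply List.map_congr_left
  intro w hw
  exact h w (List.mem_permutations'.1 hw)

theorem S_T_swap (H : List K → List K → ℚ) (a : K) (u M : List K) :
    S (fun t => T (H t) M) [a] u = T (fun v => S (fun t => H t v) [a] u) M := by
  unfold S T
  have key : ∀ (l1 l2 : List (List K)), (l1.map (fun t => (l2.map (H t)).sum)).sum =
      (l2.map (fun v => (l1.map (fun t => H t v)).sum)).sum := by
    intro l1 l2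
    induction l1 with
    | nil => simp
    | cons x l1 ih =>
      simp only [List.map_cons, List.sum_cons, ih, List.sum_map_add]
  exact key _ _

theorem T_append (H : List K → ℚ) (M : List K) : ∀ L : List K,
    T (fun u => T (fun v => S H u v) M) L = T H (L ++ M) := by
  intro L
  induction L generalizing H with
  | nil => simp
  | cons a L ih =>
    rw [T_cons, List.cons_append, T_cons, ← ih]
    apply T_congr
    intro u _
    rw [S_T_swap (fun t v => S H t v)]
    apply T_congr
    intro v _
    exact S_assoc H [a] u v

/-- The words with letter set `Z`, each letter once. -/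
noncomputable def ord [DecidableEq K] (Z : Finset K) : Finset (List K) := (Z.toList.permutations').toFinset

theorem mem_ord [DecidableEq K] {Z : Finset K} {w : List K} :
    w ∈ ord Z ↔ w.Nodup ∧ w.toFinset = Z := by
  unfold ord
  rw [List.mem_toFinset, List.mem_permutations']
  constructor
  · intro h
    refine ⟨h.nodup_iff.2 Z.nodup_toList, ?_⟩
    rw [List.toFinset_eq_of_perm _ _ h, Finset.toList_toFinset]
  · rintro ⟨h1, rfl⟩
    exact (List.toFinset_toList h1).symm

theorem sum_ord [DecidableEq K] (H : List K → ℚ) (Z : Finset K) :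
    ∑ w ∈ ord Z, H w = T H Z.toList := by
  unfold ord T
  rw [List.sum_toFinset]
  exact (List.permutations_perm_permutations' _).nodup_iff.1
    (List.nodup_permutations _ Z.nodup_toList)

theorem card_ord [DecidableEq K] (Z : Finset K) : (ord Z).card = Z.card.factorial := by
  unfold ord
  rw [List.toFinset_card_of_nodup, ← (List.permutations_perm_permutations' _).length_eq,
    List.length_permutations, Finset.length_toList]
  exact (List.permutations_perm_permutations' _).nodup_iff.1
    (List.nodup_permutations _ Z.nodup_toList)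

theorem sum_ord_list [DecidableEq K] (H : List K → ℚ) {L : List K} (h : L.Nodup) :
    ∑ w ∈ ord L.toFinset, H w = T H L := by
  rw [sum_ord]
  exact T_perm _ (List.toFinset_toList h)

theorem sum_ord_union [DecidableEq K] (H : List K → ℚ) {A B : Finset K} (h : Disjoint A B) :
    ∑ u ∈ ord A, ∑ v ∈ ord B, S H u v = ∑ w ∈ ord (A ∪ B), H w := by
  have h1 : (A.toList ++ B.toList).Nodup := by
    rw [List.nodup_append]
    refine ⟨A.nodup_toList, B.nodup_toList, ?_⟩
    intro a ha b hb
    rw [Finset.mem_toList] at ha hb
    rintro rfl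
    exact Finset.disjoint_left.1 h ha hb
  have h2 : A ∪ B = (A.toList ++ B.toList).toFinset := by
    rw [List.toFinset_append, Finset.toList_toFinset, Finset.toList_toFinset]
  rw [h2, sum_ord_list H h1, ← T_append, ← sum_ord]
  apply Finset.sum_congr rfl
  intro u _
  rw [sum_ord]

theorem sum_ord_reverse [DecidableEq K] (H : List K → ℚ) (Z : Finset K) :
    ∑ w ∈ ord Z, H w.reverse = ∑ w ∈ ord Z, H w := by
  have hm : ∀ w ∈ ord Z, w.reverse ∈ ord Z := by
    intro w hw
    rw [mem_ord] at hw ⊢
    exact ⟨List.nodup_reverse.2 hw.1, by rw [List.toFinset_reverse]; exact hw.2⟩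
  exact Finset.sum_nbij' (fun w => w.reverse) (fun w => w.reverse) hm hm
    (fun w _ => List.reverse_reverse w) (fun w _ => List.reverse_reverse w) (fun w _ => rfl)

theorem length_of_mem_ord [DecidableEq K] {Z : Finset K} {w : List K} (h : w ∈ ord Z) :
    w.length = Z.card := by
  rw [mem_ord] at h
  rw [← h.2, List.toFinset_card_of_nodup h.1]

/-- Splitting a word at position `k`. -/
theorem sum_ord_split [DecidableEq K] (H : List K → List K → ℚ) (Z : Finset K) (k : ℕ)
    (hk : k ≤ Z.card) :
    ∑ w ∈ ord Z, H (w.take k) (w.drop k) =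
      ∑ A ∈ Z.powersetCard k, ∑ u ∈ ord A, ∑ v ∈ ord (Z \ A), H u v := by
  have e : ∑ A ∈ Z.powersetCard k, ∑ u ∈ ord A, ∑ v ∈ ord (Z \ A), H u v =
      ∑ x ∈ (Z.powersetCard k).sigma (fun A => (ord A ×ˢ ord (Z \ A))),
        H x.2.1 x.2.2 := by
    rw [Finset.sum_sigma]
    apply Finset.sum_congr rfl
    intro A _
    rw [Finset.sum_product]
  rw [e]
  refine Finset.sum_nbij'
    (i := fun w => (⟨(w.take k).toFinset, (w.take k, w.drop k)⟩ :
      (_ : Finset K) × (List K × List K)))
    (j := fun x => x.2.1 ++ x.2.2) ?_ ?_ ?_ ?_ ?_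
  · intro w hw
    have hl := length_of_mem_ord hw
    rw [mem_ord] at hw
    have h1 : (w.take k).Nodup := hw.1.sublist (List.take_sublist _ _)
    have h2 : (w.drop k).Nodup := hw.1.sublist (List.drop_sublist _ _)
    have h3 : w = w.take k ++ w.drop k := (List.take_append_drop k w).symm
    have h4 : Disjoint (w.take k).toFinset (w.drop k).toFinset := by
      rw [Finset.disjoint_left]
      intro x hx hx'
      rw [List.mem_toFinset] at hx hx'
      rw [h3, List.nodup_append] at hw
      exact hw.1.2.2 x hx x hx' rfl
    have h5 : (w.take k).toFinset ∪ (w.drop k).toFinset = Z := by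
      rw [← List.toFinset_append, List.take_append_drop]; exact hw.2
    simp only [Finset.mem_sigma, Finset.mem_powersetCard, Finset.mem_product, mem_ord]
    refine ⟨⟨?_, ?_⟩, ⟨h1, trivial⟩, h2, ?_⟩
    · rw [← h5]; exact Finset.subset_union_left
    · rw [List.toFinset_card_of_nodup h1, List.length_take]; omega
    · rw [← h5, Finset.union_sdiff_cancel_left h4]
  · rintro ⟨A, u, v⟩ hx
    simp only [Finset.mem_sigma, Finset.mem_powersetCard, Finset.mem_product, mem_ord] at hx ⊢
    obtain ⟨⟨hA, hAk⟩, ⟨hu, huA⟩, hv, hvA⟩ := hx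
    constructor
    · rw [List.nodup_append]
      refine ⟨hu, hv, ?_⟩
      intro a ha b hb hab
      subst hab
      rw [← List.mem_toFinset, huA] at ha
      rw [← List.mem_toFinset, hvA, Finset.mem_sdiff] at hb
      exact hb.2 ha
    · rw [List.toFinset_append, huA, hvA, Finset.union_sdiff_of_subset hA]
  · intro w hw; simp
  · rintro ⟨A, u, v⟩ hx
    simp only [Finset.mem_sigma, Finset.mem_powersetCard, Finset.mem_product, mem_ord] at hx
    obtain ⟨⟨hA, hAk⟩, ⟨hu, huA⟩, hv, hvA⟩ := hx
    have hul : u.length = k := by
      rw [← List.toFinset_card_of_nodup hu, huA, hAk]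
    simp only
    rw [List.take_left' hul, List.drop_left' hul, huA]
  · intro w hw; rfl

theorem ord_singleton [DecidableEq K] (c : K) : ord ({c} : Finset K) = {[c]} := by
  ext w
  rw [mem_ord, Finset.mem_singleton]
  constructor
  · rintro ⟨h1, h2⟩
    have hl : w.length = 1 := by
      rw [← List.toFinset_card_of_nodup h1, h2, Finset.card_singleton]
    obtain ⟨a, rfl⟩ := List.length_eq_one_iff.1 hl
    simp at h2
    rw [h2]
  · rintro rfl
    simp

/-- Splitting off the first letter. -/
theorem sum_ord_head [DecidableEq K] (H : List K → ℚ) (Z : Finset K) (hZ : 1 ≤ Z.card) :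
    ∑ w ∈ ord Z, H w = ∑ c ∈ Z, ∑ v ∈ ord (Z \ {c}), H (c :: v) := by
  have h := sum_ord_split (fun u v => H (u ++ v)) Z 1 hZ
  simp only [List.take_append_drop] at h
  rw [h, Finset.powersetCard_one, Finset.sum_map]
  apply Finset.sum_congr rfl
  intro c _
  simp only [Function.Embedding.coeFn_mk]
  rw [ord_singleton, Finset.sum_singleton]
  rfl

end

end Pool.Agent.Bicomp
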