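import Pool.Agent.Bicomp.Odd
import Pool.Agent.Bicomp.Orders

namespace Pool.Agent.Bicomp

theorem T_const (c : ℚ) (L : List ℤ) : T (fun _ => c) L = L.length.factorial * c := by
  unfold T
  rw [List.map_const', List.sum_replicate,
    ← (List.permutations_perm_permutations' L).length_eq, List.length_permutations]
  simp

theorem S_int {F : List ℤ → ℚ} {p s : List ℤ} (h : ∀ t ∈ shuf p s, ∃ z : ℤ, F t = z) :
    ∃ z : ℤ, S F p s = z := by
  unfold S
  revert h
  generalize shuf p s = l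
  intro h
  induction l with
  | nil => exact ⟨0, by simp⟩
  | cons a l ih =>
    obtain ⟨z, hz⟩ := ih (fun t ht => h t (List.mem_cons_of_mem _ ht))
    obtain ⟨y, hy⟩ := h a List.mem_cons_self
    exact ⟨y + z, by simp [hz, hy]⟩

section

variable {α : Type*} {st : List ℤ → α}

/-- The centred indicator. -/
noncomputable def G (st : List ℤ → α) (n : ℕ) (w : List ℤ) : ℚ :=
  n * ind (¬ st w = st (inc n)) - 1

/-- Vanishing on proper shuffles. -/
def Kill (n : ℕ) (F : List ℤ → ℚ) : Prop :=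
  ∀ p s : List ℤ, (p ++ s).Nodup → p ≠ [] → s ≠ [] → p.length + s.length = n → S F p s = 0

theorem kill_G (hb : Bi st) {n : ℕ} (hc : Cst st n) (hn : 1 ≤ n)
    (hl : lc n (fun w => ind (¬ st w = st (inc n))) = 1) : Kill n (G st n) := by
  intro p s h1 h2 h3 h4
  have h := level_kill hb hc hn (meas_of_st (fun v => ¬ v = st (inc n))) p s h1 h2 h3 h4
  rw [hl] at h
  have e : S (G st n) p s = S (fun w => (n : ℚ) * (ind (¬ st w = st (inc n)) + -(1 / n))) p s := by
    apply S_congr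
    intro t _
    have : (n : ℚ) ≠ 0 := by positivity
    simp only [G]
    field_simp
    ring
  rw [e, S_smul, h, mul_zero]

theorem G_ge (n : ℕ) (w : List ℤ) : -1 ≤ G st n w := by
  unfold G ind
  split_ifs
  · have : (0 : ℚ) ≤ n := by positivity
    linarith
  · simp

/-- The one letter marginal. -/
noncomputable def ee (F : List ℤ → ℚ) (c : ℤ) (X : Finset ℤ) : ℚ := ∑ w ∈ ord X, F (c :: w)

theorem avg {n : ℕ} {F : List ℤ → ℚ} (hk : Kill n F) (c : ℤ) (X : Finset ℤ) (hcX : c ∉ X)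
    (hX : X.card + 1 = n) (j : ℕ) (hj : j ≤ X.card) :
    ∑ w ∈ ord X, F (w.take j ++ c :: w.drop j) =
      (-1) ^ j * (X.card.choose j) * ee F c X := by
  rw [sum_ord_split (fun u v => F (u ++ c :: v)) X j hj]
  have key : ∀ A ∈ X.powersetCard j, ∑ u ∈ ord A, ∑ v ∈ ord (X \ A), F (u ++ c :: v) =
      (-1) ^ j * ee F c X := by
    intro A hA
    rw [Finset.mem_powersetCard] at hA
    have h1 : ∀ u ∈ ord A, ∀ v ∈ ord (X \ A),
        F (u ++ c :: v) = (-1) ^ j * S (fun t => F (c :: t)) u.reverse v := by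
      intro u hu v hv
      have hul := length_of_mem_ord hu
      have hvl := length_of_mem_ord hv
      rw [mem_ord] at hu hv
      have hcard : (X \ A).card = X.card - j := by
        rw [Finset.card_sdiff_of_subset hA.1, hA.2]
      have hnd : (c :: v ++ u.reverse).Nodup := by
        rw [List.cons_append, List.nodup_cons, List.nodup_append]
        refine ⟨?_, hv.1, List.nodup_reverse.2 hu.1, ?_⟩
        · rw [List.mem_append, List.mem_reverse]
          rintro (h | h)
          · rw [← List.mem_toFinset, hv.2] at h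
            exact hcX (Finset.sdiff_subset h)
          · rw [← List.mem_toFinset, hu.2] at h
            exact hcX (hA.1 h)
        · intro a ha b hb hab
          subst hab
          rw [List.mem_reverse, ← List.mem_toFinset, hu.2] at hb
          rw [← List.mem_toFinset, hv.2, Finset.mem_sdiff] at ha
          exact ha.2 hb
      have h2 := lie_of_kill hk c v u.reverse hnd (by
        rw [List.length_reverse, hul, hvl, hcard, hA.2]; omega)
      rw [List.length_reverse, List.reverse_reverse, hul, hA.2] at h2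
      rw [S_comm, h2, ← mul_assoc, ← pow_add, ← two_mul, pow_mul]
      simp
    have h3 : ∑ u ∈ ord A, ∑ v ∈ ord (X \ A), F (u ++ c :: v) =
        ∑ u ∈ ord A, ∑ v ∈ ord (X \ A), (-1) ^ j * S (fun t => F (c :: t)) u.reverse v := by
      apply Finset.sum_congr rfl
      intro u hu
      apply Finset.sum_congr rfl
      intro v hv
      exact h1 u hu v hv
    rw [h3, sum_ord_reverse (fun u => ∑ v ∈ ord (X \ A), (-1) ^ j * S (fun t => F (c :: t)) u v)]
    simp only [← Finset.mul_sum]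
    rw [sum_ord_union _ Finset.disjoint_sdiff, Finset.union_sdiff_of_subset hA.1]
    rfl
  rw [Finset.sum_congr rfl key, Finset.sum_const, Finset.card_powersetCard, nsmul_eq_mul]
  ring

theorem avg_bound {n : ℕ} (hk : Kill n (G st n)) (c : ℤ) (X : Finset ℤ) (hcX : c ∉ X)
    (hX : X.card + 1 = n) (j : ℕ) (hj : j ≤ X.card) :
    -(X.card.factorial : ℚ) ≤ (-1) ^ j * (X.card.choose j) * ee (G st n) c X := by
  rw [← avg hk c X hcX hX j hj]
  have h1 : ∑ w ∈ ord X, (-1 : ℚ) ≤ ∑ w ∈ ord X, G st n (w.take j ++ c :: w.drop j) :=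
    Finset.sum_le_sum (fun w _ => G_ge n _)
  rw [Finset.sum_const, card_ord, nsmul_eq_mul] at h1
  linarith

theorem quad_bound {n h : ℕ} (hn : n = 2 * h + 1) (hh : 1 ≤ h) (hk : Kill n (G st n)) (c : ℤ)
    (X : Finset ℤ) (hcX : c ∉ X) (hX : X.card = 2 * h) :
    ((2 * h).choose h : ℚ) * ((2 * h).choose (h - 1)) * (ee (G st n) c X) ^ 2 ≤
      ((2 * h).factorial : ℚ) ^ 2 + (2 * h).factorial *
        (((2 * h).choose h : ℚ) - (2 * h).choose (h - 1)) * (-1) ^ h * ee (G st n) c X := by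
  have b1 := avg_bound hk c X hcX (by omega) h (by omega)
  have b2 := avg_bound hk c X hcX (by omega) (h - 1) (by omega)
  rw [hX] at b1 b2
  set e := ee (G st n) c X
  set C1 : ℚ := ((2 * h).choose h : ℚ)
  set C2 : ℚ := ((2 * h).choose (h - 1) : ℚ)
  set a : ℚ := ((2 * h).factorial : ℚ)
  have hs : ((-1 : ℚ)) ^ (h - 1) = - (-1) ^ h := by
    obtain ⟨k, rfl⟩ : ∃ k, h = k + 1 := ⟨h - 1, by omega⟩
    rw [Nat.add_sub_cancel, pow_succ]
    ring
  rw [hs] at b2
  have hs2 : ((-1 : ℚ)) ^ h * (-1) ^ h = 1 := by rw [← mul_pow]; simp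
  set s : ℚ := (-1) ^ h
  have h1 : 0 ≤ a + s * C1 * e := by linarith
  have h2 : 0 ≤ a - s * C2 * e := by linarith
  have h3 := mul_nonneg h1 h2
  have h4 : (a + s * C1 * e) * (a - s * C2 * e) =
      a ^ 2 + a * (C1 - C2) * s * e - (s * s) * (C1 * C2 * e ^ 2) := by ring
  rw [h4, hs2] at h3
  linarith

theorem sum_kill {n : ℕ} {F : List ℤ → ℚ} (hn : 2 ≤ n) (hk : Kill n F) (A : Finset ℤ)
    (hA : A.card = n) : ∑ u ∈ ord A, F u = 0 := by
  rw [sum_ord]
  have hl : A.toList.length = n := by rw [Finset.length_toList, hA]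
  have hnd := A.nodup_toList
  cases hL : A.toList with
  | nil => rw [hL] at hl; simp at hl; omega
  | cons a L =>
    rw [hL] at hl hnd
    rw [T_cons]
    have : T (fun w => S F [a] w) L = T (fun _ => 0) L := by
      apply T_congr
      intro w hw
      apply hk
      · have := (hw.cons a).nodup_iff.2 hnd
        simpa using this
      · simp
      · intro h
        subst h
        have := hw.length_eq
        simp at this hl
        omega
      · have := hw.length_eq
        simp at this hl ⊢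
        omega
    rw [this, T_const, mul_zero]

/-- The product sum over all words of length `2n-1`. -/
theorem TG_eq {n h : ℕ} (hn : n = 2 * h + 1) (P Q : List ℤ → ℚ) (Z : Finset ℤ)
    (hZ : Z.card = 4 * h + 1) :
    ∑ w ∈ ord Z, P (w.take n) * Q (w.drop (n - 1)) =
      ∑ A ∈ Z.powersetCard (2 * h), ∑ c ∈ Z \ A,
        (∑ u ∈ ord A, P (u ++ [c])) * (∑ v ∈ ord ((Z \ A) \ {c}), Q (c :: v)) := by
  have e1 : ∀ w : List ℤ, P (w.take n) * Q (w.drop (n - 1)) =
      (fun u v => P (u ++ v.take 1) * Q v) (w.take (2 * h)) (w.drop (2 * h)) := by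
    intro w
    simp only
    rw [hn, List.take_add]
    simp
  simp only [e1]
  rw [sum_ord_split (fun u v => P (u ++ v.take 1) * Q v) Z (2 * h) (by omega)]
  apply Finset.sum_congr rfl
  intro A hA
  rw [Finset.mem_powersetCard] at hA
  have hcard : 1 ≤ (Z \ A).card := by
    rw [Finset.card_sdiff_of_subset hA.1]; omega
  have e2 : ∀ u ∈ ord A, ∑ v ∈ ord (Z \ A), P (u ++ v.take 1) * Q v =
      ∑ c ∈ Z \ A, P (u ++ [c]) * ∑ v ∈ ord ((Z \ A) \ {c}), Q (c :: v) := by
    intro u _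
    rw [sum_ord_head _ _ hcard]
    apply Finset.sum_congr rfl
    intro c _
    rw [Finset.mul_sum]
    apply Finset.sum_congr rfl
    intro v _
    simp
  rw [Finset.sum_congr rfl e2, Finset.sum_comm]
  apply Finset.sum_congr rfl
  intro c _
  rw [← Finset.sum_mul]

theorem ee_reverse {n : ℕ} {F : List ℤ → ℚ}
    (hrev : ∀ w : List ℤ, w.Nodup → w.length = n → F w.reverse = F w) (c : ℤ) (A : Finset ℤ)
    (hcA : c ∉ A) (hA : A.card + 1 = n) : ∑ u ∈ ord A, F (u ++ [c]) = ee F c A := by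
  unfold ee
  rw [← sum_ord_reverse (fun u => F (c :: u))]
  apply Finset.sum_congr rfl
  intro u hu
  have hl := length_of_mem_ord hu
  rw [mem_ord] at hu
  have : c :: u.reverse = (u ++ [c]).reverse := by simp
  rw [this, hrev]
  · rw [List.nodup_append]
    refine ⟨hu.1, by simp, ?_⟩
    intro a ha b hb
    simp only [List.mem_singleton] at hb
    subst hb
    rintro rfl
    rw [← List.mem_toFinset, hu.2] at ha
    exact hcA ha
  · simp; omega

theorem sum_first {n h : ℕ} (hn : n = 2 * h + 1) (hh : 1 ≤ h) {F : List ℤ → ℚ}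
    (hk : Kill n F) (Z : Finset ℤ) (hZ : Z.card = 4 * h + 1) :
    ∑ w ∈ ord Z, F (w.take n) = 0 := by
  rw [sum_ord_split (fun u _ => F u) Z n (by omega)]
  apply Finset.sum_eq_zero
  intro A hA
  rw [Finset.mem_powersetCard] at hA
  rw [Finset.sum_comm]
  apply Finset.sum_eq_zero
  intro v _
  exact sum_kill (by omega) hk A hA.2

theorem sum_last {n h : ℕ} (hn : n = 2 * h + 1) (hh : 1 ≤ h) {F : List ℤ → ℚ}
    (hk : Kill n F) (Z : Finset ℤ) (hZ : Z.card = 4 * h + 1) :
    ∑ w ∈ ord Z, F (w.drop (n - 1)) = 0 := by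
  rw [sum_ord_split (fun _ v => F v) Z (n - 1) (by omega)]
  apply Finset.sum_eq_zero
  intro A hA
  rw [Finset.mem_powersetCard] at hA
  apply Finset.sum_eq_zero
  intro v _
  apply sum_kill (by omega) hk
  rw [Finset.card_sdiff_of_subset hA.1]
  omega

theorem TG_bound {n h : ℕ} (hn : n = 2 * h + 1) (hh : 1 ≤ h) (hk : Kill n (G st n))
    (hrev : ∀ w : List ℤ, w.Nodup → w.length = n → G st n w.reverse = G st n w)
    (Z : Finset ℤ) (hZ : Z.card = 4 * h + 1) :
    ((2 * h).choose h : ℚ) * ((2 * h).choose (h - 1)) *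
      |∑ w ∈ ord Z, G st n (w.take n) * G st n (w.drop (n - 1))| ≤
      ((2 * h).factorial : ℚ) ^ 2 * ((4 * h + 1).choose (2 * h) * (2 * h + 1)) := by
  classical
  set C1 : ℚ := ((2 * h).choose h : ℚ) with hC1
  set C2 : ℚ := ((2 * h).choose (h - 1) : ℚ) with hC2
  set a : ℚ := ((2 * h).factorial : ℚ) with ha
  have hC1p : 0 ≤ C1 := by positivity
  have hC2p : 0 ≤ C2 := by positivity
  have hap : 0 < a := by positivity
  let e1 : Finset ℤ → ℤ → ℚ := fun A c => ee (G st n) c A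
  let e2 : Finset ℤ → ℤ → ℚ := fun A c => ee (G st n) c ((Z \ A) \ {c})
  have hcA : ∀ A ∈ Z.powersetCard (2 * h), ∀ c ∈ Z \ A, c ∉ A ∧ A.card = 2 * h ∧
      c ∉ (Z \ A) \ {c} ∧ ((Z \ A) \ {c}).card = 2 * h := by
    intro A hA c hc
    rw [Finset.mem_powersetCard] at hA
    refine ⟨(Finset.mem_sdiff.1 hc).2, hA.2, by simp, ?_⟩
    rw [Finset.card_sdiff_of_subset (Finset.singleton_subset_iff.2 hc), Finset.card_singleton,
      Finset.card_sdiff_of_subset hA.1]
    omega
  have hTG : ∑ w ∈ ord Z, G st n (w.take n) * G st n (w.drop (n - 1)) =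
      ∑ A ∈ Z.powersetCard (2 * h), ∑ c ∈ Z \ A, e1 A c * e2 A c := by
    rw [TG_eq hn _ _ Z hZ]
    apply Finset.sum_congr rfl
    intro A hA
    apply Finset.sum_congr rfl
    intro c hc
    obtain ⟨h1, h2, h3, h4⟩ := hcA A hA c hc
    rw [ee_reverse hrev c A h1 (by omega)]
    rfl
  have hE1 : ∑ A ∈ Z.powersetCard (2 * h), ∑ c ∈ Z \ A, e1 A c = 0 := by
    have h0 := sum_first hn hh hk Z hZ
    have h1 : ∑ w ∈ ord Z, G st n (w.take n) =
        ∑ w ∈ ord Z, G st n (w.take n) * (fun _ => (1 : ℚ)) (w.drop (n - 1)) := by simp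
    rw [h1, TG_eq hn (G st n) (fun _ => 1) Z hZ] at h0
    have h2 : ∑ A ∈ Z.powersetCard (2 * h), ∑ c ∈ Z \ A,
        (∑ u ∈ ord A, G st n (u ++ [c])) * (∑ v ∈ ord ((Z \ A) \ {c}), (fun _ => (1 : ℚ)) (c :: v)) =
        a * ∑ A ∈ Z.powersetCard (2 * h), ∑ c ∈ Z \ A, e1 A c := by
      rw [Finset.mul_sum]
      apply Finset.sum_congr rfl
      intro A hA
      rw [Finset.mul_sum]
      apply Finset.sum_congr rfl
      intro c hc
      obtain ⟨h1, h2, h3, h4⟩ := hcA A hA c hc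
      rw [ee_reverse hrev c A h1 (by omega)]
      simp only [Finset.sum_const, card_ord, h4, nsmul_eq_mul, mul_one]
      rw [mul_comm]
    rw [h2] at h0
    exact (mul_eq_zero.1 h0).resolve_left hap.ne'
  have hE2 : ∑ A ∈ Z.powersetCard (2 * h), ∑ c ∈ Z \ A, e2 A c = 0 := by
    have h0 := sum_last hn hh hk Z hZ
    have h1 : ∑ w ∈ ord Z, G st n (w.drop (n - 1)) =
        ∑ w ∈ ord Z, (fun _ => (1 : ℚ)) (w.take n) * G st n (w.drop (n - 1)) := by simp
    rw [h1, TG_eq hn (fun _ => 1) (G st n) Z hZ] at h0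
    have h2 : ∑ A ∈ Z.powersetCard (2 * h), ∑ c ∈ Z \ A,
        (∑ u ∈ ord A, (fun _ => (1 : ℚ)) (u ++ [c])) *
          (∑ v ∈ ord ((Z \ A) \ {c}), G st n (c :: v)) =
        a * ∑ A ∈ Z.powersetCard (2 * h), ∑ c ∈ Z \ A, e2 A c := by
      rw [Finset.mul_sum]
      apply Finset.sum_congr rfl
      intro A hA
      rw [Finset.mul_sum]
      apply Finset.sum_congr rfl
      intro c hc
      obtain ⟨h1, h2, h3, h4⟩ := hcA A hA c hc
      simp only [Finset.sum_const, card_ord, h2, nsmul_eq_mul, mul_one]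
      rfl
    rw [h2] at h0
    exact (mul_eq_zero.1 h0).resolve_left hap.ne'
  have hcount : ∑ A ∈ Z.powersetCard (2 * h), ∑ c ∈ Z \ A, (1 : ℚ) =
      (4 * h + 1).choose (2 * h) * (2 * h + 1) := by
    have : ∀ A ∈ Z.powersetCard (2 * h), ∑ c ∈ Z \ A, (1 : ℚ) = (2 * h + 1 : ℚ) := by
      intro A hA
      rw [Finset.mem_powersetCard] at hA
      rw [Finset.sum_const, nsmul_eq_mul, mul_one, Finset.card_sdiff_of_subset hA.1, hA.2, hZ]
      rw [show 4 * h + 1 - 2 * h = 2 * h + 1 by omega]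
      push_cast; ring
    rw [Finset.sum_congr rfl this, Finset.sum_const, Finset.card_powersetCard, hZ, nsmul_eq_mul]
  -- pointwise bounds
  have hpt : ∀ A ∈ Z.powersetCard (2 * h), ∀ c ∈ Z \ A,
      C1 * C2 * (e1 A c ^ 2 + e2 A c ^ 2) ≤
        2 * a ^ 2 * 1 + (a * (C1 - C2) * (-1) ^ h * e1 A c + a * (C1 - C2) * (-1) ^ h * e2 A c) := by
    intro A hA c hc
    obtain ⟨h1, h2, h3, h4⟩ := hcA A hA c hc
    have q1 := quad_bound hn hh hk c A h1 h2
    have q2 := quad_bound hn hh hk c _ h3 h4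
    have e1' : e1 A c = ee (G st n) c A := rfl
    have e2' : e2 A c = ee (G st n) c ((Z \ A) \ {c}) := rfl
    rw [e1', e2']
    linarith
  have hsum : ∑ A ∈ Z.powersetCard (2 * h), ∑ c ∈ Z \ A, C1 * C2 * (e1 A c ^ 2 + e2 A c ^ 2) ≤
      2 * a ^ 2 * ((4 * h + 1).choose (2 * h) * (2 * h + 1)) := by
    calc _ ≤ ∑ A ∈ Z.powersetCard (2 * h), ∑ c ∈ Z \ A,
        (2 * a ^ 2 * 1 + (a * (C1 - C2) * (-1) ^ h * e1 A c +
          a * (C1 - C2) * (-1) ^ h * e2 A c)) := by
          apply Finset.sum_le_sum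
          intro A hA
          apply Finset.sum_le_sum
          intro c hc
          exact hpt A hA c hc
      _ = 2 * a ^ 2 * (∑ A ∈ Z.powersetCard (2 * h), ∑ c ∈ Z \ A, (1 : ℚ)) +
          (a * (C1 - C2) * (-1) ^ h * (∑ A ∈ Z.powersetCard (2 * h), ∑ c ∈ Z \ A, e1 A c) +
          a * (C1 - C2) * (-1) ^ h * (∑ A ∈ Z.powersetCard (2 * h), ∑ c ∈ Z \ A, e2 A c)) := by
          simp only [Finset.sum_add_distrib, ← Finset.mul_sum]
      _ = _ := by rw [hE1, hE2, hcount]; ring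
  have habs : |∑ A ∈ Z.powersetCard (2 * h), ∑ c ∈ Z \ A, e1 A c * e2 A c| ≤
      ∑ A ∈ Z.powersetCard (2 * h), ∑ c ∈ Z \ A, (e1 A c ^ 2 + e2 A c ^ 2) / 2 := by
    refine (Finset.abs_sum_le_sum_abs _ _).trans ?_
    apply Finset.sum_le_sum
    intro A _
    refine (Finset.abs_sum_le_sum_abs _ _).trans ?_
    apply Finset.sum_le_sum
    intro c _
    rw [abs_le]
    constructor
    · nlinarith [sq_nonneg (e1 A c + e2 A c)]
    · nlinarith [sq_nonneg (e1 A c - e2 A c)]
  rw [hTG]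
  have h5 : C1 * C2 * |∑ A ∈ Z.powersetCard (2 * h), ∑ c ∈ Z \ A, e1 A c * e2 A c| ≤
      C1 * C2 * ∑ A ∈ Z.powersetCard (2 * h), ∑ c ∈ Z \ A, (e1 A c ^ 2 + e2 A c ^ 2) / 2 :=
    mul_le_mul_of_nonneg_left habs (mul_nonneg hC1p hC2p)
  have h6 : C1 * C2 * ∑ A ∈ Z.powersetCard (2 * h), ∑ c ∈ Z \ A, (e1 A c ^ 2 + e2 A c ^ 2) / 2 =
      (∑ A ∈ Z.powersetCard (2 * h), ∑ c ∈ Z \ A, C1 * C2 * (e1 A c ^ 2 + e2 A c ^ 2)) / 2 := by
    rw [Finset.mul_sum, Finset.sum_div]
    apply Finset.sum_congr rfl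
    intro A _
    rw [Finset.mul_sum, Finset.sum_div]
    apply Finset.sum_congr rfl
    intro c _
    ring
  rw [h6] at h5
  linarith

end

end Pool.Agent.Bicomp
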