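import Mathlib

/-!
Definitions for the classification of bicompatible permutation statistics (MP_7c1678_co).

Permutations are finite sequences of distinct positive integers, of any length.  A statistic is
represented by a function on `List ℕ`; only its values on permutations are ever used.
-/

namespace Pool.Agent.Bicomp

/-- A permutation: a finite sequence of distinct positive integers. -/
def IsPerm (w : List ℕ) : Prop := w.Nodup ∧ ∀ x ∈ w, 0 < x

/-- The letter `w_i` of `w`, where the letters are numbered from `1`. -/
def letter (w : List ℕ) (i : ℕ) : ℕ := w.getD (i - 1) 0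

/-- The words `p` and `s` have the same length and the same relative order. -/
def SameOrder (p s : List ℕ) : Prop :=
  p.length = s.length ∧ ∀ i j : ℕ, 1 ≤ i → i ≤ p.length → 1 ≤ j → j ≤ p.length →
    (letter p i < letter p j ↔ letter s i < letter s j)

/-- A permutation statistic: a function on permutations that only depends on the relative
order. -/
def IsStatistic {α : Type*} (st : List ℕ → α) : Prop :=
  ∀ p s : List ℕ, IsPerm p → IsPerm s → SameOrder p s → st p = st s

/-- The set of the shuffles of `p` and `s`: the permutations of length `|p| + |s|` that contain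
both `p` and `s` as subsequences. -/
def Sh (p s : List ℕ) : Set (List ℕ) :=
  {t | IsPerm t ∧ t.length = p.length + s.length ∧ p.Sublist t ∧ s.Sublist t}

/-- Shuffle-compatibility: for permutations `p`, `s` without common letter, the multiset of the
values of `st` on the shuffles of `p` and `s` (that is, the number of shuffles with each given
value `v`) only depends on the two values of `st` and the two lengths. -/
def ShuffleCompatible {α : Type*} (st : List ℕ → α) : Prop :=
  ∀ p s p' s' : List ℕ, IsPerm p → IsPerm s → IsPerm p' → IsPerm s' →
    (∀ x ∈ p, x ∉ s) → (∀ x ∈ p', x ∉ s') →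
    p.length = p'.length → s.length = s'.length → st p = st p' → st s = st s' →
    ∀ v : α, {t | t ∈ Sh p s ∧ st t = v}.ncard = {t | t ∈ Sh p' s' ∧ st t = v}.ncard

/-- The substring `w_i w_{i+1} ⋯ w_j` of `w`, where the letters are numbered from `1`. -/
def substring (w : List ℕ) (i j : ℕ) : List ℕ := (w.take j).drop (i - 1)

/-- Substring-compatibility. -/
def SubstringCompatible {α : Type*} (st : List ℕ → α) : Prop :=
  ∀ p s : List ℕ, IsPerm p → IsPerm s → p.length = s.length → st p = st s →
    ∀ i j : ℕ, 1 ≤ i → i ≤ j → j ≤ p.length → st (substring p i j) = st (substring s i j)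

/-- Bicompatible permutation statistics. -/
def Bicompatible {α : Type*} (st : List ℕ → α) : Prop :=
  ShuffleCompatible st ∧ SubstringCompatible st

/-- Equivalence of statistics. -/
def Equivalent {α β : Type*} (st : List ℕ → α) (st' : List ℕ → β) : Prop :=
  ∀ p s : List ℕ, IsPerm p → IsPerm s → p.length = s.length → (st p = st s ↔ st' p = st' s)

/-- The descent set. -/
def Des (w : List ℕ) : Set ℕ :=
  {i | 1 ≤ i ∧ i + 1 ≤ w.length ∧ letter w i > letter w (i + 1)}

/-- The peak set. -/
def Pk (w : List ℕ) : Set ℕ :=
  {i | 2 ≤ i ∧ i + 1 ≤ w.length ∧ letter w (i - 1) < letter w i ∧ letter w i > letter w (i + 1)}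

/-- The valley set. -/
def Val (w : List ℕ) : Set ℕ :=
  {i | 2 ≤ i ∧ i + 1 ≤ w.length ∧ letter w (i - 1) > letter w i ∧ letter w i < letter w (i + 1)}

/-- The trivial statistic. -/
def triv (_ : List ℕ) : Unit := ()

end Pool.Agent.Bicomp
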