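import Pool.Agent.Bicomp.Level

namespace Pool.Agent.Bicomp

/-- Descent at index `i`. -/
def des (w : List ℤ) (i : ℕ) : Prop := i + 1 < w.length ∧ w.getD (i + 1) 0 < w.getD i 0

theorem des_wd (f : ℕ → ℤ) (n i : ℕ) : des (wd f 0 n) i ↔ i + 1 < n ∧ f (i + 1) < f i := by
  unfold des
  rw [length_wd]
  constructor
  · rintro ⟨h1, h2⟩
    rw [getD_wd _ _ _ _ h1, getD_wd _ _ _ _ (by omega), zero_add, zero_add] at h2
    exact ⟨h1, h2⟩
  · rintro ⟨h1, h2⟩
    rw [getD_wd _ _ _ _ h1, getD_wd _ _ _ _ (by omega), zero_add, zero_add]
    exact ⟨h1, h2⟩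

section

variable {α : Type*} {st : List ℤ → α}

/-- Values of `st` along a line only depend on the base. -/
theorem line_mem (hb : Bi st) {a b : ℤ} {s s' : List ℤ} (h1 : (a :: s).Nodup)
    (h2 : (b :: s').Nodup) (hs : s.length = s'.length) (he : st s = st s') {t : List ℤ}
    (ht : t ∈ shuf [a] s) : ∃ q ≤ s'.length, st (s'.take q ++ b :: s'.drop q) = st t := by
  have hp := hb.shf [a] s [b] s' (by simpa using h1) (by simpa using h2) rfl hs
    (st_single hb a b) he
  have hm : st t ∈ (shuf [a] s).map st := List.mem_map_of_mem ht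
  rw [hp.mem_iff, List.mem_map] at hm
  obtain ⟨t', ht', he'⟩ := hm
  obtain ⟨q, hq, rfl⟩ := mem_shuf_single.1 ht'
  exact ⟨q, hq, he'⟩

theorem getD_inj_of_nodup {w : List ℤ} (hw : w.Nodup) {i j : ℕ} (hi : i < w.length)
    (hj : j < w.length) (h : w.getD i 0 = w.getD j 0) : i = j := by
  rw [List.getD_eq_getElem _ _ hi, List.getD_eq_getElem _ _ hj] at h
  exact (hw.getElem_inj_iff).1 h

theorem getD_lt_fresh (w : List ℤ) {i : ℕ} (hi : i < w.length) : w.getD i 0 < fresh w := by
  rw [List.getD_eq_getElem _ _ hi]
  have h1 := le_bnd (List.getElem_mem hi)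
  have h2 := le_abs_self w[i]
  unfold fresh
  omega

/-- Insertion in a list as a word of a function. -/
theorem ins_list (w : List ℤ) (q : ℕ) (b : ℤ) (hq : q ≤ w.length) :
    w.take q ++ b :: w.drop q = wd (insf (fun i => w.getD i 0) q b) 0 (w.length + 1) := by
  conv_lhs => rw [eq_wd w]
  rw [ins_wd _ _ _ _ hq]


/-- Two-letter words. -/
theorem two_letter (hb : Bi st) (hne : st [1, 0] ≠ st [0, 1]) (u : List ℤ) (hu : u.Nodup)
    (hl : u.length = 2) : st u = st [0, 1] ↔ ¬ des u 0 := by
  match u, hl with
  | [a, b], _ =>
    have hab : a ≠ b := by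
      intro h
      simp [h] at hu
    have hdes : des [a, b] 0 ↔ b < a := by simp [des]
    rw [hdes]
    rcases lt_or_gt_of_ne hab with h | h
    · have e : st [a, b] = st [0, 1] := by
        apply hb.inv _ _ hu (by simp)
        refine ⟨rfl, ?_⟩
        intro i j hi hj
        simp only [List.length_cons, List.length_nil] at hi hj
        interval_cases i <;> interval_cases j <;> simp [h, h.le]
      simp only [e, true_iff]
      exact not_lt.2 h.le
    · have e : st [a, b] = st [1, 0] := by
        apply hb.inv _ _ hu (by simp)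
        refine ⟨rfl, ?_⟩
        intro i j hi hj
        simp only [List.length_cons, List.length_nil] at hi hj
        interval_cases i <;> interval_cases j <;> simp [h, h.le]
      rw [e]
      constructor
      · intro h'; exact absurd h' hne
      · intro h'; exact absurd h h'

theorem des_of_st (hb : Bi st) (hne : st [1, 0] ≠ st [0, 1]) (p s : List ℤ) (hp : p.Nodup)
    (hs : s.Nodup) (hl : p.length = s.length) (he : st p = st s) (i : ℕ) : des p i ↔ des s i := by
  by_cases hi : i + 1 < p.length
  · have h1 := hb.sub p s hp hs hl he i 2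
    have key : ∀ w : List ℤ, w.Nodup → i + 1 < w.length →
        (st ((w.drop i).take 2) = st [0, 1] ↔ ¬ des w i) := by
      intro w hw hiw
      rw [two_letter hb hne _ (hw.sublist ((List.take_sublist _ _).trans (List.drop_sublist _ _)))
        (by simp; omega)]
      apply not_congr
      unfold des
      simp only [List.length_take, List.length_drop]
      have e0 : ((w.drop i).take 2).getD 0 0 = w.getD i 0 := by
        rw [List.getD_eq_getElem _ _ (by simp; omega), List.getD_eq_getElem _ _ (by omega)]
        simp
      have e1 : ((w.drop i).take 2).getD (0 + 1) 0 = w.getD (i + 1) 0 := by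
        rw [List.getD_eq_getElem _ _ (by simp; omega), List.getD_eq_getElem _ _ (by omega)]
        simp
      rw [e0, e1]
      constructor
      · rintro ⟨_, h⟩; exact ⟨hiw, h⟩
      · rintro ⟨_, h⟩; exact ⟨by omega, h⟩
    have k1 := key p hp hi
    have k2 := key s hs (by omega)
    rw [h1] at k1
    rw [k1] at k2
    exact not_iff_not.1 k2
  · constructor
    · intro h; exact absurd h.1 hi
    · intro h; exact absurd (by have := h.1; omega) hi

/-- The descent sets of the insertions of a big letter are distinct. -/
theorem des_ins_inj (f : ℕ → ℤ) (m q q' : ℕ) (b : ℤ) (hf : ∀ i < m, f i < b) (hq : q < q')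
    (hq' : q' ≤ m)
    (h : ∀ i, des (wd (insf f q b) 0 (m + 1)) i ↔ des (wd (insf f q' b) 0 (m + 1)) i) : False := by
  have key : ∀ i, q ≤ i → i < q' → des (wd (insf f q' b) 0 (m + 1)) i := by
    intro i hqi
    induction i, hqi using Nat.le_induction with
    | base =>
      intro _
      rw [← h, des_wd]
      refine ⟨by omega, ?_⟩
      have e1 : insf f q b q = b := by simp [insf]
      have e2 : insf f q b (q + 1) = f q := by simp [insf]
      rw [e1, e2]
      exact hf _ (by omega)
    | succ i hqi ih =>
      intro hi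
      have h1 := ih (by omega)
      rw [des_wd] at h1
      have h2 := h1.2
      simp only [insf] at h2
      rw [if_pos (by omega), if_pos (by omega)] at h2
      rw [← h, des_wd]
      refine ⟨by omega, ?_⟩
      simp only [insf]
      rw [if_neg (by omega), if_neg (by omega), if_neg (by omega), if_neg (by omega)]
      simpa using h2
  have h1 := key (q' - 1) (by omega) (by omega)
  rw [des_wd] at h1
  have h2 := h1.2
  simp only [insf] at h2
  rw [if_neg (by omega), if_pos (by omega), if_pos (by omega)] at h2
  have := hf (q' - 1) (by omega)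
  omega

/-- The case of descent sets. -/
theorem des_case (hb : Bi st) (hne : st [1, 0] ≠ st [0, 1]) : ∀ (N : ℕ) (p s : List ℤ), p.Nodup →
    s.Nodup → p.length = N → s.length = N → (st p = st s ↔ ∀ i, des p i ↔ des s i) := by
  intro N
  induction N with
  | zero =>
    intro p s hp hs hpl hsl
    have h1 : p = [] := List.length_eq_zero_iff.1 hpl
    have h2 : s = [] := List.length_eq_zero_iff.1 hsl
    subst h1 h2
    simp
  | succ N ih =>
    intro p s hp hs hpl hsl
    refine ⟨fun h => des_of_st hb hne p s hp hs (by omega) h, ?_⟩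
    intro h
    obtain ⟨a, p', rfl⟩ : ∃ a p', p = a :: p' := by
      cases p with
      | nil => simp at hpl
      | cons a p' => exact ⟨a, p', rfl⟩
    obtain ⟨b, s', rfl⟩ : ∃ b s', s = b :: s' := by
      cases s with
      | nil => simp at hsl
      | cons b s' => exact ⟨b, s', rfl⟩
    have hp' := (List.nodup_cons.1 hp).2
    have hs' := (List.nodup_cons.1 hs).2
    simp only [List.length_cons, Nat.add_right_cancel_iff] at hpl hsl
    have hst : st p' = st s' := by
      rw [ih p' s' hp' hs' hpl hsl]
      intro i
      have := h (i + 1)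
      simpa [des] using this
    obtain ⟨q, hq, e1⟩ := line_mem hb hp (nodup_fresh hs') (by omega) hst
      (t := a :: p') (mem_shuf_single.2 ⟨0, by omega, by simp⟩)
    obtain ⟨q', hq', e2⟩ := line_mem hb hs (nodup_fresh hs') rfl rfl
      (t := b :: s') (mem_shuf_single.2 ⟨0, by omega, by simp⟩)
    have hnd : ∀ x ≤ s'.length, (s'.take x ++ fresh s' :: s'.drop x).Nodup := by
      intro x hx
      have := nodup_of_mem_shuf (mem_shuf_single.2 ⟨x, hx, rfl⟩ :
        s'.take x ++ fresh s' :: s'.drop x ∈ shuf [fresh s'] s') (by simpa using nodup_fresh hs')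
      exact this
    have hlen : ∀ x ≤ s'.length, (s'.take x ++ fresh s' :: s'.drop x).length = N + 1 := by
      intro x hx
      simp; omega
    have d1 := des_of_st hb hne _ _ (hnd q hq) hp (by rw [hlen q hq]; simp; omega) e1
    have d2 := des_of_st hb hne _ _ (hnd q' hq') hs (by rw [hlen q' hq']; simp; omega) e2
    have d3 : ∀ i, des (s'.take q ++ fresh s' :: s'.drop q) i ↔
        des (s'.take q' ++ fresh s' :: s'.drop q') i := by
      intro i
      rw [d1 i, d2 i]; exact h i
    rw [ins_list s' q _ hq, ins_list s' q' _ hq'] at d3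
    have hqq : q = q' := by
      by_contra hne'
      have hf : ∀ i < s'.length, s'.getD i 0 < fresh s' := fun i hi => getD_lt_fresh s' hi
      rcases lt_or_gt_of_ne hne' with hlt | hlt
      · exact des_ins_inj _ _ q q' _ hf hlt hq' d3
      · exact des_ins_inj _ _ q' q _ hf hlt hq (fun i => (d3 i).symm)
    subst hqq
    rw [← e1, ← e2]

end

end Pool.Agent.Bicomp
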