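import Pool.Agent.Bicomp.Shuf

namespace Pool.Agent.Bicomp

/-- Two words of integers have the same relative order. -/
def SameOrd (p s : List ℤ) : Prop :=
  p.length = s.length ∧ ∀ i j : ℕ, i < p.length → j < p.length →
    (p.getD i 0 < p.getD j 0 ↔ s.getD i 0 < s.getD j 0)

/-- The word `f k, f (k+1), …, f (k+n-1)`. -/
def wd (f : ℕ → ℤ) (k n : ℕ) : List ℤ := (List.range n).map (fun i => f (k + i))

@[simp] theorem length_wd (f : ℕ → ℤ) (k n : ℕ) : (wd f k n).length = n := by simp [wd]

theorem getD_wd (f : ℕ → ℤ) (k n i : ℕ) (h : i < n) : (wd f k n).getD i 0 = f (k + i) := by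
  rw [List.getD_eq_getElem _ _ (by simpa using h)]
  simp [wd]

theorem getElem_wd (f : ℕ → ℤ) (k n i : ℕ) (h : i < (wd f k n).length) :
    (wd f k n)[i] = f (k + i) := by
  simp [wd]

theorem wd_drop_take (f : ℕ → ℤ) (k n a b : ℕ) (h : a + b ≤ n) :
    ((wd f k n).drop a).take b = wd f (k + a) b := by
  apply List.ext_getElem
  · simp; omega
  · intro i h1 h2
    rw [List.getElem_take, List.getElem_drop, getElem_wd, getElem_wd, add_assoc]

theorem wd_take (f : ℕ → ℤ) (k n b : ℕ) (h : b ≤ n) :
    (wd f k n).take b = wd f k b := by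
  simpa using wd_drop_take f k n 0 b (by omega)

theorem wd_tail (f : ℕ → ℤ) (k n : ℕ) : (wd f k (n + 1)).tail = wd f (k + 1) n := by
  apply List.ext_getElem
  · simp
  · intro i h1 h2
    rw [List.getElem_tail, getElem_wd, getElem_wd]
    congr 1; omega

theorem wd_dropLast (f : ℕ → ℤ) (k n : ℕ) : (wd f k (n + 1)).dropLast = wd f k n := by
  apply List.ext_getElem
  · simp
  · intro i h1 h2
    rw [List.getElem_dropLast, getElem_wd, getElem_wd]

theorem nodup_wd {f : ℕ → ℤ} (hf : Function.Injective f) (k n : ℕ) : (wd f k n).Nodup := by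
  unfold wd
  refine (List.nodup_map_iff_inj_on List.nodup_range).2 ?_
  intro x _ y _ h
  have := hf h
  omega

theorem nodup_wd' {f : ℕ → ℤ} {k n : ℕ}
    (hf : ∀ i < n, ∀ j < n, f (k + i) = f (k + j) → i = j) : (wd f k n).Nodup := by
  unfold wd
  refine (List.nodup_map_iff_inj_on List.nodup_range).2 ?_
  intro x hx y hy h
  exact hf x (List.mem_range.1 hx) y (List.mem_range.1 hy) h

theorem eq_wd (w : List ℤ) : w = wd (fun i => w.getD i 0) 0 w.length := by
  apply List.ext_getElem
  · simp
  · intro i h1 h2
    rw [getElem_wd, zero_add, List.getD_eq_getElem _ _ h1]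

theorem sameOrd_wd {f g : ℕ → ℤ} {k l n : ℕ}
    (h : ∀ i < n, ∀ j < n, (f (k + i) < f (k + j) ↔ g (l + i) < g (l + j))) :
    SameOrd (wd f k n) (wd g l n) := by
  refine ⟨by simp, ?_⟩
  intro i j hi hj
  simp only [length_wd] at hi hj
  rw [getD_wd _ _ _ _ hi, getD_wd _ _ _ _ hj, getD_wd _ _ _ _ hi, getD_wd _ _ _ _ hj]
  exact h i hi j hj

/-- Bicompatible statistics, on words of distinct integers. -/
structure Bi {α : Type*} (st : List ℤ → α) : Prop where
  inv : ∀ p s : List ℤ, p.Nodup → s.Nodup → SameOrd p s → st p = st s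
  shf : ∀ p s p' s' : List ℤ, (p ++ s).Nodup → (p' ++ s').Nodup → p.length = p'.length →
    s.length = s'.length → st p = st p' → st s = st s' →
    ((shuf p s).map st).Perm ((shuf p' s').map st)
  sub : ∀ p s : List ℤ, p.Nodup → s.Nodup → p.length = s.length → st p = st s →
    ∀ i j, st ((p.drop i).take j) = st ((s.drop i).take j)

/-- `F` restricted to words of length `N` factors through `st`. -/
def Meas {α : Type*} (st : List ℤ → α) (N : ℕ) (F : List ℤ → ℚ) : Prop :=
  ∀ p s : List ℤ, p.Nodup → s.Nodup → p.length = N → s.length = N → st p = st s → F p = F s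

/-- `st` is constant on each length below `n`. -/
def Cst {α : Type*} (st : List ℤ → α) (n : ℕ) : Prop :=
  ∀ p s : List ℤ, p.Nodup → s.Nodup → p.length = s.length → p.length < n → st p = st s

section

variable {α : Type*} {st : List ℤ → α}

theorem Meas.inv (hb : Bi st) {N : ℕ} {F : List ℤ → ℚ} (hF : Meas st N F) {p s : List ℤ}
    (hp : p.Nodup) (hs : s.Nodup) (hpl : p.length = N) (h : SameOrd p s) : F p = F s :=
  hF p s hp hs hpl (h.1 ▸ hpl) (hb.inv p s hp hs h)

theorem Meas.window (hb : Bi st) {m : ℕ} {F : List ℤ → ℚ} (hF : Meas st m F) (k N : ℕ)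
    (h : k + m ≤ N) : Meas st N (fun t => F ((t.drop k).take m)) := by
  intro p s hp hs hpl hsl he
  apply hF
  · exact (hp.sublist ((List.take_sublist _ _).trans (List.drop_sublist _ _)))
  · exact (hs.sublist ((List.take_sublist _ _).trans (List.drop_sublist _ _)))
  · simp; omega
  · simp; omega
  · exact hb.sub p s hp hs (by omega) he k m

/-- Shuffle sums of measurable functions depend only on the values of `st`. -/
theorem S_eq (hb : Bi st) {N : ℕ} {F : List ℤ → ℚ} (hF : Meas st N F) {p s p' s' : List ℤ}
    (hps : (p ++ s).Nodup) (hps' : (p' ++ s').Nodup) (hp : p.length = p'.length)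
    (hs : s.length = s'.length) (hN : p.length + s.length = N)
    (h1 : st p = st p') (h2 : st s = st s') : S F p s = S F p' s' := by
  classical
  let f : α → ℚ := fun v =>
    if h : ∃ t : List ℤ, t.Nodup ∧ t.length = N ∧ st t = v then F (Classical.choose h) else 0
  have hf : ∀ t : List ℤ, t.Nodup → t.length = N → f (st t) = F t := by
    intro t ht htl
    have h : ∃ t' : List ℤ, t'.Nodup ∧ t'.length = N ∧ st t' = st t := ⟨t, ht, htl, rfl⟩
    have hc := Classical.choose_spec h
    simp only [f, dif_pos h]
    exact hF _ _ hc.1 ht hc.2.1 htl hc.2.2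
  have hperm := (hb.shf p s p' s' hps hps' hp hs h1 h2).map f
  have e := hperm.sum_eq
  rw [List.map_map, List.map_map] at e
  have e1 : S F p s = (List.map (f ∘ st) (shuf p s)).sum := by
    unfold S
    congr 1
    apply List.map_congr_left
    intro t ht
    rw [Function.comp_apply, hf t (nodup_of_mem_shuf ht hps)
      (by rw [length_of_mem_shuf ht]; exact hN)]
  have e2 : S F p' s' = (List.map (f ∘ st) (shuf p' s')).sum := by
    unfold S
    congr 1
    apply List.map_congr_left
    intro t ht
    rw [Function.comp_apply, hf t (nodup_of_mem_shuf ht hps')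
      (by rw [length_of_mem_shuf ht]; omega)]
  rw [e1, e2, e]

theorem st_single (hb : Bi st) (a b : ℤ) : st [a] = st [b] := by
  apply hb.inv _ _ (by simp) (by simp)
  refine ⟨rfl, ?_⟩
  intro i j hi hj
  simp only [List.length_singleton, Nat.lt_one_iff] at hi hj
  subst hi hj
  simp

theorem S_single_eq (hb : Bi st) {m : ℕ} {F : List ℤ → ℚ} (hF : Meas st (m + 1) F)
    {a b : ℤ} {s s' : List ℤ} (h1 : (a :: s).Nodup) (h2 : (b :: s').Nodup) (hs : s.length = m)
    (hs' : s'.length = m) (h : st s = st s') : S F [a] s = S F [b] s' :=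
  S_eq hb hF (by simpa using h1) (by simpa using h2) rfl (by omega)
    (by simp; omega) (st_single hb a b) h

/-- If all the single letter shuffle sums vanish, then all the proper shuffle sums vanish. -/
theorem kill_all (hb : Bi st) {n N : ℕ} (hc : Cst st n) (hN : N < 2 * n) {F : List ℤ → ℚ}
    (hF : Meas st N F)
    (hk : ∀ (a : ℤ) (s : List ℤ), (a :: s).Nodup → s.length + 1 = N → S F [a] s = 0) :
    ∀ p s : List ℤ, (p ++ s).Nodup → p ≠ [] → s ≠ [] → p.length + s.length = N →
      S F p s = 0 := by
  have key : ∀ p s : List ℤ, (p ++ s).Nodup → p ≠ [] → s ≠ [] → p.length + s.length = N →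
      p.length < n → S F p s = 0 := by
    intro p s hnd hp hs hl hpn
    cases p with
    | nil => exact absurd rfl hp
    | cons a p =>
      have h1 : S (fun t => S F t s) [a] p = S (fun t => S F [a] t) p s := S_assoc F [a] p s
      have h2 : S (fun t => S F [a] t) p s = 0 := by
        apply S_zero
        intro t ht
        apply hk
        · have := (perm_shuf ht).cons a
          rw [this.nodup_iff]
          simpa using hnd
        · rw [length_of_mem_shuf ht]
          simp only [List.length_cons] at hl
          omega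
      have h3 : S (fun t => S F t s) [a] p = S (fun _ => S F (a :: p) s) [a] p := by
        apply S_congr
        intro t ht
        have hperm : t.Perm (a :: p) := by simpa using perm_shuf ht
        have hnd2 : (t ++ s).Nodup := by
          rw [(hperm.append_right s).nodup_iff]; exact hnd
        refine S_eq hb hF hnd2 hnd hperm.length_eq rfl ?_ ?_ rfl
        · rw [hperm.length_eq]; exact hl
        · apply hc
          · exact hnd2.of_append_left
          · exact hnd.of_append_left
          · exact hperm.length_eq
          · rw [hperm.length_eq]; exact hpn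
      have h4 : S (fun _ => S F (a :: p) s) [a] p = (p.length + 1) * S F (a :: p) s := by
        unfold S
        rw [List.map_const', List.sum_replicate, length_shuf_single]
        simp
      have h5 : ((p.length : ℚ) + 1) * S F (a :: p) s = 0 := by
        rw [← h4, ← h3, h1, h2]
      have h6 : ((p.length : ℚ) + 1) ≠ 0 := by positivity
      exact (mul_eq_zero.1 h5).resolve_left h6
  intro p s hnd hp hs hl
  by_cases h : p.length < n
  · exact key p s hnd hp hs hl h
  · rw [S_comm]
    apply key s p _ hs hp (by omega) (by omega)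
    rw [List.perm_append_comm.nodup_iff]; exact hnd

theorem lie_of_kill {N : ℕ} {F : List ℤ → ℚ}
    (hk : ∀ p s : List ℤ, (p ++ s).Nodup → p ≠ [] → s ≠ [] → p.length + s.length = N →
      S F p s = 0) (b : ℤ) (u v : List ℤ) (hnd : (b :: u ++ v).Nodup)
    (hl : u.length + v.length + 1 = N) :
    S (fun t => F (b :: t)) u v = (-1) ^ v.length * F (v.reverse ++ b :: u) := by
  apply lie_identity
  intro p s hp hs hperm
  apply hk p s _ hp hs
  · have := hperm.length_eq
    simp at this
    omega
  · rw [hperm.nodup_iff]; exact hnd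

theorem rev_of_kill {N : ℕ} {F : List ℤ → ℚ}
    (hk : ∀ p s : List ℤ, (p ++ s).Nodup → p ≠ [] → s ≠ [] → p.length + s.length = N + 1 →
      S F p s = 0) (w : List ℤ) (hw : w.Nodup) (hl : w.length = N + 1) :
    F w.reverse = (-1) ^ N * F w := by
  cases w with
  | nil => simp at hl
  | cons b v =>
    simp only [List.length_cons] at hl
    have h := lie_of_kill hk b [] v (by simpa using hw) (by simp; omega)
    rw [S_nil_left] at h
    have hv : v.length = N := by omega
    rw [hv] at h
    rw [List.reverse_cons, h, ← mul_assoc, ← pow_add, ← two_mul, pow_mul]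
    simp

end

end Pool.Agent.Bicomp
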