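import Pool.Agent.Bicomp.Window

namespace Pool.Agent.Bicomp

open Classical in
/-- Indicator of a proposition. -/
noncomputable def ind (P : Prop) : ℚ := if P then 1 else 0

theorem ind_true {P : Prop} (h : P) : ind P = 1 := if_pos h
theorem ind_false {P : Prop} (h : ¬ P) : ind P = 0 := if_neg h

theorem ind_congr {P Q : Prop} (h : P ↔ Q) : ind P = ind Q := by
  rw [propext h]

/-- The increasing word. -/
def inc (n : ℕ) : List ℤ := wd (fun i => (i : ℤ)) 0 n

theorem natCast_inj : Function.Injective (fun i : ℕ => (i : ℤ)) :=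
  fun i j h => by simpa using h

theorem nodup_inc (n : ℕ) : (inc n).Nodup := nodup_wd natCast_inj _ _

@[simp] theorem length_inc (n : ℕ) : (inc n).length = n := by simp [inc]

/-- Letter `b` inserted in position `q` of the word of `f`. -/
def insf (f : ℕ → ℤ) (q : ℕ) (b : ℤ) : ℕ → ℤ :=
  fun i => if i < q then f i else if i = q then b else f (i - 1)

theorem ins_wd (f : ℕ → ℤ) (n q : ℕ) (b : ℤ) (hq : q ≤ n) :
    (wd f 0 n).take q ++ b :: (wd f 0 n).drop q = wd (insf f q b) 0 (n + 1) := by
  apply List.ext_getElem
  · simp; omega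
  · intro i h1 h2
    rw [getElem_wd, zero_add, List.getElem_append]
    simp only [length_wd] at h2
    split_ifs with h
    · simp only [List.length_take, length_wd] at h
      rw [List.getElem_take, getElem_wd, zero_add]
      simp [insf, show i < q by omega]
    · simp only [List.length_take, length_wd] at h
      have hmin : min q n = q := by omega
      simp only [List.length_take, length_wd, hmin]
      by_cases hi : i = q
      · subst hi
        simp [insf]
      · have hq' : q < i := by omega
        obtain ⟨d, rfl⟩ : ∃ d, i = q + d + 1 := ⟨i - q - 1, by omega⟩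
        have : q + d + 1 - q = d + 1 := by omega
        simp only [this, List.getElem_cons_succ, List.getElem_drop, getElem_wd]
        simp only [insf]
        rw [if_neg (by omega), if_neg (by omega)]
        simp

/-- One small letter in an increasing sequence. -/
def W1 (P : ℕ) : ℕ → ℤ := fun i => if i = P then -1 else (i : ℤ)

/-- Two small letters in an increasing sequence. -/
def W2 (P n : ℕ) : ℕ → ℤ := fun i => if i = P then -1 else if i = P + n then -2 else (i : ℤ)

theorem W1_inj (P : ℕ) : Function.Injective (W1 P) := by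
  intro i j h
  simp only [W1] at h
  split_ifs at h <;> omega

theorem W2_inj (P n : ℕ) : Function.Injective (W2 P n) := by
  intro i j h
  simp only [W2] at h
  split_ifs at h <;> omega

theorem run_zero {t F : ℕ → ℚ} (h : ∀ k, F k = t k + t (k + 1)) (a : ℕ) : ∀ d : ℕ,
    (∀ k, a ≤ k → k < a + d → F k = 0) → t (a + d) = (-1) ^ d * t a := by
  intro d
  induction d with
  | zero => intro _; simp
  | succ d ih =>
    intro hk
    have h1 := ih (fun k h1 h2 => hk k h1 (by omega))
    have h2 := h (a + d)
    rw [hk (a + d) (by omega) (by omega)] at h2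
    rw [← add_assoc, pow_succ]
    linarith

theorem run_two {t F : ℕ → ℚ} (h : ∀ k, F k = t k + t (k + 1)) (a : ℕ) (ha : t a = 1) : ∀ d : ℕ,
    (∀ k, a ≤ k → k < a + d → F k = 2) → t (a + d) = 1 := by
  intro d
  induction d with
  | zero => intro _; simpa using ha
  | succ d ih =>
    intro hk
    have h1 := ih (fun k h1 h2 => hk k h1 (by omega))
    have h2 := h (a + d)
    rw [hk (a + d) (by omega) (by omega)] at h2
    rw [← add_assoc]
    linarith

theorem run_two_back {t F : ℕ → ℚ} (h : ∀ k, F k = t k + t (k + 1)) (a : ℕ) : ∀ d : ℕ,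
    t (a + d) = 1 → (∀ k, a ≤ k → k < a + d → F k = 2) → t a = 1 := by
  intro d
  induction d with
  | zero => intro h1 _; simpa using h1
  | succ d ih =>
    intro h1 hk
    apply ih
    · have h2 := h (a + d)
      rw [hk (a + d) (by omega) (by omega)] at h2
      rw [← add_assoc] at h1
      linarith
    · intro k h1 h2
      exact hk k h1 (by omega)

theorem window_reverse (n l i : ℕ) (w : List ℤ) (hw : w.length + 1 = n + l) (hi : i < l) :
    (w.reverse.drop i).take n = ((w.drop (l - 1 - i)).take n).reverse := by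
  apply List.ext_getElem
  · simp; omega
  · intro j h1 h2
    simp only [List.length_take, List.length_drop, List.length_reverse] at h1 h2
    rw [List.getElem_take, List.getElem_drop, List.getElem_reverse, List.getElem_reverse,
      List.getElem_take, List.getElem_drop]
    congr 1
    simp only [List.length_take, List.length_drop]
    omega

section

variable {α : Type*} {st : List ℤ → α}

theorem st_wd_eq (hb : Bi st) {f g : ℕ → ℤ} {k l n : ℕ} (hf : (wd f k n).Nodup)
    (h : ∀ i < n, ∀ j < n, (f (k + i) < f (k + j) ↔ g (l + i) < g (l + j))) :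
    st (wd f k n) = st (wd g l n) := by
  have hg : (wd g l n).Nodup := by
    apply nodup_wd'
    intro i hi j hj hij
    by_contra hne
    have h1 : ¬ f (k + i) < f (k + j) := fun h' => by
      have := (h i hi j hj).1 h'; omega
    have h2 : ¬ f (k + j) < f (k + i) := fun h' => by
      have := (h j hj i hi).1 h'; omega
    have h3 : f (k + i) = f (k + j) := le_antisymm (not_lt.1 h2) (not_lt.1 h1)
    have h4 : (wd f k n)[i]'(by simpa using hi) = (wd f k n)[j]'(by simpa using hj) := by
      rw [getElem_wd, getElem_wd]; exact h3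
    exact hne ((hf.getElem_inj_iff).1 h4)
  exact hb.inv _ _ hf hg (sameOrd_wd h)

theorem meas_of_st {n : ℕ} (P : α → Prop) : Meas st n (fun w => ind (P (st w))) := by
  intro p s _ _ _ _ h
  simp only [h]

theorem meas_const (n : ℕ) (c : ℚ) : Meas st n (fun _ => c) := by
  intro p s _ _ _ _ _; rfl

/-- The line constant. -/
noncomputable def lc (n : ℕ) (F : List ℤ → ℚ) : ℚ := S F [-1] (inc (n - 1))

theorem nodup_neg_inc (n : ℕ) : ((-1 : ℤ) :: inc n).Nodup := by
  rw [List.nodup_cons]
  refine ⟨?_, nodup_inc n⟩
  intro h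
  simp [inc, wd] at h

theorem line_const (hb : Bi st) {n : ℕ} (hc : Cst st n) (hn : 1 ≤ n) {F : List ℤ → ℚ}
    (hF : Meas st n F) (a : ℤ) (s : List ℤ) (h : (a :: s).Nodup) (hs : s.length + 1 = n) :
    S F [a] s = lc n F := by
  obtain ⟨m, rfl⟩ : ∃ m, n = m + 1 := ⟨n - 1, by omega⟩
  apply S_single_eq hb hF h (nodup_neg_inc _) (by omega) (by simp)
  apply hc
  · exact (List.nodup_cons.1 h).2
  · exact nodup_inc _
  · simp; omega
  · omega

theorem S_const (c : ℚ) (p s : List ℤ) : S (fun _ => c) p s = (shuf p s).length * c := by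
  simp [S]

theorem level_kill (hb : Bi st) {n : ℕ} (hc : Cst st n) (hn : 1 ≤ n) {F : List ℤ → ℚ}
    (hF : Meas st n F) :
    ∀ p s : List ℤ, (p ++ s).Nodup → p ≠ [] → s ≠ [] → p.length + s.length = n →
      S (fun w => F w + -(lc n F / n)) p s = 0 := by
  apply kill_all hb hc (by omega)
  · intro p s hp hs hpl hsl h
    simp only
    rw [hF p s hp hs hpl hsl h]
  · intro a s h hs
    rw [S_add, line_const hb hc hn hF a s h hs, S_const, length_shuf_single]
    have : ((s.length + 1 : ℕ) : ℚ) = n := by exact_mod_cast hs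
    rw [this]
    have : (n : ℚ) ≠ 0 := by positivity
    field_simp
    ring

theorem level_rev (hb : Bi st) {n : ℕ} (hc : Cst st n) (hn : 1 ≤ n) {F : List ℤ → ℚ}
    (hF : Meas st n F) (w : List ℤ) (hw : w.Nodup) (hl : w.length = n) :
    F w.reverse + -(lc n F / n) = (-1) ^ (n - 1) * (F w + -(lc n F / n)) := by
  obtain ⟨m, rfl⟩ : ∃ m, n = m + 1 := ⟨n - 1, by omega⟩
  exact rev_of_kill (level_kill hb hc hn hF) w hw hl

/-- The letters of the line through the increasing word. -/
theorem lc_eq_sum (hb : Bi st) {n : ℕ} (hn : 1 ≤ n) {F : List ℤ → ℚ}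
    (hF : Meas st n F) (P : ℕ) (hP : n ≤ P) :
    lc n F = ∑ q ∈ Finset.range n, F (wd (W1 P) (P - q) n) := by
  obtain ⟨m, rfl⟩ : ∃ m, n = m + 1 := ⟨n - 1, by omega⟩
  unfold lc
  rw [S_single]
  simp only [Nat.add_sub_cancel, length_inc]
  apply Finset.sum_congr rfl
  intro q hq
  rw [Finset.mem_range] at hq
  unfold inc
  rw [ins_wd _ _ _ _ (by omega)]
  have hnd : (wd (W1 P) (P - q) (m + 1)).Nodup := nodup_wd (W1_inj P) _ _
  symm
  apply hF
  · exact hnd
  · apply nodup_wd'
    intro i hi j hj h
    simp only [insf, zero_add] at h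
    split_ifs at h <;> omega
  · simp
  · simp
  · apply st_wd_eq hb hnd
    intro i hi j hj
    simp only [W1, insf, zero_add]
    split_ifs <;> omega

end

end Pool.Agent.Bicomp
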