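import Pool.Agent.Bicomp.Count
import Pool.Agent.Bicomp.Arith

namespace Pool.Agent.Bicomp

section

variable {α : Type*} {st : List ℤ → α}

/-- First and last window outside the main class. -/
noncomputable def EE (st : List ℤ → α) (n : ℕ) (w : List ℤ) : ℚ :=
  ind (¬ st ((w.drop 0).take n) = st (inc n)) * ind (¬ st ((w.drop (n - 1)).take n) = st (inc n))

theorem meas_EE (hb : Bi st) (n N : ℕ) : Meas st N (EE st n) := by
  intro p s hp hs hpl hsl h
  have e : ∀ i, st ((p.drop i).take n) = st ((s.drop i).take n) := by
    intro i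
    exact hb.sub p s hp hs (by omega) h i n
  simp only [EE, e]

theorem EE_rev (n : ℕ) (hn : 1 ≤ n)
    (hrev : ∀ w : List ℤ, w.Nodup → w.length = n →
      (st w.reverse = st (inc n) ↔ st w = st (inc n))) (w : List ℤ) (hw : w.Nodup)
    (hl : w.length + 1 = n + n) : EE st n w.reverse = EE st n w := by
  have hwin : ∀ i < n, (st ((w.reverse.drop i).take n) = st (inc n) ↔
      st ((w.drop (n - 1 - i)).take n) = st (inc n)) := by
    intro i hi
    rw [window_reverse n n i w (by omega) hi]
    apply hrev
    · exact hw.sublist ((List.take_sublist _ _).trans (List.drop_sublist _ _))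
    · simp; omega
  unfold EE
  rw [ind_congr (not_congr (hwin 0 (by omega))), ind_congr (not_congr (hwin (n - 1) (by omega)))]
  rw [Nat.sub_zero, Nat.sub_self, mul_comm]

theorem inc_of_mono (hb : Bi st) {f : ℕ → ℤ} {k n : ℕ}
    (h : ∀ i < n, ∀ j < n, (f (k + i) < f (k + j) ↔ i < j)) :
    st (wd f k n) = st (inc n) := by
  unfold inc
  symm
  apply st_wd_eq hb (nodup_wd natCast_inj _ _)
  intro i hi j hj
  rw [h i hi j hj]
  omega

theorem EE_01 (n : ℕ) (w : List ℤ) : EE st n w = 0 ∨ EE st n w = 1 := by
  unfold EE ind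
  split_ifs <;> simp

theorem fourfold (hb : Bi st) {n h : ℕ} (hc : Cst st n) (hn : n = 2 * h + 1) (hh : 1 ≤ h) :
    ∃ K : ℤ, ∀ (c : ℤ) (p s : List ℤ), (c :: (p ++ s)).Nodup → p.length = 2 * h →
      s.length = 2 * h → S (fun r => S (EE st n) [c] r) p s = 4 * K := by
  classical
  have hodd : Odd n := ⟨h, hn⟩
  have hrev := A_rev_odd hb hc hodd
  obtain ⟨m, hm⟩ : ∃ m, m + 1 = 4 * h := ⟨4 * h - 1, by omega⟩
  let E' : List ℤ → ℚ := fun w => if w.Nodup ∧ w.length = m + 1 + 1 then EE st n w else 0
  have hE'of : ∀ w : List ℤ, w.Nodup → w.length = m + 1 + 1 → E' w = EE st n w := by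
    intro w h1 h2; exact if_pos ⟨h1, h2⟩
  have hE'mem : E' ∈ VS st (m + 1 + 1) 1 := by
    refine ⟨?_, ?_, ?_⟩
    · intro p s hp hs hpl hsl he
      rw [hE'of p hp hpl, hE'of s hs hsl]
      exact meas_EE hb n _ p s hp hs hpl hsl he
    · intro p hp hpl
      rw [hE'of p hp hpl, hE'of _ (List.nodup_reverse.2 hp) (by simpa using hpl), one_mul]
      exact EE_rev n (by omega) hrev p hp (by omega)
    · intro p hp
      exact if_neg hp
  have hymem := Dop_mem hb hE'mem
  set y : List ℤ → ℚ := Dop (m + 1) E' with hy
  have hyof : ∀ (c : ℤ) (r : List ℤ), (c :: r).Nodup → r.length = m + 1 →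
      S (EE st n) [c] r = y r := by
    intro c r hcr hr
    have hrn := (List.nodup_cons.1 hcr).2
    rw [hy, Dop_of _ hrn hr, ← S_single_eq hb hE'mem.1 hcr (nodup_fresh hrn) hr hr rfl]
    apply S_congr
    intro t ht
    rw [hE'of]
    · exact nodup_of_mem_shuf ht (by simpa using hcr)
    · rw [length_of_mem_shuf ht]; simp; omega
  have hsgn : ((-1 : ℚ)) ^ (m + 1) = 1 := by
    rw [hm, show 4 * h = 2 * (2 * h) by ring, pow_mul]; simp
  obtain ⟨η, hη, hηr, hsum⟩ := window_sum hb hc (m := m) (by omega) (F := y) hymem.1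
    (by
      intro w hw hwl
      rw [hsgn]
      exact hymem.2.1 w hw hwl)
  -- integrality of `y`
  have hyint : ∀ w : List ℤ, w.Nodup → w.length = m + 1 → ∃ z : ℤ, y w = z := by
    intro w hw hwl
    rw [← hyof _ w (nodup_fresh hw) hwl]
    apply S_int
    intro t _
    rcases EE_01 (st := st) n t with h0 | h1
    · exact ⟨0, by rw [h0]; simp⟩
    · exact ⟨1, by rw [h1]; simp⟩
  -- value on increasing words
  have hyinc : y (wd (fun i => (i : ℤ)) 0 (m + 1)) = 0 := by
    rw [← hyof (-1) (wd (fun i => (i : ℤ)) 0 (m + 1)) (nodup_neg_inc _) (by simp), S_single]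
    apply Finset.sum_eq_zero
    intro q hq
    rw [Finset.mem_range, length_wd] at hq
    rw [ins_wd _ _ _ _ (by omega)]
    unfold EE
    rw [wd_drop_take _ _ _ _ _ (by omega), wd_drop_take _ _ _ _ _ (by omega)]
    by_cases hqn : n ≤ q
    · rw [ind_false, zero_mul]
      rw [not_not]
      apply inc_of_mono hb
      intro i hi j hj
      simp only [insf, zero_add]
      rw [if_pos (by omega), if_pos (by omega)]
      omega
    · rw [mul_comm, ind_false, zero_mul]
      rw [not_not]
      apply inc_of_mono hb
      intro i hi j hj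
      simp only [insf, zero_add]
      split_ifs <;> omega
  -- integrality of `η`
  have hηint : ∀ w : List ℤ, w.Nodup → w.length = m → ∃ z : ℤ, η w = z := by
    apply path_ind
    · intro f hf
      have hnd : (wd f 0 m).Nodup := by
        apply nodup_wd'
        intro i hi j hj h
        rw [zero_add, zero_add] at h
        by_contra hne
        rcases lt_or_gt_of_ne hne with h' | h'
        · have := hf i j h' hj; omega
        · have := hf j i h' hi; omega
      have hmono : ∀ i < m, ∀ j < m, (f (0 + i) < f (0 + j) ↔ i < j) := by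
        intro i hi j hj
        rw [zero_add, zero_add]
        constructor
        · intro h
          by_contra hcon
          rcases lt_or_eq_of_le (not_lt.1 hcon) with h' | h'
          · exact absurd (hf j i h' hi) (not_lt.2 h.le)
          · subst h'; exact lt_irrefl _ h
        · intro h; exact hf i j h hj
      have e0 : ∀ k, η (wd (fun i => (i : ℤ)) k m) = η (wd f 0 m) := by
        intro k
        refine (hη _ _ hnd (nodup_wd natCast_inj _ _) (by simp) (by simp) ?_).symm
        apply st_wd_eq hb hnd
        intro i hi j hj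
        rw [hmono i hi j hj]
        omega
      have h1 := hsum (wd (fun i => (i : ℤ)) 0 (m + 1)) (nodup_wd natCast_inj _ _) (by simp)
      rw [wd_dropLast, wd_tail, e0, e0, hyinc] at h1
      refine ⟨0, ?_⟩
      push_cast
      linarith
    · rintro t ht htl ⟨z, hz⟩
      have h1 := hsum t ht htl
      obtain ⟨x, hx⟩ := hyint t ht htl
      refine ⟨x - z, ?_⟩
      rw [hx, hz] at h1
      push_cast
      linarith
  -- the constant `K`
  have hKall : ∀ p s p' s' : List ℤ, (p ++ s).Nodup → (p' ++ s').Nodup → p.length + 1 = 2 * h →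
      s.length = 2 * h → p'.length + 1 = 2 * h → s'.length = 2 * h →
      S η p s = S η p' s' := by
    intro p s p' s' h1 h2 h3 h4 h5 h6
    apply S_eq hb hη h1 h2 (by omega) (by omega) (by omega)
    · exact hc _ _ h1.of_append_left h2.of_append_left (by omega) (by omega)
    · exact hc _ _ h1.of_append_right h2.of_append_right (by omega) (by omega)
  set p0 : List ℤ := wd (fun i => (i : ℤ)) 0 (2 * h - 1) with hp0
  set s0 : List ℤ := wd (fun i => (i : ℤ)) (2 * h - 1) (2 * h) with hs0
  have hnd0 : (p0 ++ s0).Nodup := by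
    rw [List.nodup_append]
    refine ⟨nodup_wd natCast_inj _ _, nodup_wd natCast_inj _ _, ?_⟩
    intro a ha b hb hab
    simp only [hp0, hs0, wd, List.mem_map, List.mem_range] at ha hb
    obtain ⟨i, hi, rfl⟩ := ha
    obtain ⟨j, hj, rfl⟩ := hb
    omega
  obtain ⟨K, hK⟩ : ∃ K : ℤ, S η p0 s0 = K := by
    apply S_int
    intro t ht
    apply hηint
    · exact nodup_of_mem_shuf ht hnd0
    · rw [length_of_mem_shuf ht, hp0, hs0]; simp; omega
  have hK1 : ∀ p s : List ℤ, (p ++ s).Nodup → p.length + 1 = 2 * h → s.length = 2 * h →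
      S η p s = K := by
    intro p s h1 h2 h3
    rw [← hK]
    apply hKall _ _ _ _ h1 hnd0 h2 h3
    · rw [hp0]; simp; omega
    · rw [hs0]; simp
  have hK2 : ∀ p s : List ℤ, (p ++ s).Nodup → p.length = 2 * h → s.length + 1 = 2 * h →
      S η p s = K := by
    intro p s h1 h2 h3
    rw [S_comm]
    apply hK1 _ _ _ h3 h2
    rw [List.perm_append_comm.nodup_iff]; exact h1
  refine ⟨K, ?_⟩
  intro c p s hnd hp hs
  have hnd2 : (p ++ s).Nodup := (List.nodup_cons.1 hnd).2
  have e1 : S (fun r => S (EE st n) [c] r) p s = S (fun r => η r.dropLast + η r.tail) p s := by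
    apply S_congr
    intro r hr
    have hrl : r.length = m + 1 := by rw [length_of_mem_shuf hr]; omega
    have hrn : r.Nodup := nodup_of_mem_shuf hr hnd2
    rw [hyof c r ((perm_shuf hr).cons c |>.nodup_iff.2 hnd) hrl]
    exact hsum r hrn hrl
  rw [e1, S_add]
  have hpne : p ≠ [] := by intro h0; subst h0; simp at hp; omega
  have hsne : s ≠ [] := by intro h0; subst h0; simp at hs; omega
  have e2 : S (fun r => η r.tail) p s = K + K := by
    rw [S_tail η p s hpne hsne, hK1, hK2]
    · exact hnd2.sublist ((List.Sublist.refl p).append (List.tail_sublist s))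
    · exact hp
    · rw [List.length_tail]; omega
    · exact hnd2.sublist ((List.tail_sublist p).append (List.Sublist.refl s))
    · rw [List.length_tail]; omega
    · exact hs
  have hnd3 : (p.reverse ++ s.reverse).Nodup := by
    have : (p.reverse ++ s.reverse).Perm (p ++ s) :=
      (List.reverse_perm p).append (List.reverse_perm s)
    rw [this.nodup_iff]; exact hnd2
  have e3 : S (fun r => η r.dropLast) p s = K + K := by
    have e4 : S (fun r => η r.dropLast) p s = S (fun r => η r.reverse.tail) p s := by
      apply S_congr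
      intro r hr
      have hrl : r.length = m + 1 := by rw [length_of_mem_shuf hr]; omega
      have hrn : r.Nodup := nodup_of_mem_shuf hr hnd2
      rw [List.tail_reverse, hηr, hsgn, one_mul]
      · exact hrn.sublist (List.dropLast_sublist _)
      · rw [List.length_dropLast]; omega
    rw [e4, S_reverse (fun r => η r.tail) p s, S_tail η _ _ (by simpa using hpne)
      (by simpa using hsne), hK1, hK2]
    · exact hnd3.sublist ((List.Sublist.refl _).append (List.tail_sublist _))
    · rw [List.length_reverse]; exact hp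
    · rw [List.length_tail, List.length_reverse]; omega
    · exact hnd3.sublist ((List.tail_sublist _).append (List.Sublist.refl _))
    · rw [List.length_tail, List.length_reverse]; omega
    · rw [List.length_reverse]; exact hs
  rw [e2, e3]
  ring

theorem length_shuf : ∀ (N : ℕ) (p s : List ℤ), p.length + s.length = N →
    (shuf p s).length = N.choose p.length := by
  intro N
  induction N with
  | zero =>
    intro p s h
    have hp : p = [] := List.length_eq_zero_iff.1 (by omega)
    have hs : s = [] := List.length_eq_zero_iff.1 (by omega)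
    subst hp hs
    simp
  | succ N ih =>
    intro p s h
    cases p with
    | nil => simp
    | cons a p =>
      cases s with
      | nil =>
        simp only [List.length_nil, add_zero] at h
        simp [h]
      | cons b s =>
        simp only [List.length_cons] at h
        rw [shuf_cons_cons, List.length_append, List.length_map, List.length_map,
          ih p (b :: s) (by simp; omega), ih (a :: p) s (by simp; omega), List.length_cons,
          Nat.choose_succ_succ]

theorem dvd_choose (hb : Bi st) {n : ℕ} (hc : Cst st n) (hn : 1 ≤ n)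
    (hl : lc n (fun w => ind (¬ st w = st (inc n))) = 1) (i : ℕ) (hi : 0 < i) (hin : i < n) :
    n ∣ n.choose i := by
  have hk := kill_G hb hc hn hl
  set p : List ℤ := wd (fun i => (i : ℤ)) 0 i
  set s : List ℤ := wd (fun i => (i : ℤ)) i (n - i)
  have hnd : (p ++ s).Nodup := by
    rw [List.nodup_append]
    refine ⟨nodup_wd natCast_inj _ _, nodup_wd natCast_inj _ _, ?_⟩
    intro a ha b hb hab
    simp only [p, s, wd, List.mem_map, List.mem_range] at ha hb
    obtain ⟨i, hi, rfl⟩ := ha
    obtain ⟨j, hj, rfl⟩ := hb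
    omega
  have hpl : p.length = i := by simp [p]
  have hsl : s.length = n - i := by simp [s]
  have h0 := hk p s hnd (by intro h; rw [h] at hpl; simp at hpl; omega)
    (by intro h; rw [h] at hsl; simp at hsl; omega) (by omega)
  have e : S (G st n) p s = (n : ℚ) * S (fun w => ind (¬ st w = st (inc n))) p s +
      S (fun _ => (-1 : ℚ)) p s := by
    rw [← S_smul, ← S_add]
    apply S_congr
    intro t _
    simp only [G]; ring
  obtain ⟨z, hz⟩ : ∃ z : ℤ, S (fun w => ind (¬ st w = st (inc n))) p s = z := by
    apply S_int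
    intro t _
    unfold ind
    split_ifs
    · exact ⟨0, by simp⟩
    · exact ⟨1, by simp⟩
  rw [e, S_const, hz, length_shuf n p s (by omega), hpl] at h0
  have h1 : ((n.choose i : ℤ) : ℚ) = ((n * z : ℤ) : ℚ) := by push_cast; linarith
  have h2 : (n.choose i : ℤ) = n * z := by exact_mod_cast h1
  have : (n : ℤ) ∣ (n.choose i : ℤ) := ⟨z, h2⟩
  exact_mod_cast this

/-- The first nonconstant level is not an odd number bigger than three. -/
theorem no_odd (hb : Bi st) {n : ℕ} (hc : Cst st n) (hn : Odd n) (hn5 : 5 ≤ n)
    (hnc : NonCst st n) : False := by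
  classical
  obtain ⟨h, hh⟩ := id hn
  have hl := odd_line hb hc hn (by omega) hnc
  have hk := kill_G hb hc (by omega) hl
  have hrevG : ∀ w : List ℤ, w.Nodup → w.length = n → G st n w.reverse = G st n w := by
    intro w hw hwl
    unfold G
    rw [ind_congr (not_congr (A_rev_odd hb hc hn w hw hwl))]
  obtain ⟨K, hK⟩ := fourfold hb hc hh (by omega)
  -- the letters
  set LP : List ℤ := wd (fun i => (i : ℤ)) 0 (2 * h) with hLP
  set LS : List ℤ := wd (fun i => (i : ℤ)) (2 * h) (2 * h) with hLS
  set L : List ℤ := -1 :: (LP ++ LS) with hL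
  have hLnd : L.Nodup := by
    rw [hL, List.nodup_cons, List.nodup_append]
    refine ⟨?_, nodup_wd natCast_inj _ _, nodup_wd natCast_inj _ _, ?_⟩
    · rw [List.mem_append]
      rintro (h1 | h1)
      · simp only [hLP, wd, List.mem_map, List.mem_range] at h1
        obtain ⟨i, hi, h2⟩ := h1
        omega
      · simp only [hLS, wd, List.mem_map, List.mem_range] at h1
        obtain ⟨i, hi, h2⟩ := h1
        omega
    · intro a ha b hb hab
      simp only [hLP, hLS, wd, List.mem_map, List.mem_range] at ha hb
      obtain ⟨i, hi, rfl⟩ := ha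
      obtain ⟨j, hj, rfl⟩ := hb
      omega
  have hLl : L.length = 4 * h + 1 := by simp [hL, hLP, hLS]; omega
  set Z := L.toFinset with hZ
  have hZc : Z.card = 4 * h + 1 := by rw [hZ, List.toFinset_card_of_nodup hLnd, hLl]
  set a : ℚ := ((2 * h).factorial : ℚ) with ha
  have hapos : 0 < a := by positivity
  -- total of `EE`
  have hTE : ∑ w ∈ ord Z, EE st n w = a ^ 2 * (4 * K) := by
    rw [hZ, sum_ord_list _ hLnd, hL, T_cons, ← T_append]
    have e1 : T (fun u => T (fun v => S (fun w => S (EE st n) [-1] w) u v) LS) LP =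
        T (fun _ => T (fun _ => (4 * K : ℚ)) LS) LP := by
      apply T_congr
      intro u hu
      apply T_congr
      intro v hv
      apply hK
      · have : (-1 :: (u ++ v)).Perm L := by
          rw [hL]; exact (hu.append hv).cons _
        rw [this.nodup_iff]; exact hLnd
      · rw [hu.length_eq, hLP]; simp
      · rw [hv.length_eq, hLS]; simp
    rw [e1]
    simp only [T_const]
    rw [hLP, hLS]
    simp only [length_wd]
    ring
  have hTG : ∑ w ∈ ord Z, G st n (w.take n) * G st n (w.drop (n - 1)) =
      (n : ℚ) ^ 2 * (a ^ 2 * (4 * K)) - ((4 * h + 1).factorial : ℚ) := by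
    have e1 : ∀ w ∈ ord Z, G st n (w.take n) * G st n (w.drop (n - 1)) =
        (n : ℚ) ^ 2 * EE st n w + (-(G st n (w.take n)) + (-(G st n (w.drop (n - 1))) + (-1))) := by
      intro w hw
      have hwl := length_of_mem_ord hw
      have e2 : (w.drop (n - 1)).take n = w.drop (n - 1) := by
        apply List.take_of_length_le
        rw [List.length_drop, hwl, hZc]; omega
      unfold EE G
      rw [e2, List.drop_zero]
      ring
    rw [Finset.sum_congr rfl e1]
    simp only [Finset.sum_add_distrib, Finset.sum_neg_distrib, ← Finset.mul_sum,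
      Finset.sum_const, card_ord, nsmul_eq_mul]
    rw [sum_first hh (by omega) hk Z hZc, sum_last hh (by omega) hk Z hZc, hTE, hZc]
    ring
  have hbound := TG_bound hh (by omega) hk hrevG Z hZc
  rw [hTG] at hbound
  set C : ℚ := (((4 * h + 1).choose (2 * h) : ℕ) : ℚ) with hC
  have hfac : ((4 * h + 1).factorial : ℚ) = C * a * ((2 * h + 1) * a) := by
    have h1 := Nat.choose_mul_factorial_mul_factorial (show 2 * h ≤ 4 * h + 1 by omega)
    have h2 : 4 * h + 1 - 2 * h = 2 * h + 1 := by omega
    rw [h2, Nat.factorial_succ (2 * h)] at h1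
    rw [← h1, hC, ha]
    push_cast
    ring
  have hnq : (n : ℚ) = 2 * h + 1 := by rw [hh]; push_cast; ring
  have e3 : (n : ℚ) ^ 2 * (a ^ 2 * (4 * K)) - ((4 * h + 1).factorial : ℚ) =
      (a ^ 2 * n) * (4 * n * K - C) := by
    rw [hfac, hnq]; ring
  rw [e3, abs_mul, abs_of_pos (by positivity : (0 : ℚ) < a ^ 2 * n)] at hbound
  have e4 : ((2 * h).choose h : ℚ) * ((2 * h).choose (h - 1)) * |4 * n * K - C| ≤ C := by
    have h1 : (a ^ 2 * n) * (((2 * h).choose h : ℚ) * ((2 * h).choose (h - 1)) *
        |4 * n * K - C|) ≤ (a ^ 2 * n) * C := by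
      calc _ = ((2 * h).choose h : ℚ) * ((2 * h).choose (h - 1)) *
          (a ^ 2 * n * |4 * n * K - C|) := by ring
        _ ≤ a ^ 2 * (C * (2 * h + 1)) := hbound
        _ = _ := by rw [hnq]; ring
    exact le_of_mul_le_mul_left h1 (by positivity)
  apply final_arith n h hh (by omega) K (fun i hi hin => dvd_choose hb hc (by omega) hl i hi hin)
  rw [hC] at e4
  exact_mod_cast e4

end

end Pool.Agent.Bicomp
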