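import Pool.Agent.Bicomp.PkFinal
import Pool.Agent.Bicomp.NoOdd

namespace Pool.Agent.Bicomp

/-- Valley at index `i + 1`. -/
def vl (w : List ℤ) (i : ℕ) : Prop :=
  i + 2 < w.length ∧ w.getD (i + 1) 0 < w.getD i 0 ∧ w.getD (i + 1) 0 < w.getD (i + 2) 0

theorem getD_neg (w : List ℤ) (i : ℕ) : (w.map Neg.neg).getD i 0 = - w.getD i 0 := by
  by_cases h : i < w.length
  · rw [List.getD_eq_getElem _ _ h, List.getD_eq_getElem _ _ (by simpa using h)]
    simp
  · rw [List.getD_eq_default w _ (by omega),
      List.getD_eq_default (w.map Neg.neg) _ (by rw [List.length_map]; omega)]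
    simp

theorem pk_neg (w : List ℤ) (i : ℕ) : pk (w.map Neg.neg) i ↔ vl w i := by
  unfold pk vl
  rw [getD_neg, getD_neg, getD_neg, List.length_map, neg_lt_neg_iff, neg_lt_neg_iff]

theorem nodup_neg {w : List ℤ} (h : w.Nodup) : (w.map Neg.neg).Nodup :=
  h.map neg_injective

theorem sameOrd_neg {p s : List ℤ} (h : SameOrd p s) :
    SameOrd (p.map Neg.neg) (s.map Neg.neg) := by
  refine ⟨by simpa using h.1, ?_⟩
  intro i j hi hj
  rw [List.length_map] at hi hj
  rw [getD_neg, getD_neg, getD_neg, getD_neg, neg_lt_neg_iff, neg_lt_neg_iff]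
  exact h.2 j i hj hi

theorem neg_neg_map (w : List ℤ) : (w.map Neg.neg).map Neg.neg = w := by
  rw [List.map_map]
  simp

section

variable {α : Type*} {st : List ℤ → α}

theorem bi_neg (hb : Bi st) : Bi (fun w => st (w.map Neg.neg)) where
  inv := by
    intro p s hp hs h
    exact hb.inv _ _ (nodup_neg hp) (nodup_neg hs) (sameOrd_neg h)
  shf := by
    intro p s p' s' h1 h2 hpl hsl e1 e2
    have h1' : (p.map Neg.neg ++ s.map Neg.neg).Nodup := by
      rw [← List.map_append]; exact nodup_neg h1
    have h2' : (p'.map Neg.neg ++ s'.map Neg.neg).Nodup := by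
      rw [← List.map_append]; exact nodup_neg h2
    have := hb.shf _ _ _ _ h1' h2' (by simpa using hpl) (by simpa using hsl) e1 e2
    rw [shuf_map Neg.neg _ p s rfl, shuf_map Neg.neg _ p' s' rfl, List.map_map,
      List.map_map] at this
    exact this
  sub := by
    intro p s hp hs hl he i j
    have := hb.sub _ _ (nodup_neg hp) (nodup_neg hs) (by simpa using hl) he i j
    simpa only [List.map_take, List.map_drop] using this

theorem cst_neg {n : ℕ} (hc : Cst st n) : Cst (fun w => st (w.map Neg.neg)) n := by
  intro p s hp hs hl hn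
  exact hc _ _ (nodup_neg hp) (nodup_neg hs) (by simpa using hl) (by simpa using hn)

/-- Level three is the valley statistic. -/
def VlLevel (st : List ℤ → α) : Prop :=
  ∀ u u' : List ℤ, u.Nodup → u'.Nodup → u.length = 3 → u'.length = 3 →
    (st u = st u' ↔ (vl u 0 ↔ vl u' 0))

theorem vlLevel_neg (h : VlLevel st) : PkLevel (fun w => st (w.map Neg.neg)) := by
  intro u u' hu hu' hl hl'
  have := h _ _ (nodup_neg hu) (nodup_neg hu') (by simpa using hl) (by simpa using hl')
  rw [← pk_neg, ← pk_neg, neg_neg_map, neg_neg_map] at this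
  exact this

theorem vl_case (hb : Bi st) (hc : Cst st 3) (h3 : VlLevel st) (N : ℕ) (p s : List ℤ)
    (hp : p.Nodup) (hs : s.Nodup) (hpl : p.length = N) (hsl : s.length = N) :
    st p = st s ↔ ∀ i, vl p i ↔ vl s i := by
  have := pk_case (bi_neg hb) (cst_neg hc) (vlLevel_neg h3) N (p.map Neg.neg) (s.map Neg.neg)
    (nodup_neg hp) (nodup_neg hs) (by simpa using hpl) (by simpa using hsl)
  simp only [neg_neg_map, pk_neg] at this
  exact this

theorem sameOrd3 (a b c x y z : ℤ) (h1 : a < b ↔ x < y) (h2 : b < c ↔ y < z)
    (h3 : a < c ↔ x < z) (h1' : b < a ↔ y < x) (h2' : c < b ↔ z < y) (h3' : c < a ↔ z < x) :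
    SameOrd [a, b, c] [x, y, z] := by
  refine ⟨rfl, ?_⟩
  intro i j hi hj
  simp only [List.length_cons, List.length_nil] at hi hj
  interval_cases i <;> interval_cases j <;> simp [*]

theorem st_rev3 (hb : Bi st) (hc : Cst st 3) (w : List ℤ) (hw : w.Nodup) (hl : w.length = 3) :
    st w.reverse = st w :=
  (ind_inj (rev_odd hb hc (by decide) (meas_of_st (fun v => v = st w)) w hw hl)).2 rfl

theorem level3 (hb : Bi st) (hc : Cst st 3) (hnc : NonCst st 3) : PkLevel st ∨ VlLevel st := by
  have h210 : st [2, 1, 0] = st [0, 1, 2] := st_rev3 hb hc [0, 1, 2] (by simp) rfl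
  have h120 : st [1, 2, 0] = st [0, 2, 1] := st_rev3 hb hc [0, 2, 1] (by simp) rfl
  have h201 : st [2, 0, 1] = st [1, 0, 2] := st_rev3 hb hc [1, 0, 2] (by simp) rfl
  have hline := odd_line hb hc (by decide) (by omega) hnc
  have hinc : inc 3 = [0, 1, 2] := rfl
  have hinc2 : inc (3 - 1) = [0, 1] := rfl
  have e0 : st [-1, 0, 1] = st [0, 1, 2] := by
    apply hb.inv _ _ (by simp) (by simp)
    apply sameOrd3 <;> omega
  have e1 : st [0, -1, 1] = st [1, 0, 2] := by
    apply hb.inv _ _ (by simp) (by simp)
    apply sameOrd3 <;> omega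
  have e2 : st [0, 1, -1] = st [1, 2, 0] := by
    apply hb.inv _ _ (by simp) (by simp)
    apply sameOrd3 <;> omega
  unfold lc at hline
  rw [hinc, hinc2, S_single] at hline
  simp only [List.length_cons, List.length_nil, Finset.sum_range_succ, Finset.sum_range_zero,
    List.take, List.drop, List.nil_append, List.cons_append, e0, e1, e2, h120] at hline
  rw [ind_false (by simp)] at hline
  have hst : ∀ w : List ℤ, w.Nodup → w.length = 3 →
      (st w = st [0, 1, 2] ∧ ¬ pk w 0 ∧ ¬ vl w 0) ∨ (st w = st [0, 2, 1] ∧ pk w 0 ∧ ¬ vl w 0) ∨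
      (st w = st [1, 0, 2] ∧ ¬ pk w 0 ∧ vl w 0) := by
    intro w hw hl
    match w, hl with
    | [a, b, c], _ =>
      have hpk : pk [a, b, c] 0 ↔ a < b ∧ c < b := by simp [pk]
      have hvl : vl [a, b, c] 0 ↔ b < a ∧ b < c := by simp [vl]
      rw [hpk, hvl]
      have hab : a ≠ b := by rintro rfl; simp at hw
      have hac : a ≠ c := by rintro rfl; simp at hw
      have hbc : b ≠ c := by rintro rfl; simp at hw
      rcases lt_or_gt_of_ne hab with h1 | h1
      · rcases lt_or_gt_of_ne hbc with h2 | h2
        · left
          refine ⟨?_, by omega, by omega⟩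
          apply hb.inv _ _ hw (by simp)
          apply sameOrd3 <;> omega
        · right; left
          refine ⟨?_, by omega, by omega⟩
          rcases lt_or_gt_of_ne hac with h3 | h3
          · apply hb.inv _ _ hw (by simp)
            apply sameOrd3 <;> omega
          · rw [← h120]
            apply hb.inv _ _ hw (by simp)
            apply sameOrd3 <;> omega
      · rcases lt_or_gt_of_ne hbc with h2 | h2
        · right; right
          refine ⟨?_, by omega, by omega⟩
          rcases lt_or_gt_of_ne hac with h3 | h3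
          · apply hb.inv _ _ hw (by simp)
            apply sameOrd3 <;> omega
          · rw [← h201]
            apply hb.inv _ _ hw (by simp)
            apply sameOrd3 <;> omega
        · left
          refine ⟨?_, by omega, by omega⟩
          rw [← h210]
          apply hb.inv _ _ hw (by simp)
          apply sameOrd3 <;> omega
  by_cases h1 : st [1, 0, 2] = st [0, 1, 2]
  · left
    have h2 : ¬ st [0, 2, 1] = st [0, 1, 2] := by
      intro h2
      rw [ind_false (by simpa using h1), ind_false (by simpa using h2)] at hline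
      norm_num at hline
    intro u u' hu hu' hl hl'
    rcases hst u hu hl with ⟨a1, a2, a3⟩ | ⟨a1, a2, a3⟩ | ⟨a1, a2, a3⟩ <;>
    rcases hst u' hu' hl' with ⟨b1, b2, b3⟩ | ⟨b1, b2, b3⟩ | ⟨b1, b2, b3⟩ <;>
    simp [a1, a2, b1, b2, h1, h2, Ne.symm h2]
  · right
    have h2 : st [0, 2, 1] = st [0, 1, 2] := by
      by_contra h2
      rw [ind_true h1, ind_true h2] at hline
      norm_num at hline
    intro u u' hu hu' hl hl'
    rcases hst u hu hl with ⟨a1, a2, a3⟩ | ⟨a1, a2, a3⟩ | ⟨a1, a2, a3⟩ <;>
    rcases hst u' hu' hl' with ⟨b1, b2, b3⟩ | ⟨b1, b2, b3⟩ | ⟨b1, b2, b3⟩ <;>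
    simp [a1, a3, b1, b3, h1, h2, Ne.symm h1]

theorem cst_of_not {n : ℕ} (h : ∀ m < n, ¬ NonCst st m) : Cst st n := by
  intro p s hp hs hl hn
  have h1 : st p = st (inc p.length) := by
    by_contra h1
    exact h _ hn ⟨p, hp, rfl, h1⟩
  have h2 : st s = st (inc p.length) := by
    by_contra h2
    exact h _ hn ⟨s, hs, hl.symm, h2⟩
  rw [h1, h2]

/-- Classification on words of integers. -/
theorem classify (hb : Bi st) :
    (∀ p s : List ℤ, p.Nodup → s.Nodup → p.length = s.length → st p = st s) ∨
    (∀ p s : List ℤ, p.Nodup → s.Nodup → p.length = s.length →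
      (st p = st s ↔ ∀ i, des p i ↔ des s i)) ∨
    (∀ p s : List ℤ, p.Nodup → s.Nodup → p.length = s.length →
      (st p = st s ↔ ∀ i, pk p i ↔ pk s i)) ∨
    (∀ p s : List ℤ, p.Nodup → s.Nodup → p.length = s.length →
      (st p = st s ↔ ∀ i, vl p i ↔ vl s i)) := by
  classical
  by_cases hex : ∃ n, NonCst st n
  · right
    have h1 := Nat.find_spec hex
    have hc : Cst st (Nat.find hex) := cst_of_not (fun m hm => Nat.find_min hex hm)
    set n := Nat.find hex with hn
    clear_value n
    have hn0 : n ≠ 0 := by
      rintro rfl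
      obtain ⟨w, hw, hl, hne⟩ := h1
      rw [List.length_eq_zero_iff.1 hl] at hne
      exact hne rfl
    have hn1 : n ≠ 1 := by
      rintro rfl
      obtain ⟨w, hw, hl, hne⟩ := h1
      match w, hl with
      | [a], _ => exact hne (st_single hb a 0)
    by_cases hn2 : n = 2
    · left
      subst hn2
      have hne : st [1, 0] ≠ st [0, 1] := by
        intro h
        obtain ⟨w, hw, hl, hne⟩ := h1
        match w, hl with
        | [a, b], _ =>
          apply hne
          have hab : a ≠ b := by rintro rfl; simp at hw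
          have hinc : inc 2 = [0, 1] := rfl
          rw [hinc]
          rcases lt_or_gt_of_ne hab with h' | h'
          · apply hb.inv _ _ hw (by simp)
            refine ⟨rfl, ?_⟩
            intro i j hi hj
            simp only [List.length_cons, List.length_nil] at hi hj
            interval_cases i <;> interval_cases j <;> simp [h', h'.le]
          · rw [← h]
            apply hb.inv _ _ hw (by simp)
            refine ⟨rfl, ?_⟩
            intro i j hi hj
            simp only [List.length_cons, List.length_nil] at hi hj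
            interval_cases i <;> interval_cases j <;> simp [h', h'.le]
      intro p s hp hs hl
      exact des_case hb hne p.length p s hp hs rfl hl.symm
    · right
      by_cases hn3 : n = 3
      · subst hn3
        rcases level3 hb hc h1 with h3 | h3
        · left
          intro p s hp hs hl
          exact pk_case hb hc h3 p.length p s hp hs rfl hl.symm
        · right
          intro p s hp hs hl
          exact vl_case hb hc h3 p.length p s hp hs rfl hl.symm
      · exfalso
        rcases Nat.even_or_odd n with he | ho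
        · exact no_even hb hc he (by omega) h1
        · refine no_odd hb hc ho ?_ h1
          obtain ⟨k, hk⟩ := ho
          omega
  · left
    intro p s hp hs hl
    have h : Cst st (p.length + 1) := cst_of_not (fun m _ h => hex ⟨m, h⟩)
    exact h p s hp hs hl (by omega)

end

end Pool.Agent.Bicomp
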