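import Pool.Agent.Bicomp.Parity

namespace Pool.Agent.Bicomp

section

variable {α : Type*} {st : List ℤ → α}

/-- The window functions used for odd `n`. -/
noncomputable def Fo (st : List ℤ → α) (n l : ℕ) : List ℤ → ℚ := fun w =>
  2 * ind (∀ i < l + 1, st ((w.drop i).take n) = st (inc n))

theorem meas_Fo (hb : Bi st) (n l : ℕ) : Meas st (n + l) (Fo st n l) := by
  intro p s hp hs hpl hsl h
  have e : ∀ i, st ((p.drop i).take n) = st ((s.drop i).take n) := by
    intro i
    exact hb.sub p s hp hs (by omega) h i n
  simp only [Fo, e]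

theorem Fo_rev (n l : ℕ)
    (hrev : ∀ w : List ℤ, w.Nodup → w.length = n →
      (st w.reverse = st (inc n) ↔ st w = st (inc n))) (w : List ℤ) (hw : w.Nodup)
    (hl : w.length = n + l) : Fo st n l w.reverse = Fo st n l w := by
  have hwin : ∀ i < l + 1, (st ((w.reverse.drop i).take n) = st (inc n) ↔
      st ((w.drop (l - i)).take n) = st (inc n)) := by
    intro i hi
    rw [window_reverse n (l + 1) i w (by omega) hi]
    simp only [Nat.add_sub_cancel]
    apply hrev
    · exact hw.sublist ((List.take_sublist _ _).trans (List.drop_sublist _ _))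
    · simp; omega
  simp only [Fo]
  congr 1
  apply ind_congr
  constructor
  · intro h i hi
    have := (hwin (l - i) (by omega)).1 (h (l - i) (by omega))
    rwa [show l - (l - i) = i by omega] at this
  · intro h i hi
    exact (hwin i hi).2 (h (l - i) (by omega))

theorem at_most_one (hb : Bi st) {n : ℕ} (hc : Cst st n) (hn : Odd n) (hn3 : 3 ≤ n)
    (p q : ℕ) (hpq : p < q) (hqn : q < n)
    (hp : ¬ st (wd (W1 (2 * n)) (2 * n - p) n) = st (inc n))
    (hq : ¬ st (wd (W1 (2 * n)) (2 * n - q) n) = st (inc n)) : False := by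
  obtain ⟨l, hl⟩ : ∃ l, n = l + 2 := ⟨n - 2, by omega⟩
  have hrev := A_rev_odd hb hc hn
  have hm : n + l - 1 + 1 = n + l := by omega
  have hsgn : ((-1 : ℚ)) ^ (n + l) = 1 := by
    have : Even (n + l) := by
      rw [hl]; exact ⟨l + 1, by ring⟩
    exact this.neg_one_pow
  obtain ⟨θ, hθ, -, hsum⟩ := window_sum hb hc (m := n + l - 1) (by omega) (F := Fo st n l)
    (by rw [hm]; exact meas_Fo hb n l)
    (by
      intro w hw hwl
      rw [hm] at hwl ⊢
      rw [Fo_rev n l hrev w hw hwl, hsgn, one_mul])
  set m := n + l - 1 with hmdef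
  have hF0 : ∀ w : List ℤ, (∃ i < l + 1, ¬ st ((w.drop i).take n) = st (inc n)) →
      Fo st n l w = 0 := by
    rintro w ⟨i, hi, h⟩
    unfold Fo
    rw [ind_false, mul_zero]
    intro h2
    exact h (h2 i hi)
  -- odd integer values
  have hodd : ∀ w : List ℤ, w.Nodup → w.length = m → ∃ z : ℤ, θ w = 2 * z + 1 := by
    apply path_ind
    · intro f hf
      have hnd : (wd f 0 m).Nodup := by
        apply nodup_wd'
        intro i hi j hj h
        rw [zero_add, zero_add] at h
        by_contra hne
        rcases lt_or_gt_of_ne hne with h' | h'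
        · have := hf i j h' hj; omega
        · have := hf j i h' hi; omega
      have hmono : ∀ i < m, ∀ j < m, (f (0 + i) < f (0 + j) ↔ i < j) := by
        intro i hi j hj
        rw [zero_add, zero_add]
        constructor
        · intro h
          by_contra hcon
          rcases lt_or_eq_of_le (not_lt.1 hcon) with h' | h'
          · exact absurd (hf j i h' hi) (not_lt.2 h.le)
          · subst h'; exact lt_irrefl _ h
        · intro h; exact hf i j h hj
      have e0 : ∀ k, θ (wd (fun i => (i : ℤ)) k m) = θ (wd f 0 m) := by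
        intro k
        refine (hθ _ _ hnd (nodup_wd natCast_inj _ _) (by simp) (by simp) ?_).symm
        apply st_wd_eq hb hnd
        intro i hi j hj
        rw [hmono i hi j hj]
        omega
      have h1 := hsum (wd (fun i => (i : ℤ)) 0 (m + 1)) (nodup_wd natCast_inj _ _) (by simp)
      rw [wd_dropLast, wd_tail, e0, e0] at h1
      have h2 : Fo st n l (wd (fun i => (i : ℤ)) 0 (m + 1)) = 2 := by
        unfold Fo
        rw [ind_true, mul_one]
        intro i hi
        rw [wd_drop_take _ _ _ _ _ (by omega)]
        apply st_wd_eq hb (nodup_wd natCast_inj _ _)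
        intro i hi j hj
        omega
      refine ⟨0, ?_⟩
      rw [h2] at h1
      push_cast
      linarith
    · rintro t ht htl ⟨z, hz⟩
      have h1 := hsum t ht htl
      by_cases h : ∀ i < l + 1, st ((t.drop i).take n) = st (inc n)
      · have h2 : Fo st n l t = 2 := by
          unfold Fo
          rw [ind_true h, mul_one]
        refine ⟨-z, ?_⟩
        rw [h2, hz] at h1
        push_cast
        linarith
      · have h2 : Fo st n l t = 0 := by
          unfold Fo
          rw [ind_false h, mul_zero]
        refine ⟨-z - 1, ?_⟩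
        rw [h2, hz] at h1
        push_cast
        linarith
  have hW1 : Function.Injective (W1 (2 * n)) := W1_inj _
  have hW2 : Function.Injective (W2 (2 * n) n) := W2_inj _ _
  let t1 : ℕ → ℚ := fun k => θ (wd (W1 (2 * n)) k m)
  let t2 : ℕ → ℚ := fun k => θ (wd (W2 (2 * n) n) k m)
  have hF1 : ∀ k, Fo st n l (wd (W1 (2 * n)) k (m + 1)) = t1 k + t1 (k + 1) := by
    intro k
    have := hsum (wd (W1 (2 * n)) k (m + 1)) (nodup_wd hW1 _ _) (by simp)
    rw [wd_dropLast, wd_tail] at this
    exact this
  have hF2 : ∀ k, Fo st n l (wd (W2 (2 * n) n) k (m + 1)) = t2 k + t2 (k + 1) := by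
    intro k
    have := hsum (wd (W2 (2 * n) n) k (m + 1)) (nodup_wd hW2 _ _) (by simp)
    rw [wd_dropLast, wd_tail] at this
    exact this
  have hzero : ∀ (W : ℕ → ℤ) (k j : ℕ), k ≤ j → j ≤ k + l → ¬ st (wd W j n) = st (inc n) →
      Fo st n l (wd W k (m + 1)) = 0 := by
    intro W k j h1 h2 h3
    apply hF0
    refine ⟨j - k, by omega, ?_⟩
    rw [wd_drop_take _ _ _ _ _ (by omega), show k + (j - k) = j by omega]
    exact h3
  -- bad windows in the double burst
  have hl2 : ∀ x < n, ¬ st (wd (W1 (2 * n)) (2 * n - x) n) = st (inc n) →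
      ¬ st (wd (W2 (2 * n) n) (2 * n - x) n) = st (inc n) := by
    intro x hx h h2
    apply h
    rw [← h2]
    apply st_wd_eq hb (nodup_wd hW1 _ _)
    intro i hi j hj
    simp only [W1, W2]
    split_ifs <;> omega
  have hr2 : ∀ x < n, ¬ st (wd (W1 (2 * n)) (2 * n - x) n) = st (inc n) →
      ¬ st (wd (W2 (2 * n) n) (2 * n + n - x) n) = st (inc n) := by
    intro x hx h h2
    apply h
    rw [← h2]
    apply st_wd_eq hb (nodup_wd hW1 _ _)
    intro i hi j hj
    simp only [W1, W2]
    split_ifs <;> omega
  have hp1 := hl2 p (by omega) hp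
  have hq1 := hl2 q hqn hq
  have hp2 := hr2 p (by omega) hp
  have hq2 := hr2 q hqn hq
  -- start of the runs
  obtain ⟨a, ha⟩ : ∃ a, a = 2 * n - q - l := ⟨_, rfl⟩
  have r1 := run_zero hF1 a (q - p + l + 1) (by
    intro k hk1 hk2
    by_cases h : k ≤ 2 * n - q
    · exact hzero _ k (2 * n - q) h (by omega) hq
    · exact hzero _ k (2 * n - p) (by omega) (by omega) hp)
  have r2 := run_zero hF2 a (q - p + l + 1 + n) (by
    intro k hk1 hk2
    by_cases h : k ≤ 2 * n - q
    · exact hzero _ k (2 * n - q) h (by omega) hq1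
    · by_cases h' : k ≤ 2 * n - p
      · exact hzero _ k (2 * n - p) h' (by omega) hp1
      · by_cases h'' : k ≤ 2 * n + n - q
        · exact hzero _ k (2 * n + n - q) h'' (by omega) hq2
        · exact hzero _ k (2 * n + n - p) (by omega) (by omega) hp2)
  have e1 : t2 a = t1 a := by
    apply hθ _ _ (nodup_wd hW2 _ _) (nodup_wd hW1 _ _) (by simp) (by simp)
    apply st_wd_eq hb (nodup_wd hW2 _ _)
    intro i hi j hj
    simp only [W1, W2]
    split_ifs <;> omega
  have e2 : t2 (a + (q - p + l + 1 + n)) = t1 (a + (q - p + l + 1)) := by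
    apply hθ _ _ (nodup_wd hW2 _ _) (nodup_wd hW1 _ _) (by simp) (by simp)
    apply st_wd_eq hb (nodup_wd hW2 _ _)
    intro i hi j hj
    simp only [W1, W2]
    split_ifs <;> omega
  rw [e1, e2, r1, pow_add _ _ n, hn.neg_one_pow] at r2
  obtain ⟨z, hz⟩ := hodd (wd (W1 (2 * n)) a m) (nodup_wd hW1 _ _) (by simp)
  have hz' : t1 a = 2 * z + 1 := hz
  have h0 : ((-1 : ℚ)) ^ (q - p + l + 1) * t1 a = 0 := by linarith
  rcases mul_eq_zero.1 h0 with h | h
  · exact absurd h (pow_ne_zero _ (by norm_num))
  · rw [hz'] at h
    have : 2 * z + 1 = 0 := by exact_mod_cast h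
    omega

/-- For odd `n` each line meets the complement of the main class exactly once. -/
theorem odd_line (hb : Bi st) {n : ℕ} (hc : Cst st n) (hn : Odd n) (hn3 : 3 ≤ n)
    (hnc : NonCst st n) : lc n (fun w => ind (¬ st w = st (inc n))) = 1 := by
  classical
  have hF : Meas st n (fun w => ind (¬ st w = st (inc n))) :=
    meas_of_st (fun v => ¬ v = st (inc n))
  have h01 : ∀ w, 0 ≤ ind (¬ st w = st (inc n)) := by
    intro w; unfold ind; split_ifs <;> norm_num
  apply le_antisymm
  · rw [lc_eq_sum hb (by omega) hF (2 * n) (by omega)]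
    have h1 : ∑ q ∈ Finset.range n, ind (¬ st (wd (W1 (2 * n)) (2 * n - q) n) = st (inc n)) =
        (((Finset.range n).filter
          (fun q => ¬ st (wd (W1 (2 * n)) (2 * n - q) n) = st (inc n))).card : ℚ) := by
      rw [Finset.card_filter]
      push_cast
      apply Finset.sum_congr rfl
      intro q _
      unfold ind
      split_ifs <;> rfl
    rw [h1]
    have h2 : ((Finset.range n).filter
          (fun q => ¬ st (wd (W1 (2 * n)) (2 * n - q) n) = st (inc n))).card ≤ 1 := by
      rw [Finset.card_le_one]
      intro x hx y hy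
      rw [Finset.mem_filter, Finset.mem_range] at hx hy
      by_contra hne
      rcases lt_or_gt_of_ne hne with h | h
      · exact at_most_one hb hc hn hn3 x y h hy.1 hx.2 hy.2
      · exact at_most_one hb hc hn hn3 y x h hx.1 hy.2 hx.2
    exact_mod_cast h2
  · obtain ⟨w, hw, hl, hne⟩ := hnc
    cases w with
    | nil => simp at hl; omega
    | cons a s =>
      rw [← line_const hb hc (by omega) hF a s hw (by simpa using hl), S_single]
      have h1 : ind (¬ st (a :: s) = st (inc n)) ≤
          ∑ q ∈ Finset.range (s.length + 1),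
            ind (¬ st (s.take q ++ a :: s.drop q) = st (inc n)) := by
        have := Finset.single_le_sum (s := Finset.range (s.length + 1))
          (f := fun q => ind (¬ st (s.take q ++ a :: s.drop q) = st (inc n)))
          (fun q _ => h01 _) (Finset.mem_range.2 (Nat.succ_pos _))
        simpa using this
      rw [ind_true hne] at h1
      exact h1

end

end Pool.Agent.Bicomp
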