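import Pool.Agent.Bicomp.Level

namespace Pool.Agent.Bicomp

section

variable {α : Type*} {st : List ℤ → α}

/-- `st` is not constant on words of length `n`. -/
def NonCst (st : List ℤ → α) (n : ℕ) : Prop :=
  ∃ w : List ℤ, w.Nodup ∧ w.length = n ∧ st w ≠ st (inc n)

theorem ind_inj {P Q : Prop} (h : ind P = ind Q) : P ↔ Q := by
  by_cases hP : P <;> by_cases hQ : Q <;> simp [ind, hP, hQ] at h ⊢

theorem rev_odd (hb : Bi st) {n : ℕ} (hc : Cst st n) (hn : Odd n) {F : List ℤ → ℚ}
    (hF : Meas st n F) (w : List ℤ) (hw : w.Nodup) (hl : w.length = n) :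
    F w.reverse = F w := by
  obtain ⟨k, rfl⟩ := hn
  have h := level_rev hb hc (by omega) hF w hw hl
  simp only [Nat.add_sub_cancel, pow_mul] at h
  norm_num at h
  exact h

theorem A_rev_odd (hb : Bi st) {n : ℕ} (hc : Cst st n) (hn : Odd n)
    (w : List ℤ) (hw : w.Nodup) (hl : w.length = n) :
    st w.reverse = st (inc n) ↔ st w = st (inc n) :=
  ind_inj (rev_odd hb hc hn (meas_of_st (fun v => v = st (inc n))) w hw hl)

theorem even_level (hb : Bi st) {n : ℕ} (hc : Cst st n) (hn : Even n) (hn1 : 1 ≤ n)
    (hnc : NonCst st n) :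
    lc n (fun w => ind (st w = st (inc n))) = n / 2 ∧
    ∀ w : List ℤ, w.Nodup → w.length = n →
      (st w.reverse = st (inc n) ↔ ¬ st w = st (inc n)) := by
  have hodd : Odd (n - 1) := Nat.Even.sub_odd hn1 hn odd_one
  set F : List ℤ → ℚ := fun w => ind (st w = st (inc n)) with hFdef
  have hF : Meas st n F := meas_of_st (fun v => v = st (inc n))
  set r : ℚ := lc n F / n with hr
  have key : ∀ w : List ℤ, w.Nodup → w.length = n → F w.reverse + F w = 2 * r := by
    intro w hw hl
    have h := level_rev hb hc hn1 hF w hw hl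
    rw [hodd.neg_one_pow] at h
    linarith
  have h01 : ∀ w, F w = 0 ∨ F w = 1 := by
    intro w
    simp only [F, ind]
    split_ifs <;> simp
  have hinc : F (inc n) = 1 := ind_true rfl
  have hr2 : 2 * r = 1 := by
    have h1 := key (inc n) (nodup_inc n) (length_inc n)
    rcases h01 (inc n).reverse with h2 | h2
    · rw [h2, hinc] at h1; linarith
    · exfalso
      obtain ⟨w, hw, hl, hne⟩ := hnc
      have h3 := key w hw hl
      have h4 : F w = 0 := ind_false hne
      rcases h01 w.reverse with h5 | h5 <;> rw [h4, h5] at h3 <;> rw [h2, hinc] at h1 <;> linarith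
  constructor
  · have hn0 : (n : ℚ) ≠ 0 := by positivity
    rw [hr] at hr2
    field_simp at hr2
    linarith
  · intro w hw hl
    have h1 := key w hw hl
    rw [hr2] at h1
    constructor
    · intro h2 h3
      have e1 : F w.reverse = 1 := ind_true h2
      have e2 : F w = 1 := ind_true h3
      rw [e1, e2] at h1
      norm_num at h1
    · intro h2
      by_contra h3
      have e1 : F w.reverse = 0 := ind_false h3
      have e2 : F w = 0 := ind_false h2
      rw [e1, e2] at h1
      norm_num at h1

theorem X_left (hb : Bi st) {P n k : ℕ} (h : k + n ≤ P) :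
    st (wd (W1 P) k n) = st (inc n) := by
  apply st_wd_eq hb (nodup_wd (W1_inj P) _ _)
  intro i hi j hj
  simp only [W1]
  rw [if_neg (by omega), if_neg (by omega)]
  omega

theorem X_right (hb : Bi st) {P n k : ℕ} (h : P ≤ k) :
    st (wd (W1 P) k n) = st (inc n) := by
  apply st_wd_eq hb (nodup_wd (W1_inj P) _ _)
  intro i hi j hj
  simp only [W1]
  split_ifs <;> omega

/-- The window functions used for even `n`. -/
noncomputable def Fe (st : List ℤ → α) (n l : ℕ) : List ℤ → ℚ := fun w =>
  2 * (ind (∀ i < l + 1, st ((w.drop i).take n) = st (inc n)) +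
    (-1) ^ l * ind (∀ i < l + 1, ¬ st ((w.drop i).take n) = st (inc n)))

theorem meas_Fe (hb : Bi st) (n l : ℕ) : Meas st (n + l) (Fe st n l) := by
  intro p s hp hs hpl hsl h
  have e : ∀ i, st ((p.drop i).take n) = st ((s.drop i).take n) := by
    intro i
    exact hb.sub p s hp hs (by omega) h i n
  simp only [Fe, e]

theorem Fe_rev (n l : ℕ)
    (hrev : ∀ w : List ℤ, w.Nodup → w.length = n →
      (st w.reverse = st (inc n) ↔ ¬ st w = st (inc n))) (w : List ℤ) (hw : w.Nodup)
    (hl : w.length = n + l) : Fe st n l w.reverse = (-1) ^ l * Fe st n l w := by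
  have hwin : ∀ i < l + 1, (st ((w.reverse.drop i).take n) = st (inc n) ↔
      ¬ st ((w.drop (l - i)).take n) = st (inc n)) := by
    intro i hi
    rw [window_reverse n (l + 1) i w (by omega) hi]
    simp only [Nat.add_sub_cancel]
    apply hrev
    · exact hw.sublist ((List.take_sublist _ _).trans (List.drop_sublist _ _))
    · simp; omega
  have e1 : (∀ i < l + 1, st ((w.reverse.drop i).take n) = st (inc n)) ↔
      (∀ i < l + 1, ¬ st ((w.drop i).take n) = st (inc n)) := by
    constructor
    · intro h i hi
      have := (hwin (l - i) (by omega)).1 (h (l - i) (by omega))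
      rwa [show l - (l - i) = i by omega] at this
    · intro h i hi
      exact (hwin i hi).2 (h (l - i) (by omega))
  have e2 : (∀ i < l + 1, ¬ st ((w.reverse.drop i).take n) = st (inc n)) ↔
      (∀ i < l + 1, st ((w.drop i).take n) = st (inc n)) := by
    constructor
    · intro h i hi
      by_contra hcon
      apply h (l - i) (by omega)
      rw [hwin (l - i) (by omega), show l - (l - i) = i by omega]
      exact hcon
    · intro h i hi hcon
      exact (hwin i hi).1 hcon (h (l - i) (by omega))
  simp only [Fe]
  rw [ind_congr e1, ind_congr e2]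
  have : ((-1 : ℚ)) ^ l * (-1) ^ l = 1 := by
    rw [← mul_pow]; simp
  linear_combination (-2 * ind (∀ i < l + 1, ¬ st ((w.drop i).take n) = st (inc n))) * this

/-- Parity of the spread, even case. -/
theorem even_parity (hb : Bi st) {n l : ℕ} (hc : Cst st n) (hn : Even n)
    (hn4 : 4 ≤ n) (hl1 : n ≤ l + 2) (hl2 : l + 1 ≤ n)
    (hrev : ∀ w : List ℤ, w.Nodup → w.length = n →
      (st w.reverse = st (inc n) ↔ ¬ st w = st (inc n)))
    (a b : ℕ) (hab : a ≤ b) (hbn : b < n)
    (ha : ¬ st (wd (W1 (2 * n)) (2 * n - a) n) = st (inc n))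
    (hb' : ¬ st (wd (W1 (2 * n)) (2 * n - b) n) = st (inc n))
    (hout : ∀ q < n, ¬ st (wd (W1 (2 * n)) (2 * n - q) n) = st (inc n) → a ≤ q ∧ q ≤ b)
    (hcard : ∀ s : Finset ℕ, (∀ q ∈ s, q < n ∧
      ¬ st (wd (W1 (2 * n)) (2 * n - q) n) = st (inc n)) → s.card ≤ n / 2) :
    Even (b - a + l + 1) := by
  set W := W1 (2 * n) with hW
  have hWi : Function.Injective W := W1_inj _
  have hm : n + l - 1 + 1 = n + l := by omega
  obtain ⟨θ, hθ, -, hsum⟩ := window_sum hb hc (m := n + l - 1) (by omega) (F := Fe st n l)
    (by rw [hm]; exact meas_Fe hb n l)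
    (by
      intro w hw hwl
      rw [hm] at hwl ⊢
      rw [Fe_rev n l hrev w hw hwl, pow_add, hn.neg_one_pow, one_mul])
  set m := n + l - 1 with hmdef
  let t : ℕ → ℚ := fun k => θ (wd W k m)
  let F : ℕ → ℚ := fun k => Fe st n l (wd W k (m + 1))
  have hF : ∀ k, F k = t k + t (k + 1) := by
    intro k
    have := hsum (wd W k (m + 1)) (nodup_wd hWi _ _) (by simp)
    rw [wd_dropLast, wd_tail] at this
    exact this
  have hFval : ∀ k, F k = 2 * (ind (∀ i < l + 1, st (wd W (k + i) n) = st (inc n)) +
      (-1) ^ l * ind (∀ i < l + 1, ¬ st (wd W (k + i) n) = st (inc n))) := by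
    intro k
    have e : ∀ i < l + 1, ((wd W k (m + 1)).drop i).take n = wd W (k + i) n := by
      intro i hi
      apply wd_drop_take
      omega
    simp only [F, Fe]
    congr 2
    · apply ind_congr
      constructor
      · intro h i hi; rw [← e i hi]; exact h i hi
      · intro h i hi; rw [e i hi]; exact h i hi
    · congr 1
      apply ind_congr
      constructor
      · intro h i hi; rw [← e i hi]; exact h i hi
      · intro h i hi; rw [e i hi]; exact h i hi
  have hF2 : ∀ k, (∀ i < l + 1, st (wd W (k + i) n) = st (inc n)) → F k = 2 := by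
    intro k hk
    rw [hFval, ind_true hk, ind_false]
    · ring
    · intro h
      exact h 0 (by omega) (hk 0 (by omega))
  have hF0 : ∀ k, (∃ i < l + 1, st (wd W (k + i) n) = st (inc n)) →
      (∃ i < l + 1, ¬ st (wd W (k + i) n) = st (inc n)) → F k = 0 := by
    rintro k ⟨i, hi, h1⟩ ⟨j, hj, h2⟩
    rw [hFval, ind_false, ind_false]
    · ring
    · intro h; exact h i hi h1
    · intro h; exact h2 (h j hj)
  have hXgood : ∀ k, (k < 2 * n - b ∨ 2 * n - a < k) → st (wd W k n) = st (inc n) := by
    intro k hk
    by_contra hcon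
    have h1 : ¬ k + n ≤ 2 * n := fun h => hcon (X_left hb h)
    have h2 : ¬ 2 * n ≤ k := fun h => hcon (X_right hb h)
    have h3 := hout (2 * n - k) (by omega) (by
      rw [show 2 * n - (2 * n - k) = k by omega]; exact hcon)
    omega
  -- the value at the left end
  have ht0 : t 0 = 1 := by
    have h1 : F 0 = 2 := by
      apply hF2
      intro i hi
      exact X_left hb (by omega)
    have h2 : t (0 + 1) = t 0 := by
      apply hθ _ _ (nodup_wd hWi _ _) (nodup_wd hWi _ _) (by simp) (by simp)
      apply st_wd_eq hb (nodup_wd hWi _ _)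
      intro i hi j hj
      simp only [hW, W1]
      rw [if_neg (by omega), if_neg (by omega), if_neg (by omega), if_neg (by omega)]
      omega
    have h3 := hF 0
    rw [h1, h2] at h3
    linarith
  have htK : t (2 * n + 1) = 1 := by
    have h1 : F (2 * n + 1) = 2 := by
      apply hF2
      intro i hi
      exact X_right hb (by omega)
    have h2 : t (2 * n + 1 + 1) = t (2 * n + 1) := by
      apply hθ _ _ (nodup_wd hWi _ _) (nodup_wd hWi _ _) (by simp) (by simp)
      apply st_wd_eq hb (nodup_wd hWi _ _)
      intro i hi j hj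
      simp only [hW, W1]
      rw [if_neg (by omega), if_neg (by omega), if_neg (by omega), if_neg (by omega)]
      omega
    have h3 := hF (2 * n + 1)
    rw [h1, h2] at h3
    linarith
  -- left stretch
  have hleft : t (2 * n - b - l) = 1 := by
    have := run_two hF 0 ht0 (2 * n - b - l) (by
      intro k _ hk
      apply hF2
      intro i hi
      apply hXgood
      left; omega)
    simpa using this
  -- right stretch
  have hright : t (2 * n - a + 1) = 1 := by
    apply run_two_back hF (2 * n - a + 1) a
    · rw [show 2 * n - a + 1 + a = 2 * n + 1 by omega]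
      exact htK
    · intro k hk1 hk2
      apply hF2
      intro i hi
      apply hXgood
      right; omega
  -- the middle
  have hmid := run_zero hF (2 * n - b - l) (b - a + l + 1) (by
    intro k hk1 hk2
    apply hF0
    · -- some good window
      by_contra hcon
      push Not at hcon
      have hbad : ∀ i < l + 1, 2 * n - (k + i) < n ∧ k + i < 2 * n := by
        intro i hi
        have h1 := hcon i hi
        have h2 : ¬ k + i + n ≤ 2 * n := fun h => h1 (X_left hb h)
        have h3 : ¬ 2 * n ≤ k + i := fun h => h1 (X_right hb h)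
        omega
      have := hcard ((Finset.range (l + 1)).image (fun i => 2 * n - (k + i))) (by
        intro q hq
        rw [Finset.mem_image] at hq
        obtain ⟨i, hi, rfl⟩ := hq
        rw [Finset.mem_range] at hi
        refine ⟨(hbad i hi).1, ?_⟩
        have := (hbad i hi).2
        rw [show 2 * n - (2 * n - (k + i)) = k + i by omega]
        exact hcon i hi)
      rw [Finset.card_image_of_injOn, Finset.card_range] at this
      · omega
      · intro i hi j hj hij
        simp only [Finset.coe_range, Set.mem_Iio] at hi hj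
        have h1 := (hbad i hi).2
        have h2 := (hbad j hj).2
        simp only at hij
        omega
    · by_cases h : k ≤ 2 * n - b
      · refine ⟨2 * n - b - k, by omega, ?_⟩
        rw [show k + (2 * n - b - k) = 2 * n - b by omega]
        exact hb'
      · refine ⟨2 * n - a - k, by omega, ?_⟩
        rw [show k + (2 * n - a - k) = 2 * n - a by omega]
        exact ha)
  rw [show 2 * n - b - l + (b - a + l + 1) = 2 * n - a + 1 by omega, hright, hleft] at hmid
  by_contra hodd
  rw [Nat.not_even_iff_odd] at hodd
  rw [hodd.neg_one_pow] at hmid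
  norm_num at hmid

/-- The first nonconstant level is not an even number bigger than two. -/
theorem no_even (hb : Bi st) {n : ℕ} (hc : Cst st n) (hn : Even n) (hn4 : 4 ≤ n)
    (hnc : NonCst st n) : False := by
  classical
  obtain ⟨hlc, hrev⟩ := even_level hb hc hn (by omega) hnc
  rw [lc_eq_sum hb (by omega) (meas_of_st (fun v => v = st (inc n))) (2 * n) (by omega)] at hlc
  set M : Finset ℕ := (Finset.range n).filter
    (fun q => ¬ st (wd (W1 (2 * n)) (2 * n - q) n) = st (inc n)) with hM
  have hcardG : ((Finset.range n).filter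
      (fun q => st (wd (W1 (2 * n)) (2 * n - q) n) = st (inc n))).card = n / 2 := by
    have : (((Finset.range n).filter
      (fun q => st (wd (W1 (2 * n)) (2 * n - q) n) = st (inc n))).card : ℚ) = n / 2 := by
      rw [← hlc, Finset.card_filter]
      push_cast
      apply Finset.sum_congr rfl
      intro q _
      simp only [ind]
    obtain ⟨k, hk⟩ := hn
    have h2 : (((Finset.range n).filter
      (fun q => st (wd (W1 (2 * n)) (2 * n - q) n) = st (inc n))).card : ℚ) = k := by
      rw [this, hk]; push_cast; ring
    have h3 : ((Finset.range n).filter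
      (fun q => st (wd (W1 (2 * n)) (2 * n - q) n) = st (inc n))).card = k := by
      exact_mod_cast h2
    rw [h3]; omega
  have hMcard : M.card = n / 2 := by
    have := Finset.card_filter_add_card_filter_not (s := Finset.range n)
      (fun q => st (wd (W1 (2 * n)) (2 * n - q) n) = st (inc n))
    rw [Finset.card_range, hcardG] at this
    obtain ⟨k, hk⟩ := hn
    rw [hM]
    omega
  have hMne : M.Nonempty := by
    rw [← Finset.card_pos, hMcard]; omega
  have hMem : ∀ q, q ∈ M ↔ q < n ∧ ¬ st (wd (W1 (2 * n)) (2 * n - q) n) = st (inc n) := by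
    intro q; rw [hM, Finset.mem_filter, Finset.mem_range]
  have ha := (hMem _).1 (M.min'_mem hMne)
  have hb' := (hMem _).1 (M.max'_mem hMne)
  have hab : M.min' hMne ≤ M.max' hMne := M.min'_le _ (M.max'_mem hMne)
  have hout : ∀ q < n, ¬ st (wd (W1 (2 * n)) (2 * n - q) n) = st (inc n) →
      M.min' hMne ≤ q ∧ q ≤ M.max' hMne := by
    intro q hq h
    have := (hMem q).2 ⟨hq, h⟩
    exact ⟨M.min'_le _ this, M.le_max' _ this⟩
  have hcard : ∀ s : Finset ℕ, (∀ q ∈ s, q < n ∧
      ¬ st (wd (W1 (2 * n)) (2 * n - q) n) = st (inc n)) → s.card ≤ n / 2 := by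
    intro s hs
    rw [← hMcard]
    apply Finset.card_le_card
    intro q hq
    exact (hMem q).2 (hs q hq)
  have e1 := even_parity hb (l := n - 2) hc hn hn4 (by omega) (by omega) hrev _ _ hab hb'.1
    ha.2 hb'.2 hout hcard
  have e2 := even_parity hb (l := n - 1) hc hn hn4 (by omega) (by omega) hrev _ _ hab hb'.1
    ha.2 hb'.2 hout hcard
  rw [Nat.even_iff] at e1 e2
  omega

end

end Pool.Agent.Bicomp
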