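import Pool.Agent.Bicomp.PkCase

namespace Pool.Agent.Bicomp

open Classical in
/-- A word with a prescribed descent set. -/
noncomputable def baseF (P : ℕ → Prop) : ℕ → ℤ :=
  fun j => if P (j - 1) then 2 * (j : ℤ) - 3 else 2 * (j : ℤ)

section

variable {P : ℕ → Prop} {i0 m : ℕ}

theorem baseF_desc (h0 : ¬ P 0) (hadj : ∀ i, P i → ¬ P (i + 1)) (j : ℕ) :
    baseF P (j + 1) < baseF P j ↔ P j := by
  unfold baseF
  rw [Nat.add_sub_cancel]
  by_cases h : P j
  · have hj : j ≠ 0 := by rintro rfl; exact h0 h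
    obtain ⟨k, rfl⟩ : ∃ k, j = k + 1 := ⟨j - 1, by omega⟩
    have hk : ¬ P k := fun hk => hadj k hk h
    rw [Nat.add_sub_cancel, if_pos h, if_neg hk]
    simp only [h, iff_true]
    push_cast
    omega
  · rw [if_neg h]
    simp only [h, iff_false, not_lt]
    split_ifs <;> push_cast <;> omega

theorem baseF_asc (h0 : ¬ P 0) (hadj : ∀ i, P i → ¬ P (i + 1)) (j : ℕ) :
    baseF P j < baseF P (j + 1) ↔ ¬ P j := by
  rw [← not_iff_not, not_not, ← baseF_desc h0 hadj j, not_lt]
  constructor
  · intro h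
    refine lt_of_le_of_ne h ?_
    unfold baseF
    rw [Nat.add_sub_cancel]
    split_ifs <;> push_cast <;> omega
  · exact le_of_lt

theorem baseF_inj (P : ℕ → Prop) : Function.Injective (baseF P) := by
  intro i j h
  unfold baseF at h
  split_ifs at h <;> omega

theorem baseF_lt (hP0 : P i0) (j : ℕ) (hj : j ≤ i0 + 1) :
    baseF P j < 2 * (i0 : ℤ) + 1 := by
  unfold baseF
  by_cases h : j = i0 + 1
  · subst h
    rw [Nat.add_sub_cancel, if_pos hP0]
    push_cast
    omega
  · split_ifs <;> omega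

theorem baseF_gt (hP0 : P i0) (hadj : ∀ i, P i → ¬ P (i + 1)) (j : ℕ) (hj : i0 + 2 ≤ j) :
    2 * (i0 : ℤ) + 1 < baseF P j := by
  unfold baseF
  by_cases h : j = i0 + 2
  · subst h
    have : ¬ P (i0 + 1) := hadj i0 hP0
    rw [show i0 + 2 - 1 = i0 + 1 by omega, if_neg this]
    push_cast
    omega
  · split_ifs <;> omega

theorem baseF_ne (hP0 : P i0) (hadj : ∀ i, P i → ¬ P (i + 1)) (j : ℕ) :
    baseF P j ≠ 2 * (i0 : ℤ) + 1 := by
  by_cases h : j ≤ i0 + 1
  · exact (baseF_lt hP0 j h).ne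
  · exact (baseF_gt hP0 hadj j (by omega)).ne'

theorem baseF_pk (h0 : ¬ P 0) (hadj : ∀ i, P i → ¬ P (i + 1)) (hlen : ∀ i, P i → i + 2 < m + 1)
    (i : ℕ) : pk (wd (baseF P) 0 m) i ↔ P (i + 1) := by
  rw [pk_wd, baseF_asc h0 hadj, baseF_desc h0 hadj]
  constructor
  · rintro ⟨_, _, h⟩; exact h
  · intro h
    refine ⟨?_, fun h' => hadj i h' h, h⟩
    have := hlen _ h
    omega

theorem base_positions (hi0 : 1 ≤ i0) (hi1 : i0 + 3 ≤ m) (hP0 : P i0) (hmin : ∀ i < i0, ¬ P i)
    (hadj : ∀ i, P i → ¬ P (i + 1)) (q : ℕ) (hq : q ≤ m)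
    (h : ∀ i, pk (wd (insf (baseF P) q (2 * (i0 : ℤ) + 1)) 0 (m + 1)) i ↔ P i) :
    q = 0 ∨ q = i0 + 1 := by
  have h0 : ¬ P 0 := hmin 0 (by omega)
  by_contra hcon
  push Not at hcon
  obtain ⟨hq0, hq1⟩ := hcon
  rcases Nat.lt_or_ge q (i0 + 1) with hlt | hge
  · apply hmin (q - 1) (by omega)
    rw [← h, pk_wd]
    obtain ⟨k, rfl⟩ : ∃ k, q = k + 1 := ⟨q - 1, by omega⟩
    rw [Nat.add_sub_cancel]
    have e1 : insf (baseF P) (k + 1) (2 * (i0 : ℤ) + 1) k = baseF P k := by simp [insf]
    have e2 : insf (baseF P) (k + 1) (2 * (i0 : ℤ) + 1) (k + 1) = 2 * (i0 : ℤ) + 1 := by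
      simp [insf]
    have e3 : insf (baseF P) (k + 1) (2 * (i0 : ℤ) + 1) (k + 2) = baseF P (k + 1) := by
      simp [insf]
    rw [e1, e2, e3]
    exact ⟨by omega, baseF_lt hP0 _ (by omega), baseF_lt hP0 _ (by omega)⟩
  · obtain ⟨k, rfl⟩ : ∃ k, i0 = k + 1 := ⟨i0 - 1, by omega⟩
    apply hmin k (by omega)
    rw [← h, pk_wd]
    have e1 : ∀ j, j < q → insf (baseF P) q (2 * ((k + 1 : ℕ) : ℤ) + 1) j = baseF P j := by
      intro j hj; simp [insf, hj]
    rw [e1 _ (by omega), e1 _ (by omega), e1 _ (by omega), baseF_asc h0 hadj, baseF_desc h0 hadj]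
    exact ⟨by omega, hmin k (by omega), hP0⟩

/-- Removing the letter after the first peak, insertion in front. -/
noncomputable def g0 (P : ℕ → Prop) (i0 : ℕ) : ℕ → ℤ := fun j =>
  if j = 0 then 2 * (i0 : ℤ) + 1 else if j ≤ i0 + 1 then baseF P (j - 1) else baseF P j

/-- Removing the letter after the first peak, insertion after the peak. -/
noncomputable def g1 (P : ℕ → Prop) (i0 : ℕ) : ℕ → ℤ := fun j =>
  if j = i0 + 1 then 2 * (i0 : ℤ) + 1 else baseF P j

theorem ins_g0 : insf (g0 P i0) (i0 + 2) (baseF P (i0 + 1)) =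
    insf (baseF P) 0 (2 * (i0 : ℤ) + 1) := by
  funext j
  simp only [insf, g0]
  split_ifs <;> first | rfl | omega | (congr 1; omega)

theorem ins_g1 : insf (g1 P i0) (i0 + 2) (baseF P (i0 + 1)) =
    insf (baseF P) (i0 + 1) (2 * (i0 : ℤ) + 1) := by
  funext j
  simp only [insf, g1]
  split_ifs <;> first | rfl | omega | (congr 1; omega)

theorem pk_g0 (hi0 : 1 ≤ i0) (hP0 : P i0) (hmin : ∀ i < i0, ¬ P i)
    (hadj : ∀ i, P i → ¬ P (i + 1)) (hlen : ∀ i, P i → i + 2 < m + 1) (i : ℕ) :
    pk (wd (g0 P i0) 0 m) i ↔ (P (i + 1) ∧ i0 ≤ i) := by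
  have h0 : ¬ P 0 := hmin 0 (by omega)
  rw [pk_wd]
  rcases Nat.lt_or_ge i i0 with hlt | hge
  · constructor
    · rintro ⟨_, h1, h2⟩
      exfalso
      rcases Nat.eq_zero_or_pos i with hi | hi
      · subst hi
        have e1 : g0 P i0 0 = 2 * (i0 : ℤ) + 1 := by simp [g0]
        have e2 : g0 P i0 (0 + 1) = baseF P 0 := by simp [g0]
        rw [e1, e2] at h1
        have := baseF_lt hP0 0 (by omega)
        omega
      · obtain ⟨k, rfl⟩ : ∃ k, i = k + 1 := ⟨i - 1, by omega⟩
        have e2 : g0 P i0 (k + 1 + 1) = baseF P (k + 1) := by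
          simp only [g0]
          rw [if_neg (by omega), if_pos (by omega)]
          rfl
        have e3 : g0 P i0 (k + 1 + 2) = baseF P (k + 1 + 1) := by
          simp only [g0]
          rw [if_neg (by omega), if_pos (by omega)]
          rfl
        rw [e2, e3, baseF_desc h0 hadj] at h2
        exact hmin _ hlt h2
    · rintro ⟨_, h⟩; omega
  · have e3 : g0 P i0 (i + 2) = baseF P (i + 2) := by
      simp only [g0]
      rw [if_neg (by omega), if_neg (by omega)]
    rcases Nat.lt_or_ge i (i0 + 1) with hlt | hge1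
    · have hi : i = i0 := by omega
      subst hi
      have e2 : g0 P i (i + 1) = baseF P i := by
        simp only [g0]
        rw [if_neg (by omega), if_pos (by omega)]
        rfl
      rw [e2, e3]
      constructor
      · rintro ⟨_, _, h⟩
        have h1 := baseF_lt hP0 i (by omega)
        have h2 := baseF_gt hP0 hadj (i + 2) (by omega)
        omega
      · rintro ⟨h, _⟩
        exact absurd h (hadj _ hP0)
    · have e2 : g0 P i0 (i + 1) = baseF P (i + 1) := by
        simp only [g0]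
        rw [if_neg (by omega), if_neg (by omega)]
      rw [e2, e3, baseF_desc h0 hadj]
      constructor
      · rintro ⟨_, _, h⟩; exact ⟨h, hge⟩
      · rintro ⟨h, _⟩
        refine ⟨by have := hlen _ h; omega, ?_, h⟩
        rcases Nat.lt_or_ge i (i0 + 2) with hlt2 | hge2
        · have hi : i = i0 + 1 := by omega
          subst hi
          have e1 : g0 P i0 (i0 + 1) = baseF P i0 := by
            simp only [g0]
            rw [if_neg (by omega), if_pos (by omega)]
            rfl
          rw [e1]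
          exact (baseF_lt hP0 i0 (by omega)).trans (baseF_gt hP0 hadj _ (by omega))
        · have e1 : g0 P i0 i = baseF P i := by
            simp only [g0]
            rw [if_neg (by omega), if_neg (by omega)]
          rw [e1, baseF_asc h0 hadj]
          intro h'; exact hadj _ h' h

theorem pk_g1 (hi0 : 1 ≤ i0) (hP0 : P i0) (hmin : ∀ i < i0, ¬ P i)
    (hadj : ∀ i, P i → ¬ P (i + 1)) (hlen : ∀ i, P i → i + 2 < m + 1) (i : ℕ) :
    pk (wd (g1 P i0) 0 m) i ↔ (P (i + 1) ∧ i0 ≤ i) := by
  have h0 : ¬ P 0 := hmin 0 (by omega)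
  rw [pk_wd]
  rcases Nat.lt_or_ge i i0 with hlt | hge
  · constructor
    · rintro ⟨_, h1, h2⟩
      exfalso
      have e2 : g1 P i0 (i + 1) = baseF P (i + 1) := by
        simp only [g1]
        rw [if_neg (by omega)]
      rcases Nat.lt_or_ge (i + 1) i0 with hlt2 | hge2
      · have e3 : g1 P i0 (i + 2) = baseF P (i + 1 + 1) := by
          simp only [g1]
          rw [if_neg (by omega)]
        rw [e2, e3, baseF_desc h0 hadj] at h2
        exact hmin _ hlt2 h2
      · have e3 : g1 P i0 (i + 2) = 2 * (i0 : ℤ) + 1 := by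
          simp only [g1]
          rw [if_pos (by omega)]
        rw [e2, e3] at h2
        have := baseF_lt hP0 (i + 1) (by omega)
        omega
    · rintro ⟨_, h⟩; omega
  · have e3 : g1 P i0 (i + 2) = baseF P (i + 2) := by
      simp only [g1]
      rw [if_neg (by omega)]
    rcases Nat.lt_or_ge i (i0 + 1) with hlt | hge1
    · have hi : i = i0 := by omega
      subst hi
      have e2 : g1 P i (i + 1) = 2 * (i : ℤ) + 1 := by
        simp [g1]
      rw [e2, e3]
      constructor
      · rintro ⟨_, _, h⟩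
        have h2 := baseF_gt hP0 hadj (i + 2) (by omega)
        omega
      · rintro ⟨h, _⟩
        exact absurd h (hadj _ hP0)
    · have e2 : g1 P i0 (i + 1) = baseF P (i + 1) := by
        simp only [g1]
        rw [if_neg (by omega)]
      rw [e2, e3, baseF_desc h0 hadj]
      constructor
      · rintro ⟨_, _, h⟩; exact ⟨h, hge⟩
      · rintro ⟨h, _⟩
        refine ⟨by have := hlen _ h; omega, ?_, h⟩
        rcases Nat.lt_or_ge i (i0 + 2) with hlt2 | hge2
        · have hi : i = i0 + 1 := by omega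
          subst hi
          have e1 : g1 P i0 (i0 + 1) = 2 * (i0 : ℤ) + 1 := by
            simp [g1]
          rw [e1]
          exact baseF_gt hP0 hadj _ (by omega)
        · have e1 : g1 P i0 i = baseF P i := by
            simp only [g1]
            rw [if_neg (by omega)]
          rw [e1, baseF_asc h0 hadj]
          intro h'; exact hadj _ h' h

theorem inj_insf {f : ℕ → ℤ} (hf : Function.Injective f) (q : ℕ) (b : ℤ) (hb : ∀ j, f j ≠ b) :
    Function.Injective (insf f q b) := by
  intro i j h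
  simp only [insf] at h
  split_ifs at h with h1 h2 h3 h4 h5 h6 h7
  · exact hf h
  · exact absurd h (hb _)
  · have := hf h; omega
  · exact absurd h.symm (hb _)
  · omega
  · exact absurd h.symm (hb _)
  · have := hf h; omega
  · exact absurd h (hb _)
  · have := hf h; omega

theorem nodup_of_ins {f : ℕ → ℤ} {m q : ℕ} {b : ℤ} (hq : q ≤ m)
    (h : (wd (insf f q b) 0 (m + 1)).Nodup) : (b :: wd f 0 m).Nodup := by
  rw [← ins_wd _ _ _ _ hq] at h
  have : (b :: wd f 0 m).Perm ((wd f 0 m).take q ++ b :: (wd f 0 m).drop q) := by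
    have h1 := (List.perm_middle (a := b) (l₁ := (wd f 0 m).take q) (l₂ := (wd f 0 m).drop q)).symm
    rwa [List.take_append_drop] at h1
  exact this.nodup_iff.2 h

end

end Pool.Agent.Bicomp
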