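import Pool.Agent.Bicomp.DesCase

namespace Pool.Agent.Bicomp

/-- Peak at index `i + 1`. -/
def pk (w : List ℤ) (i : ℕ) : Prop :=
  i + 2 < w.length ∧ w.getD i 0 < w.getD (i + 1) 0 ∧ w.getD (i + 2) 0 < w.getD (i + 1) 0

theorem pk_wd (f : ℕ → ℤ) (n i : ℕ) :
    pk (wd f 0 n) i ↔ i + 2 < n ∧ f i < f (i + 1) ∧ f (i + 2) < f (i + 1) := by
  unfold pk
  rw [length_wd]
  constructor
  · rintro ⟨h1, h2⟩
    rw [getD_wd _ _ _ _ h1, getD_wd _ _ _ _ (by omega), getD_wd _ _ _ _ (by omega), zero_add,
      zero_add, zero_add] at h2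
    exact ⟨h1, h2⟩
  · rintro ⟨h1, h2⟩
    rw [getD_wd _ _ _ _ h1, getD_wd _ _ _ _ (by omega), getD_wd _ _ _ _ (by omega), zero_add,
      zero_add, zero_add]
    exact ⟨h1, h2⟩

theorem pk_adj {w : List ℤ} {i : ℕ} (h1 : pk w i) (h2 : pk w (i + 1)) : False := by
  have h3 := h1.2.2
  have h4 : w.getD (i + 1) 0 < w.getD (i + 2) 0 := h2.2.1
  omega

theorem pk_cons (a : ℤ) (w : List ℤ) (i : ℕ) : pk (a :: w) (i + 1) ↔ pk w i := by
  have e : pk (a :: w) (i + 1) ↔ (i + 1 + 2 < w.length + 1 ∧ w.getD i 0 < w.getD (i + 1) 0 ∧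
      w.getD (i + 2) 0 < w.getD (i + 1) 0) := Iff.rfl
  rw [e]
  unfold pk
  constructor
  · rintro ⟨h, h'⟩; exact ⟨by omega, h'⟩
  · rintro ⟨h, h'⟩; exact ⟨by omega, h'⟩

theorem getD_take' (w : List ℤ) (i k : ℕ) (h : i < k) : (w.take k).getD i 0 = w.getD i 0 := by
  simp only [List.getD_eq_getElem?_getD, List.getElem?_take, if_pos h]

theorem getD_drop' (w : List ℤ) (i k : ℕ) : (w.drop k).getD i 0 = w.getD (k + i) 0 := by
  simp only [List.getD_eq_getElem?_getD, List.getElem?_drop]

section

variable {α : Type*} {st : List ℤ → α}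

/-- Level three is the peak statistic. -/
def PkLevel (st : List ℤ → α) : Prop :=
  ∀ u u' : List ℤ, u.Nodup → u'.Nodup → u.length = 3 → u'.length = 3 →
    (st u = st u' ↔ (pk u 0 ↔ pk u' 0))

theorem pk_of_st (hb : Bi st) (h3 : PkLevel st) (p s : List ℤ) (hp : p.Nodup)
    (hs : s.Nodup) (hl : p.length = s.length) (he : st p = st s) (i : ℕ) : pk p i ↔ pk s i := by
  by_cases hi : i + 2 < p.length
  · have h1 := hb.sub p s hp hs hl he i 3
    have key : ∀ w : List ℤ, i + 2 < w.length → (pk ((w.drop i).take 3) 0 ↔ pk w i) := by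
      intro w hiw
      unfold pk
      rw [getD_take' _ _ _ (by omega), getD_take' _ _ _ (by omega), getD_take' _ _ _ (by omega),
        getD_drop', getD_drop', getD_drop']
      simp only [List.length_take, List.length_drop, add_zero, zero_add]
      constructor
      · rintro ⟨_, h⟩; exact ⟨hiw, h⟩
      · rintro ⟨_, h⟩; exact ⟨by omega, h⟩
    rw [← key p hi, ← key s (by omega)]
    apply (h3 _ _ _ _ _ _).1 h1
    · exact hp.sublist ((List.take_sublist _ _).trans (List.drop_sublist _ _))
    · exact hs.sublist ((List.take_sublist _ _).trans (List.drop_sublist _ _))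
    · simp; omega
    · simp; omega
  · constructor
    · intro h; exact absurd h.1 hi
    · intro h; exact absurd (by have := h.1; omega) hi

theorem nodup_ins {b : ℤ} {w : List ℤ} (h : (b :: w).Nodup) {q : ℕ} (hq : q ≤ w.length) :
    (w.take q ++ b :: w.drop q).Nodup :=
  nodup_of_mem_shuf (mem_shuf_single.2 ⟨q, hq, rfl⟩ : w.take q ++ b :: w.drop q ∈ shuf [b] w)
    (by simpa using h)

theorem length_ins (b : ℤ) (w : List ℤ) {q : ℕ} (hq : q ≤ w.length) :
    (w.take q ++ b :: w.drop q).length = w.length + 1 := by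
  simp; omega

/-- Uniqueness of the insertion of a big letter producing a given peak set. -/
theorem pk_ins_unique (f : ℕ → ℤ) (m q i0 : ℕ) (b : ℤ) (hf : ∀ i < m, f i < b) (hq : q ≤ m)
    (P : ℕ → Prop) (hP : ∀ i, P i ↔ pk (wd (insf f q b) 0 (m + 1)) i)
    (h0 : P i0) (hmin : ∀ i < i0, ¬ P i)
    (hS : ∀ i, pk (wd f 0 m) i ↔ (P (i + 1) ∧ i0 ≤ i)) : q = i0 + 1 := by
  have hadj : ∀ i, P i → ¬ P (i + 1) := by
    intro i h1 h2
    rw [hP] at h1 h2
    exact pk_adj h1 h2
  have hp0 := (hP i0).1 h0
  rw [pk_wd] at hp0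
  obtain ⟨hlen, hup, hdown⟩ := hp0
  -- `i0` is not a peak of the base
  have hbase : ¬ pk (wd f 0 m) i0 := by
    rw [hS]
    rintro ⟨h1, _⟩
    exact hadj i0 h0 h1
  rcases Nat.eq_zero_or_pos q with hq0 | hqpos
  · -- inserted in front
    subst hq0
    exfalso
    by_cases hi : i0 = 0
    · subst hi
      have e1 : insf f 0 b 0 = b := by simp [insf]
      have e2 : insf f 0 b (0 + 1) = f 0 := by simp [insf]
      rw [e1, e2] at hup
      have := hf 0 (by omega)
      omega
    · obtain ⟨j, rfl⟩ : ∃ j, i0 = j + 1 := ⟨i0 - 1, by omega⟩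
      simp only [insf] at hup hdown
      rw [if_neg (by omega), if_neg (by omega), if_neg (by omega), if_neg (by omega)] at hup hdown
      have : pk (wd f 0 m) j := by
        rw [pk_wd]
        refine ⟨by omega, ?_, ?_⟩
        · simpa using hup
        · simpa using hdown
      rw [hS] at this
      omega
  · rcases Nat.lt_or_ge q m with hqm | hqm
    · -- inner insertion: `b` is a peak
      have hpk : P (q - 1) := by
        rw [hP, pk_wd]
        refine ⟨by omega, ?_, ?_⟩
        · simp only [insf]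
          rw [if_pos (by omega), if_neg (by omega), if_pos (by omega)]
          exact hf _ (by omega)
        · simp only [insf]
          rw [if_neg (by omega), if_neg (by omega), if_neg (by omega), if_pos (by omega)]
          exact hf _ (by omega)
      have hge : i0 ≤ q - 1 := by
        by_contra hcon
        exact hmin _ (by omega) hpk
      by_contra hne
      have hlt : i0 + 2 ≤ q := by omega
      by_cases h2 : i0 + 2 = q
      · simp only [insf] at hdown
        rw [if_neg (by omega), if_pos (by omega), if_pos (by omega)] at hdown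
        have := hf (i0 + 1) (by omega)
        omega
      · apply hbase
        rw [pk_wd]
        simp only [insf] at hup hdown
        rw [if_pos (by omega), if_pos (by omega)] at hup
        rw [if_pos (by omega), if_pos (by omega)] at hdown
        exact ⟨by omega, hup, hdown⟩
    · -- appended at the end
      have hqm' : q = m := by omega
      subst hqm'
      exfalso
      by_cases h2 : i0 + 2 = q
      · simp only [insf] at hdown
        rw [if_neg (by omega), if_pos (by omega), if_pos (by omega)] at hdown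
        have := hf (i0 + 1) (by omega)
        omega
      · apply hbase
        rw [pk_wd]
        simp only [insf] at hup hdown
        rw [if_pos (by omega), if_pos (by omega)] at hup
        rw [if_pos (by omega), if_pos (by omega)] at hdown
        exact ⟨by omega, hup, hdown⟩

/-- Two words with the same peak set, each obtained by an insertion in a word whose peak set
is the reduced one, have the same value. -/
theorem pk_U (hb : Bi st) (h3 : PkLevel st) {m : ℕ}
    (ih : ∀ p s : List ℤ, p.Nodup → s.Nodup → p.length = m → s.length = m →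
      (∀ i, pk p i ↔ pk s i) → st p = st s) (i0 : ℕ) (P : ℕ → Prop) (h0 : P i0)
    (hmin : ∀ i < i0, ¬ P i)
    (a a' : ℤ) (s s' t t' : List ℤ) (hs : (a :: s).Nodup) (hs' : (a' :: s').Nodup)
    (hsl : s.length = m) (hsl' : s'.length = m) (ht : t ∈ shuf [a] s) (ht' : t' ∈ shuf [a'] s')
    (hS : ∀ i, pk s i ↔ (P (i + 1) ∧ i0 ≤ i)) (hS' : ∀ i, pk s' i ↔ (P (i + 1) ∧ i0 ≤ i))
    (hP : ∀ i, pk t i ↔ P i) (hP' : ∀ i, pk t' i ↔ P i) : st t = st t' := by
  have hsn := (List.nodup_cons.1 hs).2
  have hsn' := (List.nodup_cons.1 hs').2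
  have hst : st s' = st s := ih s' s hsn' hsn hsl' hsl (fun i => by rw [hS', hS])
  obtain ⟨q, hq, e1⟩ := line_mem hb hs (nodup_fresh hsn) rfl rfl ht
  obtain ⟨q', hq', e2⟩ := line_mem hb hs' (nodup_fresh hsn) (by omega) hst ht'
  have htn : t.Nodup := nodup_of_mem_shuf ht (by simpa using hs)
  have htn' : t'.Nodup := nodup_of_mem_shuf ht' (by simpa using hs')
  have htl : t.length = m + 1 := by rw [length_of_mem_shuf ht]; simp; omega
  have htl' : t'.length = m + 1 := by rw [length_of_mem_shuf ht']; simp; omega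
  have hf : ∀ i < m, (fun i => s.getD i 0) i < fresh s := fun i hi => getD_lt_fresh s (by omega)
  have hbase : ∀ i, pk (wd (fun i => s.getD i 0) 0 m) i ↔ (P (i + 1) ∧ i0 ≤ i) := by
    intro i
    rw [← hS i, ← hsl, ← eq_wd]
  have key : ∀ (x : ℕ) (hx : x ≤ s.length) (r : List ℤ), r.Nodup → r.length = m + 1 →
      (∀ i, pk r i ↔ P i) → st (s.take x ++ fresh s :: s.drop x) = st r → x = i0 + 1 := by
    intro x hx r hr hrl hrP he
    have h1 := pk_of_st hb h3 _ _ (nodup_ins (nodup_fresh hsn) hx) hr
      (by rw [length_ins _ _ hx]; omega) he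
    rw [ins_list s x _ hx, hsl] at h1
    exact pk_ins_unique _ m x i0 _ hf (by omega) P (fun i => by rw [h1 i, hrP i]) h0 hmin hbase
  have k1 := key q hq t htn htl hP e1
  have k2 := key q' hq' t' htn' htl' hP' e2
  subst k1
  subst k2
  rw [← e1, ← e2]

end

end Pool.Agent.Bicomp
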