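import Pool.Agent.Bicomp.PkMain

namespace Pool.Agent.Bicomp

section

variable {α : Type*} {st : List ℤ → α}

/-- Every word with peaks can be replaced by one obtained by inserting a letter in a word with
the reduced peak set. -/
theorem pk_reduce (hb : Bi st) (h3 : PkLevel st) {m : ℕ}
    (ih : ∀ p s : List ℤ, p.Nodup → s.Nodup → p.length = m → s.length = m →
      (∀ i, pk p i ↔ pk s i) → st p = st s) (P : ℕ → Prop) (i0 : ℕ) (h0 : P i0)
    (hmin : ∀ i < i0, ¬ P i) (p : List ℤ) (hp : p.Nodup) (hl : p.length = m + 1)
    (hP : ∀ i, pk p i ↔ P i) :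
    ∃ (t : List ℤ) (y : ℤ) (r : List ℤ), st p = st t ∧ (y :: r).Nodup ∧ r.length = m ∧
      t ∈ shuf [y] r ∧ (∀ i, pk r i ↔ (P (i + 1) ∧ i0 ≤ i)) ∧ (∀ i, pk t i ↔ P i) := by
  have hadj : ∀ i, P i → ¬ P (i + 1) := by
    intro i h1 h2
    rw [← hP] at h1 h2
    exact pk_adj h1 h2
  have hlen : ∀ i, P i → i + 2 < m + 1 := by
    intro i h
    rw [← hP] at h
    have := h.1
    omega
  by_cases hi0 : i0 = 0
  · obtain ⟨a, s, rfl⟩ : ∃ a s, p = a :: s := by
      cases p with
      | nil => simp at hl
      | cons a s => exact ⟨a, s, rfl⟩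
    refine ⟨a :: s, a, s, rfl, hp, by simpa using hl,
      mem_shuf_single.2 ⟨0, by omega, by simp⟩, ?_, hP⟩
    intro i
    rw [← hP (i + 1), pk_cons]
    subst hi0
    simp
  · by_cases hi1 : i0 + 3 ≤ m
    · -- the middle case
      obtain ⟨a, s, rfl⟩ : ∃ a s, p = a :: s := by
        cases p with
        | nil => simp at hl
        | cons a s => exact ⟨a, s, rfl⟩
      have hs := (List.nodup_cons.1 hp).2
      simp only [List.length_cons, Nat.add_right_cancel_iff] at hl
      have hnd : ((2 * (i0 : ℤ) + 1) :: wd (baseF P) 0 m).Nodup := by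
        rw [cons_wd]
        exact nodup_wd (inj_insf (baseF_inj P) _ _ (baseF_ne h0 hadj)) _ _
      have hP00 : ¬ P 0 := hmin 0 (by omega)
      have hst : st s = st (wd (baseF P) 0 m) := by
        apply ih _ _ hs (nodup_wd (baseF_inj P) _ _) hl (by simp)
        intro i
        rw [baseF_pk hP00 hadj hlen, ← hP (i + 1), pk_cons]
      obtain ⟨q, hq, e1⟩ := line_mem hb hp hnd (by simp [hl]) hst
        (t := a :: s) (mem_shuf_single.2 ⟨0, by omega, by simp⟩)
      have hpq := pk_of_st hb h3 _ _ (nodup_ins hnd hq) hp
        (by rw [length_ins _ _ hq]; simp [hl]) e1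
      rw [length_wd] at hq
      rw [ins_wd _ _ _ _ hq] at e1 hpq
      have hpos := base_positions (by omega) hi1 h0 hmin hadj q hq
        (fun i => by rw [hpq i, hP i])
      have hbi : ∀ x, Function.Injective (insf (baseF P) x (2 * (i0 : ℤ) + 1)) :=
        fun x => inj_insf (baseF_inj P) _ _ (baseF_ne h0 hadj)
      rcases hpos with hq0 | hq1
      · subst hq0
        refine ⟨wd (insf (baseF P) 0 (2 * (i0 : ℤ) + 1)) 0 (m + 1), baseF P (i0 + 1),
          wd (g0 P i0) 0 m, e1.symm, ?_, by simp, ?_, ?_, ?_⟩
        · apply nodup_of_ins (q := i0 + 2) (by omega)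
          rw [ins_g0]
          exact nodup_wd (hbi 0) _ _
        · rw [mem_shuf_single]
          refine ⟨i0 + 2, by simp; omega, ?_⟩
          rw [ins_wd _ _ _ _ (by omega), ins_g0]
        · intro i
          exact pk_g0 (by omega) h0 hmin hadj hlen i
        · intro i
          rw [hpq i, hP i]
      · subst hq1
        refine ⟨wd (insf (baseF P) (i0 + 1) (2 * (i0 : ℤ) + 1)) 0 (m + 1), baseF P (i0 + 1),
          wd (g1 P i0) 0 m, e1.symm, ?_, by simp, ?_, ?_, ?_⟩
        · apply nodup_of_ins (q := i0 + 2) (by omega)
          rw [ins_g1]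
          exact nodup_wd (hbi _) _ _
        · rw [mem_shuf_single]
          refine ⟨i0 + 2, by simp; omega, ?_⟩
          rw [ins_wd _ _ _ _ (by omega), ins_g1]
        · intro i
          exact pk_g1 (by omega) h0 hmin hadj hlen i
        · intro i
          rw [hpq i, hP i]
    · -- the last position
      have hlast := hlen i0 h0
      have hne : p ≠ [] := by intro h; subst h; simp at hl
      have hsplit := List.dropLast_append_getLast hne
      refine ⟨p, p.getLast hne, p.dropLast, rfl, ?_, by simp [hl], ?_, ?_, hP⟩
      · have : (p.getLast hne :: p.dropLast).Perm (p.dropLast ++ [p.getLast hne]) := by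
          simpa using (List.perm_append_comm (l₁ := [p.getLast hne]) (l₂ := p.dropLast))
        rw [this.nodup_iff, hsplit]; exact hp
      · rw [mem_shuf_single]
        refine ⟨p.dropLast.length, le_rfl, ?_⟩
        rw [List.take_of_length_le le_rfl, List.drop_of_length_le le_rfl]
        exact hsplit.symm
      · intro i
        constructor
        · rintro ⟨h1, h2, h3'⟩
          rw [List.length_dropLast, hl] at h1
          have hpi : pk p i := by
            refine ⟨by omega, ?_, ?_⟩
            · rw [List.dropLast_eq_take, getD_take' _ _ _ (by omega),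
                getD_take' _ _ _ (by omega)] at h2
              exact h2
            · rw [List.dropLast_eq_take, getD_take' _ _ _ (by omega),
                getD_take' _ _ _ (by omega)] at h3'
              exact h3'
          exfalso
          exact hmin i (by omega) ((hP i).1 hpi)
        · rintro ⟨h1, h2⟩
          have := hlen _ h1
          omega

/-- The case of peak sets. -/
theorem pk_case (hb : Bi st) (hc : Cst st 3) (h3 : PkLevel st) : ∀ (N : ℕ) (p s : List ℤ),
    p.Nodup → s.Nodup → p.length = N → s.length = N →
    (st p = st s ↔ ∀ i, pk p i ↔ pk s i) := by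
  intro N
  induction N with
  | zero =>
    intro p s hp hs hpl hsl
    refine ⟨fun h => pk_of_st hb h3 p s hp hs (by omega) h, fun _ => ?_⟩
    exact hc p s hp hs (by omega) (by omega)
  | succ m ih =>
    intro p s hp hs hpl hsl
    refine ⟨fun h => pk_of_st hb h3 p s hp hs (by omega) h, fun h => ?_⟩
    by_cases hm : m + 1 < 3
    · exact hc p s hp hs (by omega) (by omega)
    · by_cases hm3 : m + 1 = 3
      · rw [h3 p s hp hs (by omega) (by omega)]
        exact h 0
      · have ih' : ∀ p s : List ℤ, p.Nodup → s.Nodup → p.length = m → s.length = m →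
            (∀ i, pk p i ↔ pk s i) → st p = st s :=
          fun p s h1 h2 h3 h4 h5 => (ih p s h1 h2 h3 h4).2 h5
        by_cases hpk : ∀ i, ¬ pk p i
        · have hspk : ∀ i, ¬ pk s i := fun i hi => hpk i ((h i).2 hi)
          have hcst := peakless_const hb hc h3 (by omega : 3 ≤ m) ih'
          have e1 : st p = st (inc (m + 1)) := by
            rcases peakless_two hb h3 ih' p hp hpl hpk with h1 | h1
            · rw [h1, hcst]
            · exact h1
          have e2 : st s = st (inc (m + 1)) := by
            rcases peakless_two hb h3 ih' s hs hsl hspk with h1 | h1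
            · rw [h1, hcst]
            · exact h1
          rw [e1, e2]
        · classical
          push Not at hpk
          have h0 := Nat.find_spec hpk
          have hmin : ∀ i < Nat.find hpk, ¬ pk p i := fun i hi => Nat.find_min hpk hi
          obtain ⟨t, y, r, e1, n1, l1, m1, s1, p1⟩ := pk_reduce hb h3 ih' (fun i => pk p i) _ h0
            hmin p hp hpl (fun _ => Iff.rfl)
          obtain ⟨t', y', r', e2, n2, l2, m2, s2, p2⟩ := pk_reduce hb h3 ih' (fun i => pk p i) _ h0
            hmin s hs hsl (fun i => (h i).symm)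
          rw [e1, e2]
          exact pk_U hb h3 ih' _ (fun i => pk p i) h0 hmin y y' r r' t t' n1 n2 l1 l2 m1 m2
            s1 s2 p1 p2

end

end Pool.Agent.Bicomp
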