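import Pool.Agent.Bicomp.PkBase

namespace Pool.Agent.Bicomp

theorem cons_wd (f : ℕ → ℤ) (n : ℕ) (x : ℤ) : x :: wd f 0 n = wd (insf f 0 x) 0 (n + 1) := by
  have := ins_wd f n 0 x (by omega)
  simpa using this

theorem snoc_wd (f : ℕ → ℤ) (n : ℕ) (x : ℤ) : wd f 0 n ++ [x] = wd (insf f n x) 0 (n + 1) := by
  have := ins_wd f n n x le_rfl
  rw [List.take_of_length_le (by simp), List.drop_of_length_le (by simp)] at this
  exact this

/-- A word with a visible peak. -/
def HasPk (w : List ℤ) : Prop := ∃ u a b c v, w = u ++ a :: b :: c :: v ∧ a < b ∧ c < b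

theorem HasPk.pk {w : List ℤ} (h : HasPk w) : ∃ i, pk w i := by
  obtain ⟨u, a, b, c, v, rfl, h1, h2⟩ := h
  refine ⟨u.length, ?_, ?_, ?_⟩
  · simp
  · simp [List.getD_eq_getElem?_getD, List.getElem?_append_right, h1]
  · simp [List.getD_eq_getElem?_getD, List.getElem?_append_right, h2]

section shuffleSums

variable {H : List ℤ → ℚ} (hH : ∀ w, HasPk w → H w = 0)

include hH

theorem lemA : ∀ (r u : List ℤ) (l x : ℤ), l < x → (∀ z ∈ r, z < x) →
    S (fun t => H (u ++ l :: t)) [x] r = H (u ++ l :: (r ++ [x])) := by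
  intro r
  induction r with
  | nil => intro u l x _ _; simp
  | cons z r ih =>
    intro u l x hl hr
    rw [S_cons_cons]
    simp only [S_nil_left]
    have h1 : H (u ++ l :: x :: z :: r) = 0 := by
      apply hH
      exact ⟨u, l, x, z, r, rfl, hl, hr z List.mem_cons_self⟩
    have h2 := ih (u ++ [l]) z x (hr z List.mem_cons_self)
      (fun y hy => hr y (List.mem_cons_of_mem _ hy))
    simp only [List.append_assoc, List.cons_append, List.nil_append] at h2 ⊢
    rw [h1, h2, zero_add]

theorem lemB : ∀ (r u : List ℤ) (l x y : ℤ), l < x → x ≠ y → l < y →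
    (∀ z ∈ r, z < x) → (∀ z ∈ r, z < y) →
    S (fun t => H (u ++ l :: t)) [x, y] r = H (u ++ l :: (r ++ [x, y])) := by
  intro r
  induction r with
  | nil => intro u l x y _ _ _ _ _; simp
  | cons z r ih =>
    intro u l x y hlx hxy hly hrx hry
    rw [S_cons_cons, S_cons_cons]
    simp only [S_nil_left]
    have hzx := hrx z List.mem_cons_self
    have hzy := hry z List.mem_cons_self
    have h1 : H (u ++ l :: x :: y :: z :: r) = 0 := by
      apply hH
      rcases lt_or_gt_of_ne hxy with h | h
      · exact ⟨u ++ [l], x, y, z, r, by simp, h, hzy⟩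
      · exact ⟨u, l, x, y, z :: r, rfl, hlx, h⟩
    have h2 : S (fun t => H (u ++ l :: x :: z :: t)) [y] r = 0 := by
      apply S_zero
      intro t _
      apply hH
      exact ⟨u, l, x, z, t, rfl, hlx, hzx⟩
    have h3 := ih (u ++ [l]) z x y hzx hxy hzy
      (fun w hw => hrx w (List.mem_cons_of_mem _ hw))
      (fun w hw => hry w (List.mem_cons_of_mem _ hw))
    simp only [List.append_assoc, List.cons_append, List.nil_append] at h3 ⊢
    rw [h1, h2, h3, zero_add, zero_add]

theorem lemC (r : List ℤ) (z x y : ℤ) (hxy : x ≠ y)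
    (hrx : ∀ w ∈ z :: r, w < x) (hry : ∀ w ∈ z :: r, w < y) :
    S H [x, y] (z :: r) = H (x :: y :: z :: r) + H (x :: z :: (r ++ [y])) +
      H (z :: (r ++ [x, y])) := by
  rw [S_cons_cons, S_cons_cons]
  simp only [S_nil_left]
  have hzx := hrx z List.mem_cons_self
  have hzy := hry z List.mem_cons_self
  have h1 := lemA hH r [x] z y hzy (fun w hw => hry w (List.mem_cons_of_mem _ hw))
  have h2 := lemB hH r [] z x y hzx hxy hzy (fun w hw => hrx w (List.mem_cons_of_mem _ hw))
    (fun w hw => hry w (List.mem_cons_of_mem _ hw))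
  simp only [List.cons_append, List.nil_append] at h1 h2
  rw [h1, h2]

end shuffleSums

section

variable {α : Type*} {st : List ℤ → α}

theorem inc_of_mono' (hb : Bi st) {f : ℕ → ℤ} {k n : ℕ}
    (h : ∀ i < n, ∀ j < n, (f (k + i) < f (k + j) ↔ i < j)) :
    st (wd f k n) = st (inc n) := by
  unfold inc
  symm
  apply st_wd_eq hb (nodup_wd natCast_inj _ _)
  intro i hi j hj
  rw [h i hi j hj]
  omega

theorem inc_peakless (n i : ℕ) : ¬ pk (inc n) i := by
  unfold inc
  rw [pk_wd]
  rintro ⟨_, _, h⟩
  omega

/-- Peakless words take at most two values. -/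
theorem peakless_two (hb : Bi st) (h3 : PkLevel st) {m : ℕ}
    (ih : ∀ p s : List ℤ, p.Nodup → s.Nodup → p.length = m → s.length = m →
      (∀ i, pk p i ↔ pk s i) → st p = st s) (p : List ℤ) (hp : p.Nodup) (hl : p.length = m + 1)
    (hpk : ∀ i, ¬ pk p i) : st p = st ((m : ℤ) :: inc m) ∨ st p = st (inc (m + 1)) := by
  obtain ⟨a, s, rfl⟩ : ∃ a s, p = a :: s := by
    cases p with
    | nil => simp at hl
    | cons a s => exact ⟨a, s, rfl⟩
  have hs := (List.nodup_cons.1 hp).2
  simp only [List.length_cons, Nat.add_right_cancel_iff] at hl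
  have hspk : ∀ i, ¬ pk s i := by
    intro i h
    exact hpk (i + 1) ((pk_cons a s i).2 h)
  have hst : st s = st (inc m) := by
    apply ih s _ hs (nodup_inc m) hl (length_inc m)
    intro i
    constructor
    · intro h; exact absurd h (hspk i)
    · intro h; exact absurd h (inc_peakless m i)
  have hBnd : ((m : ℤ) :: inc m).Nodup := by
    rw [List.nodup_cons]
    refine ⟨?_, nodup_inc m⟩
    intro h
    simp [inc, wd] at h
  obtain ⟨q, hq, e1⟩ := line_mem hb hp hBnd (by simp [hl]) hst
    (t := a :: s) (mem_shuf_single.2 ⟨0, by omega, by simp⟩)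
  have hpq := pk_of_st hb h3 _ _ (nodup_ins hBnd hq) hp (by rw [length_ins _ _ hq]; simp [hl]) e1
  rw [length_inc] at hq
  have e2 : (inc m).take q ++ (m : ℤ) :: (inc m).drop q =
      wd (insf (fun i => (i : ℤ)) q m) 0 (m + 1) := ins_wd _ _ _ _ hq
  rcases Nat.eq_zero_or_pos q with h0 | hpos
  · left
    subst h0
    rw [← e1]
    simp
  · rcases Nat.lt_or_ge q m with hlt | hge
    · exfalso
      have : pk ((inc m).take q ++ (m : ℤ) :: (inc m).drop q) (q - 1) := by
        rw [e2, pk_wd]
        obtain ⟨k, rfl⟩ : ∃ k, q = k + 1 := ⟨q - 1, by omega⟩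
        rw [Nat.add_sub_cancel]
        refine ⟨by omega, ?_, ?_⟩
        · simp only [insf]
          rw [if_pos (by omega), if_neg (by omega)]
          simp
          omega
        · simp only [insf]
          rw [if_neg (by omega), if_neg (by omega), if_neg (by omega)]
          simp
          omega
      exact hpk _ ((hpq _).1 this)
    · right
      have hqm : q = m := by omega
      subst hqm
      rw [← e1, e2]
      apply inc_of_mono' hb
      intro i hi j hj
      simp only [insf, zero_add]
      split_ifs <;> omega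

theorem peakless_const (hb : Bi st) (hc : Cst st 3) (h3 : PkLevel st) {m : ℕ} (hm : 3 ≤ m)
    (ih : ∀ p s : List ℤ, p.Nodup → s.Nodup → p.length = m → s.length = m →
      (∀ i, pk p i ↔ pk s i) → st p = st s) :
    st ((m : ℤ) :: inc m) = st (inc (m + 1)) := by
  classical
  by_contra hne
  set u := st ((m : ℤ) :: inc m) with hu
  set v := st (inc (m + 1)) with hv
  have hBnd : ((m : ℤ) :: inc m).Nodup := by
    rw [List.nodup_cons]
    refine ⟨?_, nodup_inc m⟩
    intro h
    simp [inc, wd] at h
  -- line through the increasing word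
  have hins : ∀ q ≤ m, (inc m).take q ++ (m : ℤ) :: (inc m).drop q =
      wd (insf (fun i => (i : ℤ)) q m) 0 (m + 1) := fun q hq => ins_wd _ _ _ _ hq
  have hv_last : st ((inc m).take m ++ (m : ℤ) :: (inc m).drop m) = v := by
    rw [hins m le_rfl]
    apply inc_of_mono' hb
    intro i hi j hj
    simp only [insf, zero_add]
    split_ifs <;> omega
  have hu_first : st ((inc m).take 0 ++ (m : ℤ) :: (inc m).drop 0) = u := by
    simp [hu]
  have hmidpk : ∀ q, 0 < q → q < m →
      pk ((inc m).take q ++ (m : ℤ) :: (inc m).drop q) (q - 1) := by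
    intro q hpos hlt
    rw [hins q hlt.le, pk_wd]
    obtain ⟨k, rfl⟩ : ∃ k, q = k + 1 := ⟨q - 1, by omega⟩
    rw [Nat.add_sub_cancel]
    refine ⟨by omega, ?_, ?_⟩
    · simp only [insf]
      rw [if_pos (by omega), if_neg (by omega)]
      simp
      omega
    · simp only [insf]
      rw [if_neg (by omega), if_neg (by omega), if_neg (by omega)]
      simp
      omega
  have hBpk : ∀ i, ¬ pk ((m : ℤ) :: inc m) i := by
    intro i h
    cases i with
    | zero =>
      have h1 := h.2.1
      obtain ⟨k, rfl⟩ : ∃ k, m = k + 1 := ⟨m - 1, by omega⟩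
      have : inc (k + 1) = 0 :: wd (fun i => (i : ℤ)) 1 k := by
        have := wd_tail (fun i => (i : ℤ)) 0 k
        unfold inc
        apply List.ext_getElem
        · simp
        · intro i h1 h2
          cases i with
          | zero => simp [wd]
          | succ i => simp [wd]; omega
      rw [this] at h1
      simp at h1
      omega
    | succ i => exact inc_peakless m i ((pk_cons _ _ i).1 h)
  have hmid : ∀ q, 0 < q → q < m → ∀ w : List ℤ, w.Nodup → w.length = m + 1 →
      (∀ i, ¬ pk w i) → st ((inc m).take q ++ (m : ℤ) :: (inc m).drop q) ≠ st w := by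
    intro q hpos hlt w hw hwl hwpk he
    have := pk_of_st hb h3 _ _ (nodup_ins hBnd (by simp; omega)) hw
      (by rw [length_ins _ _ (by simp; omega)]; simp [hwl]) he (q - 1)
    exact hwpk _ (this.1 (hmidpk q hpos hlt))
  have hcount : ∀ x : α, (x = u ∨ x = v) →
      S (fun w => ind (st w = x)) [(m : ℤ)] (inc m) = 1 := by
    intro x hx
    rw [S_single, length_inc, Finset.sum_range_succ]
    obtain ⟨k, rfl⟩ : ∃ k, m = k + 1 := ⟨m - 1, by omega⟩
    rw [Finset.sum_range_succ']
    have hz : ∑ q ∈ Finset.range k, ind (st ((inc (k + 1)).take (q + 1) ++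
        ((k + 1 : ℕ) : ℤ) :: (inc (k + 1)).drop (q + 1)) = x) = 0 := by
      apply Finset.sum_eq_zero
      intro q hq
      rw [Finset.mem_range] at hq
      apply ind_false
      rcases hx with rfl | rfl
      · exact hmid (q + 1) (by omega) (by omega) _ hBnd (by simp) hBpk
      · exact hmid (q + 1) (by omega) (by omega) _ (nodup_inc _) (by simp) (inc_peakless _)
    rw [hz, hv_last, hu_first]
    rcases hx with rfl | rfl
    · rw [ind_true rfl, ind_false (fun h => hne h.symm)]; norm_num
    · rw [ind_false hne, ind_true rfl]; norm_num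
  -- uniqueness in every line with peakless base
  have huniq : ∀ (x : α), (x = u ∨ x = v) → ∀ (a : ℤ) (s : List ℤ), (a :: s).Nodup →
      s.length = m → (∀ i, ¬ pk s i) → ∀ q q', q < q' → q' ≤ m →
      st (s.take q ++ a :: s.drop q) = x → st (s.take q' ++ a :: s.drop q') = x → False := by
    intro x hx a s has hsl hspk q q' hqq hq' e1 e2
    have hsn := (List.nodup_cons.1 has).2
    have hst : st s = st (inc m) := by
      apply ih s _ hsn (nodup_inc m) hsl (length_inc m)
      intro i
      constructor
      · intro h; exact absurd h (hspk i)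
      · intro h; exact absurd h (inc_peakless m i)
    have h1 : S (fun w => ind (st w = x)) [a] s = 1 := by
      rw [← hcount x hx]
      exact S_single_eq hb (meas_of_st (fun y => y = x)) has hBnd hsl (length_inc m) hst
    rw [S_single, hsl] at h1
    have hsub : ({q, q'} : Finset ℕ) ⊆ Finset.range (m + 1) := by
      intro z hz
      rw [Finset.mem_insert, Finset.mem_singleton] at hz
      rw [Finset.mem_range]
      omega
    have h2 : ∑ z ∈ ({q, q'} : Finset ℕ), ind (st (s.take z ++ a :: s.drop z) = x) ≤
        ∑ z ∈ Finset.range (m + 1), ind (st (s.take z ++ a :: s.drop z) = x) := by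
      apply Finset.sum_le_sum_of_subset_of_nonneg hsub
      intro z _ _
      unfold ind
      split_ifs <;> norm_num
    rw [Finset.sum_pair hqq.ne, ind_true e1, ind_true e2, h1] at h2
    norm_num at h2
  have htwo := peakless_two hb h3 ih
  -- second largest letter in front
  set E : ℕ → ℤ := fun j => 2 * (j : ℤ) with hE
  have hEi : Function.Injective E := by
    intro i j h; simp only [E] at h; omega
  have hEpk : ∀ i, ¬ pk (wd E 0 m) i := by
    intro i h
    rw [pk_wd] at h
    simp only [E] at h
    omega
  set a : ℤ := 2 * (m : ℤ) - 3 with ha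
  have haE : Function.Injective (insf E 0 a) := by
    apply inj_insf hEi
    intro j
    simp only [E]
    omega
  have haEnd : (a :: wd E 0 m).Nodup := by
    rw [cons_wd]; exact nodup_wd haE _ _
  have hf1 : st (a :: wd E 0 m) = u := by
    have hpkless : ∀ i, ¬ pk (a :: wd E 0 m) i := by
      intro i h
      rw [cons_wd, pk_wd] at h
      simp only [insf, E] at h
      obtain ⟨h0, h1, h2⟩ := h
      rw [if_neg (by omega), if_neg (by omega), if_neg (by omega), if_neg (by omega)] at h2
      omega
    rcases htwo _ haEnd (by simp) hpkless with h | h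
    · exact h
    · exfalso
      refine huniq v (Or.inr rfl) a (wd E 0 m) haEnd (by simp) hEpk 0 (m - 1) (by omega)
        (by omega) (by simpa using h) ?_
      rw [ins_wd _ _ _ _ (by omega)]
      apply inc_of_mono' hb
      intro i hi j hj
      simp only [insf, zero_add, E]
      split_ifs <;> omega
  -- two big letters in front
  set B1 : ℤ := (m : ℤ) with hB1
  set B2 : ℤ := (m : ℤ) + 1 with hB2
  obtain ⟨k, hk⟩ : ∃ k, m = k + 1 := ⟨m - 1, by omega⟩
  set f1 : ℕ → ℤ := insf (fun i => (i : ℤ)) 0 B1 with hf1def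
  have hf1nd : (wd f1 0 m).Nodup := by
    apply nodup_wd'
    intro i hi j hj h
    simp only [f1, insf, zero_add] at h
    split_ifs at h <;> omega
  have hf1pk : ∀ i, ¬ pk (wd f1 0 m) i := by
    intro i h
    rw [pk_wd] at h
    obtain ⟨h0, h1, h2⟩ := h
    simp only [f1, insf] at h2
    rw [if_neg (by omega), if_neg (by omega), if_neg (by omega), if_neg (by omega)] at h2
    omega
  have hB2nd : (B2 :: wd f1 0 m).Nodup := by
    rw [cons_wd]
    apply nodup_wd'
    intro i hi j hj h
    simp only [f1, insf, zero_add] at h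
    split_ifs at h <;> omega
  have hf2 : st (B2 :: wd f1 0 m) = v := by
    have hpkless : ∀ i, ¬ pk (B2 :: wd f1 0 m) i := by
      intro i h
      rw [cons_wd, pk_wd] at h
      obtain ⟨h0, h1, h2⟩ := h
      simp only [f1, insf] at h1 h2
      split_ifs at h1 h2 <;> omega
    rcases htwo _ hB2nd (by simp) hpkless with h | h
    · exfalso
      refine huniq u (Or.inl rfl) B2 (wd f1 0 m) hB2nd (by simp) hf1pk 0 m (by omega)
        le_rfl (by simpa using h) ?_
      rw [← hf1, ins_wd _ _ _ _ le_rfl, cons_wd]
      symm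
      apply st_wd_eq hb (nodup_wd haE _ _)
      intro i hi j hj
      simp only [f1, insf, zero_add, E]
      split_ifs <;> omega
    · exact h
  -- the function on the next level
  let Fv : List ℤ → ℚ := fun w => ind (st w = v) - ind (st w = u)
  have hFv : Meas st (m + 1) Fv := by
    intro p s _ _ _ _ h
    simp only [Fv, h]
  have hFvv : ∀ w, st w = v → Fv w = 1 := by
    intro w h
    simp only [Fv]
    rw [ind_true h, ind_false (by rw [h]; exact fun h' => hne h'.symm)]
    norm_num
  have hFvu : ∀ w, st w = u → Fv w = -1 := by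
    intro w h
    simp only [Fv]
    rw [ind_true h, ind_false (by rw [h]; exact hne)]
    norm_num
  have hFv0 : ∀ w : List ℤ, w.Nodup → w.length = m + 1 → (∃ i, pk w i) → Fv w = 0 := by
    rintro w hw hwl ⟨i, hi⟩
    simp only [Fv]
    rw [ind_false, ind_false]
    · norm_num
    · intro h
      exact hBpk i ((pk_of_st hb h3 _ _ hw hBnd (by simp [hwl]) h i).1 hi)
    · intro h
      exact inc_peakless _ i ((pk_of_st hb h3 _ _ hw (nodup_inc _) (by simp [hwl]) h i).1 hi)
  let H : List ℤ → ℚ := fun w =>
    if w.Nodup ∧ w.length = m + 2 then Fv w.dropLast * Fv w.tail else 0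
  have hHof : ∀ w : List ℤ, w.Nodup → w.length = m + 2 → H w = Fv w.dropLast * Fv w.tail := by
    intro w h1 h2; exact if_pos ⟨h1, h2⟩
  have hHmeas : Meas st (m + 2) H := by
    intro p s hp hs hpl hsl h
    rw [hHof p hp hpl, hHof s hs hsl]
    have e1 : ∀ t : List ℤ, t.length = m + 2 → t.dropLast = (t.drop 0).take (m + 1) := by
      intro t ht
      rw [List.dropLast_eq_take, ht]; simp
    have e2 : ∀ t : List ℤ, t.length = m + 2 → t.tail = (t.drop 1).take (m + 1) := by
      intro t ht
      rw [List.drop_one, List.take_of_length_le]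
      simp [ht]
    rw [e1 p hpl, e1 s hsl, e2 p hpl, e2 s hsl]
    exact congrArg₂ (· * ·) (hFv.window hb 0 (m + 2) (by omega) p s hp hs hpl hsl h)
      (hFv.window hb 1 (m + 2) (by omega) p s hp hs hpl hsl h)
  have hHpk : ∀ w, HasPk w → H w = 0 := by
    rintro w ⟨x, a, b, c, y, rfl, h1, h2⟩
    by_cases hw : (x ++ a :: b :: c :: y).Nodup ∧ (x ++ a :: b :: c :: y).length = m + 2
    · rw [hHof _ hw.1 hw.2]
      by_cases hy : y = []
      · subst hy
        have hx : x ≠ [] := by
          intro hx; subst hx
          simp at hw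
          omega
        obtain ⟨x0, x', rfl⟩ : ∃ x0 x', x = x0 :: x' := by
          cases x with
          | nil => exact absurd rfl hx
          | cons x0 x' => exact ⟨x0, x', rfl⟩
        rw [hFv0 (x0 :: x' ++ a :: b :: c :: []).tail, mul_zero]
        · exact hw.1.sublist (List.tail_sublist _)
        · rw [List.length_tail, hw.2]; omega
        · exact HasPk.pk ⟨x', a, b, c, [], rfl, h1, h2⟩
      · rw [hFv0 (x ++ a :: b :: c :: y).dropLast, zero_mul]
        · exact hw.1.sublist (List.dropLast_sublist _)
        · rw [List.length_dropLast, hw.2]; omega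
        · refine HasPk.pk ⟨x, a, b, c, y.dropLast, ?_, h1, h2⟩
          rw [List.dropLast_append_of_ne_nil (by simp)]
          congr 1
          rw [List.dropLast_cons_of_ne_nil (by simp), List.dropLast_cons_of_ne_nil (by simp),
            List.dropLast_cons_of_ne_nil hy]
    · exact if_neg hw
  -- compare the two orders
  have hincc : inc m = 0 :: wd (fun i => (i : ℤ)) 1 k := by
    subst hk
    unfold inc
    apply List.ext_getElem
    · simp
    · intro i h1 h2
      cases i with
      | zero => simp [wd]
      | succ i => simp [wd]; omega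
  have hlt1 : ∀ w ∈ (0 : ℤ) :: wd (fun i => (i : ℤ)) 1 k, w < B1 := by
    intro w hw
    rw [← hincc] at hw
    simp only [inc, wd, List.mem_map, List.mem_range, zero_add] at hw
    obtain ⟨i, hi, rfl⟩ := hw
    omega
  have hlt2 : ∀ w ∈ (0 : ℤ) :: wd (fun i => (i : ℤ)) 1 k, w < B2 := by
    intro w hw
    have := hlt1 w hw
    omega
  have hnd12 : ([B1, B2] ++ inc m).Nodup := by
    have : [B1, B2] ++ inc m = B1 :: B2 :: wd (fun i => (i : ℤ)) 0 m := rfl
    rw [this, cons_wd, cons_wd]
    apply nodup_wd'
    intro i hi j hj h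
    simp only [insf, zero_add] at h
    split_ifs at h <;> omega
  have hnd21 : ([B2, B1] ++ inc m).Nodup := by
    have : ([B2, B1] ++ inc m).Perm ([B1, B2] ++ inc m) :=
      (List.Perm.swap _ _ _).append_right _
    rw [this.nodup_iff]; exact hnd12
  have hSeq : S H [B1, B2] (inc m) = S H [B2, B1] (inc m) := by
    apply S_eq hb hHmeas hnd12 hnd21 rfl rfl (by simp; omega) _ rfl
    apply hc
    · exact hnd12.of_append_left
    · exact hnd21.of_append_left
    · rfl
    · simp
  have c1 := lemC hHpk (wd (fun i => (i : ℤ)) 1 k) 0 B1 B2 (by omega) hlt1 hlt2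
  have c2 := lemC hHpk (wd (fun i => (i : ℤ)) 1 k) 0 B2 B1 (by omega) hlt2 hlt1
  rw [← hincc] at c1 c2
  have r1 : ∀ y : ℤ, (0 : ℤ) :: (wd (fun i => (i : ℤ)) 1 k ++ [y]) = inc m ++ [y] := by
    intro y; rw [hincc]; rfl
  have r2 : ∀ x y : ℤ, (0 : ℤ) :: (wd (fun i => (i : ℤ)) 1 k ++ [x, y]) = (inc m ++ [x]) ++ [y] := by
    intro x y; rw [hincc]; simp
  rw [r1, r2] at c1 c2
  have w1 : ∀ x y : ℤ, x :: y :: inc m = wd (insf (insf (fun i => (i : ℤ)) 0 y) 0 x) 0 (m + 2) := by
    intro x y
    unfold inc
    rw [cons_wd, cons_wd]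
  have w2 : ∀ x y : ℤ, x :: (inc m ++ [y]) =
      wd (insf (insf (fun i => (i : ℤ)) m y) 0 x) 0 (m + 2) := by
    intro x y
    unfold inc
    rw [snoc_wd, cons_wd]
  have w3 : ∀ x y : ℤ, (inc m ++ [x]) ++ [y] =
      wd (insf (insf (fun i => (i : ℤ)) m x) (m + 1) y) 0 (m + 2) := by
    intro x y
    unfold inc
    rw [snoc_wd, snoc_wd]
  -- values
  have a1 : H (B1 :: B2 :: inc m) = 0 := by
    apply hHpk
    rw [hincc]
    exact ⟨[], B1, B2, 0, _, rfl, by omega, by omega⟩
  have hndins : ∀ (f : ℕ → ℤ) (n : ℕ), (∀ i < n, ∀ j < n, f i = f j → i = j) →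
      (wd f 0 n).Nodup := by
    intro f n h
    apply nodup_wd'
    intro i hi j hj hij
    rw [zero_add, zero_add] at hij
    exact h i hi j hj hij
  have hu' : ∀ (f : ℕ → ℤ) (l : ℕ), (∀ i < m + 1, ∀ j < m + 1, (f (l + i) < f (l + j) ↔
      insf (fun i => (i : ℤ)) 0 m i < insf (fun i => (i : ℤ)) 0 m j)) →
      st (wd f l (m + 1)) = u := by
    intro f l h
    rw [hu]
    unfold inc
    rw [cons_wd]
    symm
    apply st_wd_eq hb
    · rw [← cons_wd]; exact hBnd
    · intro i hi j hj
      rw [zero_add, zero_add]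
      exact (h i hi j hj).symm
  have a2 : H (B1 :: (inc m ++ [B2])) = -1 := by
    rw [w2, hHof _ _ (by simp), wd_dropLast, wd_tail, hFvu, hFvv]
    · norm_num
    · apply inc_of_mono' hb
      intro i hi j hj
      simp only [insf]
      split_ifs <;> omega
    · apply hu'
      intro i hi j hj
      simp only [insf]
      split_ifs <;> omega
    · apply hndins
      intro i hi j hj h
      simp only [insf] at h
      split_ifs at h <;> omega
  have a3 : H ((inc m ++ [B1]) ++ [B2]) = 1 := by
    rw [w3, hHof _ _ (by simp), wd_dropLast, wd_tail, hFvv, hFvv]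
    · norm_num
    · apply inc_of_mono' hb
      intro i hi j hj
      simp only [insf]
      split_ifs <;> omega
    · apply inc_of_mono' hb
      intro i hi j hj
      simp only [insf]
      split_ifs <;> omega
    · apply hndins
      intro i hi j hj h
      simp only [insf] at h
      split_ifs at h <;> omega
  have b1 : H (B2 :: B1 :: inc m) = -1 := by
    rw [w1, hHof _ _ (by simp), wd_dropLast, wd_tail, hFvv, hFvu]
    · norm_num
    · apply hu'
      intro i hi j hj
      simp only [insf]
      split_ifs <;> omega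
    · rw [← hf2, cons_wd]
    · apply hndins
      intro i hi j hj h
      simp only [insf] at h
      split_ifs at h <;> omega
  have b2 : H (B2 :: (inc m ++ [B1])) = -1 := by
    rw [w2, hHof _ _ (by simp), wd_dropLast, wd_tail, hFvu, hFvv]
    · norm_num
    · apply inc_of_mono' hb
      intro i hi j hj
      simp only [insf]
      split_ifs <;> omega
    · apply hu'
      intro i hi j hj
      simp only [insf]
      split_ifs <;> omega
    · apply hndins
      intro i hi j hj h
      simp only [insf] at h
      split_ifs at h <;> omega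
  have b3 : H ((inc m ++ [B2]) ++ [B1]) = 0 := by
    apply hHpk
    have : inc m = inc k ++ [(k : ℤ)] := by
      subst hk
      unfold inc
      rw [snoc_wd]
      apply List.ext_getElem
      · simp
      · intro i h1 h2
        simp only [getElem_wd, insf, zero_add]
        simp only [length_wd] at h2
        split_ifs <;> omega
    rw [this]
    exact ⟨inc k, k, B2, B1, [], by simp, by omega, by omega⟩
  rw [a1, a2, a3] at c1
  rw [b1, b2, b3] at c2
  rw [c1, c2] at hSeq
  norm_num at hSeq

end

end Pool.Agent.Bicomp
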