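import Mathlib

namespace Pool.Agent.Bicomp

variable {K : Type*}

/-- The list of all shuffles of two words. -/
def shuf : List K → List K → List (List K)
  | [], s => [s]
  | a :: p, [] => [a :: p]
  | a :: p, b :: s =>
      (shuf p (b :: s)).map (List.cons a) ++ (shuf (a :: p) s).map (List.cons b)
termination_by p s => p.length + s.length

@[simp] theorem shuf_nil_left (s : List K) : shuf [] s = [s] := by
  rw [shuf]

@[simp] theorem shuf_nil_right (p : List K) : shuf p [] = [p] := by
  cases p <;> rw [shuf]

theorem shuf_cons_cons (a : K) (p : List K) (b : K) (s : List K) :
    shuf (a :: p) (b :: s) =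
      (shuf p (b :: s)).map (List.cons a) ++ (shuf (a :: p) s).map (List.cons b) := by
  rw [shuf]

/-- Sum of `F` over all shuffles. -/
def S (F : List K → ℚ) (p s : List K) : ℚ := ((shuf p s).map F).sum

@[simp] theorem S_nil_left (F : List K → ℚ) (s : List K) : S F [] s = F s := by
  simp [S]

@[simp] theorem S_nil_right (F : List K → ℚ) (p : List K) : S F p [] = F p := by
  simp [S]

theorem S_cons_cons (F : List K → ℚ) (a : K) (p : List K) (b : K) (s : List K) :
    S F (a :: p) (b :: s) =
      S (fun t => F (a :: t)) p (b :: s) + S (fun t => F (b :: t)) (a :: p) s := by
  simp [S, shuf_cons_cons, Function.comp_def]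

theorem S_add (F G : List K → ℚ) (p s : List K) :
    S (fun t => F t + G t) p s = S F p s + S G p s := by
  simp [S, List.sum_map_add]

theorem S_smul (c : ℚ) (F : List K → ℚ) (p s : List K) :
    S (fun t => c * F t) p s = c * S F p s := by
  simp [S, List.sum_map_mul_left]

theorem S_congr {F G : List K → ℚ} {p s : List K} (h : ∀ t ∈ shuf p s, F t = G t) :
    S F p s = S G p s := by
  unfold S
  rw [List.map_congr_left h]

theorem S_zero {F : List K → ℚ} {p s : List K} (h : ∀ t ∈ shuf p s, F t = 0) :
    S F p s = 0 := by
  rw [S_congr (G := fun _ => 0) h]
  simp [S]

/-- Every shuffle is a rearrangement of the concatenation. -/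
theorem perm_of_mem_shuf : ∀ (N : ℕ) (p s t : List K), p.length + s.length = N →
    t ∈ shuf p s → t.Perm (p ++ s) := by
  intro N
  induction N with
  | zero =>
    intro p s t h ht
    have hp : p = [] := List.length_eq_zero_iff.1 (by omega)
    subst hp
    simp at ht
    subst ht
    simp
  | succ N ih =>
    intro p s t h ht
    cases p with
    | nil =>
      simp at ht
      subst ht
      simp
    | cons a p =>
      cases s with
      | nil =>
        simp at ht
        subst ht
        simp
      | cons b s =>
        rw [shuf_cons_cons, List.mem_append, List.mem_map, List.mem_map] at ht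
        simp only [List.length_cons] at h
        rcases ht with ⟨u, hu, rfl⟩ | ⟨u, hu, rfl⟩
        · have := ih p (b :: s) u (by simp; omega) hu
          simpa using this.cons a
        · have := ih (a :: p) s u (by simp; omega) hu
          have h2 := this.cons b
          exact h2.trans (by
            simpa using (List.perm_middle (a := b) (l₁ := a :: p) (l₂ := s)).symm)

theorem perm_shuf {p s t : List K} (ht : t ∈ shuf p s) : t.Perm (p ++ s) :=
  perm_of_mem_shuf _ p s t rfl ht

theorem length_of_mem_shuf {p s t : List K} (ht : t ∈ shuf p s) :
    t.length = p.length + s.length := by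
  simpa using (perm_shuf ht).length_eq

theorem nodup_of_mem_shuf {p s t : List K} (ht : t ∈ shuf p s) (h : (p ++ s).Nodup) :
    t.Nodup := (perm_shuf ht).nodup_iff.2 h

theorem shuf_perm_comm : ∀ (N : ℕ) (p s : List K), p.length + s.length = N →
    (shuf p s).Perm (shuf s p) := by
  intro N
  induction N with
  | zero =>
    intro p s h
    have hp : p = [] := List.length_eq_zero_iff.1 (by omega)
    have hs : s = [] := List.length_eq_zero_iff.1 (by omega)
    subst hp hs
    simp
  | succ N ih =>
    intro p s h
    cases p with
    | nil => simp
    | cons a p =>
      cases s with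
      | nil => simp
      | cons b s =>
        rw [shuf_cons_cons, shuf_cons_cons]
        simp only [List.length_cons] at h
        have h1 := (ih p (b :: s) (by simp; omega)).map (List.cons a)
        have h2 := (ih (a :: p) s (by simp; omega)).map (List.cons b)
        exact (h1.append h2).trans List.perm_append_comm

theorem S_comm (F : List K → ℚ) (p s : List K) : S F p s = S F s p := by
  unfold S
  exact ((shuf_perm_comm _ p s rfl).map F).sum_eq

theorem S_assoc_aux : ∀ (N : ℕ) (F : List K → ℚ) (p s r : List K),
    p.length + s.length + r.length = N →
    S (fun t => S F t r) p s = S (fun t => S F p t) s r := by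
  intro N
  induction N with
  | zero =>
    intro F p s r h
    have hp : p = [] := List.length_eq_zero_iff.1 (by omega)
    have hs : s = [] := List.length_eq_zero_iff.1 (by omega)
    have hr : r = [] := List.length_eq_zero_iff.1 (by omega)
    subst hp hs hr
    simp
  | succ N ih =>
    intro F p s r h
    cases p with
    | nil => simp
    | cons a p =>
      cases s with
      | nil => simp
      | cons b s =>
        cases r with
        | nil => simp
        | cons c r =>
          simp only [List.length_cons] at h
          have e1 : S (fun t => S F t (c :: r)) (a :: p) (b :: s) =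
              S (fun t => S F (a :: t) (c :: r)) p (b :: s) +
              S (fun t => S F (b :: t) (c :: r)) (a :: p) s := S_cons_cons _ _ _ _ _
          have e2 : S (fun t => S F (a :: p) t) (b :: s) (c :: r) =
              S (fun t => S F (a :: p) (b :: t)) s (c :: r) +
              S (fun t => S F (a :: p) (c :: t)) (b :: s) r := S_cons_cons _ _ _ _ _
          rw [e1, e2]
          simp only [S_cons_cons F]
          rw [S_add, S_add, S_add, S_add]
          have i1 := ih (fun t => F (a :: t)) p (b :: s) (c :: r) (by simp; omega)
          have i2 := ih (fun t => F (b :: t)) (a :: p) s (c :: r) (by simp; omega)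
          have i3 := ih (fun t => F (c :: t)) (a :: p) (b :: s) r (by simp; omega)
          rw [S_cons_cons] at i3
          have i1' : S (fun t => S (fun t => F (a :: t)) p t) (b :: s) (c :: r) =
              S (fun t => S (fun t => F (a :: t)) p (b :: t)) s (c :: r) +
              S (fun t => S (fun t => F (a :: t)) p (c :: t)) (b :: s) r :=
            S_cons_cons _ _ _ _ _
          rw [i1'] at i1
          linarith

theorem S_assoc (F : List K → ℚ) (p s r : List K) :
    S (fun t => S F t r) p s = S (fun t => S F p t) s r :=
  S_assoc_aux _ F p s r rfl

/-- The alternating sum of the antipode identity. -/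
def anti (F : List K → ℚ) : List K → List K → ℚ
  | u, [] => F u
  | u, a :: v => S F u (a :: v) - anti F (a :: u) v

theorem anti_eq (F : List K → ℚ) (v : List K) : ∀ (b : K) (u : List K),
    anti F (b :: u) v = S (fun t => F (b :: t)) u v := by
  induction v with
  | nil => intro b u; simp [anti]
  | cons a v ih =>
    intro b u
    rw [anti, ih, S_cons_cons]
    ring

theorem anti_eq_of_kill (F : List K → ℚ) (v : List K) : ∀ (u : List K), u ≠ [] →
    (∀ p s : List K, p ≠ [] → s ≠ [] → (p ++ s).Perm (u ++ v) → S F p s = 0) →
    anti F u v = (-1) ^ v.length * F (v.reverse ++ u) := by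
  induction v with
  | nil => intro u _ _; simp [anti]
  | cons a v ih =>
    intro u hu h
    rw [anti, h u (a :: v) hu (by simp) (List.Perm.refl _)]
    rw [ih (a :: u) (by simp)]
    · simp [pow_succ]
    · intro p s hp hs hps
      apply h p s hp hs
      refine hps.trans ?_
      simpa using (List.perm_middle (a := a) (l₁ := u) (l₂ := v)).symm

/-- The identity satisfied by functions vanishing on all proper shuffles. -/
theorem lie_identity (F : List K → ℚ) (b : K) (u v : List K)
    (h : ∀ p s : List K, p ≠ [] → s ≠ [] → (p ++ s).Perm (b :: u ++ v) → S F p s = 0) :
    S (fun t => F (b :: t)) u v = (-1) ^ v.length * F (v.reverse ++ b :: u) := by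
  rw [← anti_eq, anti_eq_of_kill F v (b :: u) (by simp) h]

/-- Reversal of the set of shuffles. -/
theorem shuf_append_right : ∀ (N : ℕ) (p s : List K) (a b : K), p.length + s.length = N →
    (shuf (p ++ [a]) (s ++ [b])).Perm
      ((shuf p (s ++ [b])).map (· ++ [a]) ++ (shuf (p ++ [a]) s).map (· ++ [b])) := by
  intro N
  induction N with
  | zero =>
    intro p s a b h
    have hp : p = [] := List.length_eq_zero_iff.1 (by omega)
    have hs : s = [] := List.length_eq_zero_iff.1 (by omega)
    subst hp hs
    simp [shuf_cons_cons]
    exact List.Perm.swap _ _ _
  | succ N ih =>
    intro p s a b h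
    cases p with
    | nil =>
      cases s with
      | nil =>
        simp at h
      | cons d s =>
        simp only [List.length_cons, List.length_nil] at h
        have i1 := ih [] s a b (by simp; omega)
        simp only [List.nil_append, shuf_nil_left, List.map_cons, List.map_nil] at i1 ⊢
        rw [List.cons_append, shuf_cons_cons, shuf_cons_cons]
        have i2 := i1.map (List.cons d)
        simp only [List.map_append, List.map_map, List.map_cons, List.map_nil,
          shuf_nil_left] at i2 ⊢
        refine (List.Perm.append_left _ i2).trans ?_
        simp [Function.comp_def]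
        exact List.Perm.swap _ _ _
    | cons c p =>
      cases s with
      | nil =>
        simp only [List.length_cons, List.length_nil] at h
        have i1 := ih p [] a b (by simp; omega)
        simp only [List.nil_append, shuf_nil_right, List.map_cons, List.map_nil] at i1 ⊢
        rw [List.cons_append, shuf_cons_cons, shuf_cons_cons]
        have i2 := i1.map (List.cons c)
        simp only [List.map_append, List.map_map, List.map_cons, List.map_nil,
          shuf_nil_right] at i2 ⊢
        refine (List.Perm.append_right _ i2).trans ?_
        simp only [Function.comp_def, List.append_assoc, List.cons_append, List.nil_append]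
        refine List.Perm.append_left _ ?_
        exact List.Perm.swap _ _ _
      | cons d s =>
        simp only [List.length_cons] at h
        have i1 := (ih p (d :: s) a b (by simp; omega)).map (List.cons c)
        have i2 := (ih (c :: p) s a b (by simp; omega)).map (List.cons d)
        rw [List.cons_append, List.cons_append, shuf_cons_cons, shuf_cons_cons, shuf_cons_cons]
        rw [List.cons_append] at i1 i2
        refine (i1.append i2).trans ?_
        simp only [List.map_append, List.map_map, Function.comp_def, List.cons_append,
          List.append_assoc]
        refine List.Perm.append_left _ ?_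
        rw [← List.append_assoc, ← List.append_assoc]
        refine List.Perm.append_right _ ?_
        exact List.perm_append_comm

theorem shuf_reverse : ∀ (N : ℕ) (p s : List K), p.length + s.length = N →
    ((shuf p s).map List.reverse).Perm (shuf p.reverse s.reverse) := by
  intro N
  induction N with
  | zero =>
    intro p s h
    have hp : p = [] := List.length_eq_zero_iff.1 (by omega)
    have hs : s = [] := List.length_eq_zero_iff.1 (by omega)
    subst hp hs
    simp
  | succ N ih =>
    intro p s h
    cases p with
    | nil => simp
    | cons a p =>
      cases s with
      | nil => simp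
      | cons b s =>
        simp only [List.length_cons] at h
        have i1 := (ih p (b :: s) (by simp; omega)).map (· ++ [a])
        have i2 := (ih (a :: p) s (by simp; omega)).map (· ++ [b])
        rw [shuf_cons_cons, List.reverse_cons, List.reverse_cons]
        refine List.Perm.trans ?_ (shuf_append_right _ p.reverse s.reverse a b rfl).symm
        rw [List.reverse_cons] at i1 i2
        simp only [List.map_append, List.map_map, Function.comp_def, List.reverse_cons] at i1 i2 ⊢
        exact i1.append i2

theorem S_reverse (F : List K → ℚ) (p s : List K) :
    S (fun t => F t.reverse) p s = S F p.reverse s.reverse := by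
  unfold S
  have h := ((shuf_reverse _ p s rfl).map F).sum_eq
  rw [← h, List.map_map]
  rfl

theorem shuf_map {L : Type*} (f : K → L) : ∀ (N : ℕ) (p s : List K), p.length + s.length = N →
    shuf (p.map f) (s.map f) = (shuf p s).map (List.map f) := by
  intro N
  induction N with
  | zero =>
    intro p s h
    have hp : p = [] := List.length_eq_zero_iff.1 (by omega)
    have hs : s = [] := List.length_eq_zero_iff.1 (by omega)
    subst hp hs
    simp
  | succ N ih =>
    intro p s h
    cases p with
    | nil => simp
    | cons a p =>
      cases s with
      | nil => simp
      | cons b s =>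
        simp only [List.length_cons] at h
        have i1 := ih p (b :: s) (by simp; omega)
        have i2 := ih (a :: p) s (by simp; omega)
        simp only [List.map_cons] at i1 i2 ⊢
        rw [shuf_cons_cons, shuf_cons_cons, i1, i2]
        simp [List.map_map, Function.comp_def]

/-- Sum over the shuffles with a single letter. -/
theorem S_single (F : List K → ℚ) (a : K) (s : List K) :
    S F [a] s = ∑ q ∈ Finset.range (s.length + 1), F (s.take q ++ a :: s.drop q) := by
  induction s generalizing F with
  | nil => simp
  | cons b s ih =>
    rw [S_cons_cons, S_nil_left, ih (fun t => F (b :: t)), List.length_cons,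
      Finset.sum_range_succ' _ (s.length + 1)]
    simp [add_comm]

theorem mem_shuf_single {a : K} {s t : List K} :
    t ∈ shuf [a] s ↔ ∃ q ≤ s.length, t = s.take q ++ a :: s.drop q := by
  induction s generalizing t with
  | nil => simp
  | cons b s ih =>
    rw [shuf_cons_cons, shuf_nil_left, List.mem_append, List.mem_map, List.mem_map]
    constructor
    · rintro (⟨u, hu, rfl⟩ | ⟨u, hu, rfl⟩)
      · simp only [List.mem_singleton] at hu
        subst hu
        exact ⟨0, by simp, by simp⟩
      · obtain ⟨q, hq, rfl⟩ := ih.1 hu
        exact ⟨q + 1, by simp [hq], by simp⟩
    · rintro ⟨q, hq, rfl⟩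
      cases q with
      | zero => left; exact ⟨b :: s, by simp, by simp⟩
      | succ q =>
        right
        exact ⟨s.take q ++ a :: s.drop q, ih.2 ⟨q, by simpa using hq, rfl⟩, by simp⟩

theorem length_shuf_single (a : K) (s : List K) : (shuf [a] s).length = s.length + 1 := by
  induction s with
  | nil => simp
  | cons b s ih =>
    rw [shuf_cons_cons]
    simp [ih]

/-- In terms of tails: each shuffle starts with the head of one of the words. -/
theorem S_tail (F : List K → ℚ) (p s : List K) (hp : p ≠ []) (hs : s ≠ []) :
    S (fun t => F t.tail) p s = S F p.tail s + S F p s.tail := by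
  cases p with
  | nil => exact absurd rfl hp
  | cons a p =>
    cases s with
    | nil => exact absurd rfl hs
    | cons b s =>
      rw [S_cons_cons]
      simp

end Pool.Agent.Bicomp
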