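import Pool.Agent.Bicomp.Defs
import Pool.Agent.Bicomp.Level3

namespace Pool.Agent.Bicomp

section Shuffles

variable {K : Type*}

theorem sublist_of_mem_shuf : ∀ (N : ℕ) (p s t : List K), p.length + s.length = N →
    t ∈ shuf p s → p.Sublist t ∧ s.Sublist t := by
  intro N
  induction N with
  | zero =>
    intro p s t h ht
    have hp : p = [] := List.length_eq_zero_iff.1 (by omega)
    have hs : s = [] := List.length_eq_zero_iff.1 (by omega)
    subst hp hs
    simp
  | succ N ih =>
    intro p s t h ht
    cases p with
    | nil =>
      simp only [shuf_nil_left, List.mem_singleton] at ht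
      subst ht
      simp
    | cons a p =>
      cases s with
      | nil =>
        simp only [shuf_nil_right, List.mem_singleton] at ht
        subst ht
        simp
      | cons b s =>
        simp only [List.length_cons] at h
        rw [shuf_cons_cons, List.mem_append, List.mem_map, List.mem_map] at ht
        rcases ht with ⟨t', ht', rfl⟩ | ⟨t', ht', rfl⟩
        · have := ih p (b :: s) t' (by simp; omega) ht'
          exact ⟨this.1.cons_cons a, this.2.cons a⟩
        · have := ih (a :: p) s t' (by simp; omega) ht'
          exact ⟨this.1.cons b, this.2.cons_cons b⟩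

theorem mem_shuf_of_sublist : ∀ (t p s : List K), (p ++ s).Nodup →
    t.length = p.length + s.length → p.Sublist t → s.Sublist t → t ∈ shuf p s := by
  intro t
  induction t with
  | nil =>
    intro p s _ hl _ _
    simp only [List.length_nil] at hl
    have hp : p = [] := List.length_eq_zero_iff.1 (by omega)
    have hs : s = [] := List.length_eq_zero_iff.1 (by omega)
    subst hp hs
    simp
  | cons c t ih =>
    intro p s hnd hl h1 h2
    cases p with
    | nil =>
      have := h2.eq_of_length (by simpa using hl.symm)
      rw [this]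
      simp
    | cons a p =>
      cases s with
      | nil =>
        have := h1.eq_of_length (by simpa using hl.symm)
        rw [this]
        simp
      | cons b s =>
        rw [shuf_cons_cons, List.mem_append, List.mem_map, List.mem_map]
        simp only [List.length_cons] at hl
        have hab : a ≠ b := by
          rintro rfl
          simp at hnd
        by_cases hac : a = c
        · subst hac
          left
          refine ⟨t, ?_, rfl⟩
          apply ih
          · exact (List.nodup_cons.1 hnd).2
          · simp only [List.length_cons]; omega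
          · exact List.cons_sublist_cons.1 h1
          · rcases List.sublist_cons_iff.1 h2 with h | ⟨r, hr, _⟩
            · exact h
            · exact absurd (by simpa using hr) (fun h : b = a ∧ s = r => hab h.1.symm)
        · have h1' : (a :: p).Sublist t := by
            rcases List.sublist_cons_iff.1 h1 with h | ⟨r, hr, _⟩
            · exact h
            · exact absurd (by simpa using hr) (fun h : a = c ∧ p = r => hac h.1)
          by_cases hbc : b = c
          · subst hbc
            right
            refine ⟨t, ?_, rfl⟩
            apply ih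
            · exact hnd.sublist ((List.sublist_cons_self b s).append_left _)
            · simp only [List.length_cons]; omega
            · exact h1'
            · exact List.cons_sublist_cons.1 h2
          · exfalso
            have h2' : (b :: s).Sublist t := by
              rcases List.sublist_cons_iff.1 h2 with h | ⟨r, hr, _⟩
              · exact h
              · exact absurd (by simpa using hr) (fun h : b = c ∧ s = r => hbc h.1)
            have hsub : (a :: p ++ b :: s) ⊆ t := by
              intro x hx
              rcases List.mem_append.1 hx with hx | hx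
              · exact h1'.subset hx
              · exact h2'.subset hx
            have := (List.subperm_of_subset hnd hsub).length_le
            simp only [List.length_append, List.length_cons] at this
            omega

theorem nodup_shuf : ∀ (N : ℕ) (p s : List K), p.length + s.length = N → (p ++ s).Nodup →
    (shuf p s).Nodup := by
  intro N
  induction N with
  | zero =>
    intro p s h _
    have hp : p = [] := List.length_eq_zero_iff.1 (by omega)
    have hs : s = [] := List.length_eq_zero_iff.1 (by omega)
    subst hp hs
    simp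
  | succ N ih =>
    intro p s h hnd
    cases p with
    | nil => simp
    | cons a p =>
      cases s with
      | nil => simp
      | cons b s =>
        simp only [List.length_cons] at h
        have hab : a ≠ b := by
          rintro rfl
          simp at hnd
        rw [shuf_cons_cons]
        apply List.Nodup.append
        · exact (ih p (b :: s) (by simp; omega) (List.nodup_cons.1 hnd).2).map
            (fun x y h => (List.cons.inj h).2)
        · exact (ih (a :: p) s (by simp; omega)
            (hnd.sublist ((List.sublist_cons_self b s).append_left _))).map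
            (fun x y h => (List.cons.inj h).2)
        · intro x hx hy
          rw [List.mem_map] at hx hy
          obtain ⟨u, _, rfl⟩ := hx
          obtain ⟨v, _, hv⟩ := hy
          exact hab (List.cons.inj hv).1.symm

end Shuffles

theorem mem_Sh {p s : List ℕ} (hnd : (p ++ s).Nodup) (hp : IsPerm p) (hs : IsPerm s)
    (t : List ℕ) : t ∈ Sh p s ↔ t ∈ shuf p s := by
  constructor
  · rintro ⟨_, h2, h3, h4⟩
    exact mem_shuf_of_sublist t p s hnd h2 h3 h4
  · intro ht
    have h1 := perm_shuf ht
    have h2 := sublist_of_mem_shuf _ p s t rfl ht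
    refine ⟨⟨nodup_of_mem_shuf ht hnd, ?_⟩, length_of_mem_shuf ht, h2.1, h2.2⟩
    intro x hx
    rcases List.mem_append.1 (h1.mem_iff.1 hx) with h | h
    · exact hp.2 x h
    · exact hs.2 x h

theorem count_shuf {α : Type*} [DecidableEq α] (st : List ℕ → α) {p s : List ℕ}
    (hnd : (p ++ s).Nodup) (hp : IsPerm p) (hs : IsPerm s) (v : α) :
    ((shuf p s).map st).count v = {t | t ∈ Sh p s ∧ st t = v}.ncard := by
  have e : {t | t ∈ Sh p s ∧ st t = v} =
      (((shuf p s).filter (fun t => st t = v)).toFinset : Set (List ℕ)) := by
    ext t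
    simp only [Set.mem_ofPred_eq, List.coe_toFinset, List.mem_filter, decide_eq_true_eq]
    rw [mem_Sh hnd hp hs]
  rw [e, Set.ncard_coe_finset, List.toFinset_card_of_nodup
    ((nodup_shuf _ p s rfl hnd).filter _), List.count, List.countP_map, List.countP_eq_length_filter]
  congr 1

/-- Words of integers as words of positive integers. -/
def shiftBy (B : ℤ) (x : ℤ) : ℕ := (x + B + 1).toNat

theorem shiftBy_lt {B x y : ℤ} (hx : |x| ≤ B) (hy : |y| ≤ B) :
    shiftBy B x < shiftBy B y ↔ x < y := by
  unfold shiftBy
  rw [abs_le] at hx hy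
  omega

theorem shiftBy_pos {B x : ℤ} (hx : |x| ≤ B) : 0 < shiftBy B x := by
  unfold shiftBy
  rw [abs_le] at hx
  omega

/-- The lift of a word. -/
def lft (w : List ℤ) : List ℕ := w.map (shiftBy (bnd w))

theorem isPerm_shift {B : ℤ} {w : List ℤ} (hw : w.Nodup) (hB : ∀ x ∈ w, |x| ≤ B) :
    IsPerm (w.map (shiftBy B)) := by
  constructor
  · refine (List.nodup_map_iff_inj_on hw).2 ?_
    intro x hx y hy h
    have h1 := shiftBy_lt (hB x hx) (hB y hy)
    have h2 := shiftBy_lt (hB y hy) (hB x hx)
    omega
  · intro y hy
    obtain ⟨x, hx, rfl⟩ := List.mem_map.1 hy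
    exact shiftBy_pos (hB x hx)

theorem isPerm_lft {w : List ℤ} (hw : w.Nodup) : IsPerm (lft w) :=
  isPerm_shift hw (fun _ hx => le_bnd hx)

theorem letter_map (f : ℤ → ℕ) (w : List ℤ) (i : ℕ) (h1 : 1 ≤ i) (h2 : i ≤ w.length) :
    letter (w.map f) i = f (w.getD (i - 1) 0) := by
  unfold letter
  rw [List.getD_eq_getElem _ _ (by rw [List.length_map]; omega),
    List.getD_eq_getElem _ _ (by omega)]
  simp

theorem getD_mem' (w : List ℤ) (i : ℕ) (h1 : 1 ≤ i) (h2 : i ≤ w.length) :
    w.getD (i - 1) 0 ∈ w := by
  rw [List.getD_eq_getElem _ _ (by omega)]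
  exact List.getElem_mem _

theorem sameOrder_shift {B C : ℤ} {p s : List ℤ} (h : SameOrd p s) (hB : ∀ x ∈ p, |x| ≤ B)
    (hC : ∀ x ∈ s, |x| ≤ C) : SameOrder (p.map (shiftBy B)) (s.map (shiftBy C)) := by
  refine ⟨by simpa using h.1, ?_⟩
  intro i j hi1 hi2 hj1 hj2
  rw [List.length_map] at hi2 hj2
  have hl := h.1
  rw [letter_map _ _ _ hi1 hi2, letter_map _ _ _ hj1 hj2, letter_map _ _ _ hi1 (by omega),
    letter_map _ _ _ hj1 (by omega),
    shiftBy_lt (hB _ (getD_mem' _ _ hi1 hi2)) (hB _ (getD_mem' _ _ hj1 hj2)),
    shiftBy_lt (hC _ (getD_mem' _ _ hi1 (by omega))) (hC _ (getD_mem' _ _ hj1 (by omega)))]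
  exact h.2 _ _ (by omega) (by omega)

theorem sameOrd_refl (w : List ℤ) : SameOrd w w := ⟨rfl, fun _ _ _ _ => Iff.rfl⟩

section

variable {α : Type*} {st : List ℕ → α}

theorem st_lft (hst : IsStatistic st) {w : List ℤ} (hw : w.Nodup) {B : ℤ}
    (hB : ∀ x ∈ w, |x| ≤ B) : st (lft w) = st (w.map (shiftBy B)) :=
  hst _ _ (isPerm_lft hw) (isPerm_shift hw hB)
    (sameOrder_shift (sameOrd_refl w) (fun _ hx => le_bnd hx) hB)

theorem bi_lft (hst : IsStatistic st) (hbi : Bicompatible st) : Bi (fun w => st (lft w)) where
  inv := by
    intro p s hp hs h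
    exact hst _ _ (isPerm_lft hp) (isPerm_lft hs)
      (sameOrder_shift h (fun _ hx => le_bnd hx) (fun _ hx => le_bnd hx))
  shf := by
    classical
    intro p s p' s' h1 h2 hpl hsl e1 e2
    have key : ∀ q r : List ℤ, (q ++ r).Nodup →
        (shuf q r).map (fun w => st (lft w)) =
          (shuf (q.map (shiftBy (bnd (q ++ r)))) (r.map (shiftBy (bnd (q ++ r))))).map st := by
      intro q r h
      rw [shuf_map _ _ q r rfl, List.map_map]
      apply List.map_congr_left
      intro t ht
      rw [Function.comp_apply]
      apply st_lft hst (nodup_of_mem_shuf ht h)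
      intro x hx
      exact le_bnd ((perm_shuf ht).mem_iff.1 hx)
    have hB1 : ∀ q r : List ℤ, ∀ x ∈ q, |x| ≤ bnd (q ++ r) :=
      fun q r x hx => le_bnd (List.mem_append_left _ hx)
    have hB2 : ∀ q r : List ℤ, ∀ x ∈ r, |x| ≤ bnd (q ++ r) :=
      fun q r x hx => le_bnd (List.mem_append_right _ hx)
    have hndm : ∀ q r : List ℤ, (q ++ r).Nodup →
        (q.map (shiftBy (bnd (q ++ r))) ++ r.map (shiftBy (bnd (q ++ r)))).Nodup := by
      intro q r h
      rw [← List.map_append]
      exact (isPerm_shift h (fun _ hx => le_bnd hx)).1
    have hpm1 : ∀ q r : List ℤ, (q ++ r).Nodup → IsPerm (q.map (shiftBy (bnd (q ++ r)))) :=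
      fun q r h => isPerm_shift h.of_append_left (hB1 q r)
    have hpm2 : ∀ q r : List ℤ, (q ++ r).Nodup → IsPerm (r.map (shiftBy (bnd (q ++ r)))) :=
      fun q r h => isPerm_shift h.of_append_right (hB2 q r)
    have hdis : ∀ q r : List ℤ, (q ++ r).Nodup → ∀ x ∈ q.map (shiftBy (bnd (q ++ r))),
        x ∉ r.map (shiftBy (bnd (q ++ r))) := by
      intro q r h x hx hx'
      exact (List.nodup_append'.1 (hndm q r h)).2.2 hx hx'
    rw [key p s h1, key p' s' h2, List.perm_iff_count]
    intro v
    rw [count_shuf st (hndm p s h1) (hpm1 p s h1) (hpm2 p s h1),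
      count_shuf st (hndm p' s' h2) (hpm1 p' s' h2) (hpm2 p' s' h2)]
    apply hbi.1 _ _ _ _ (hpm1 p s h1) (hpm2 p s h1) (hpm1 p' s' h2) (hpm2 p' s' h2)
      (hdis p s h1) (hdis p' s' h2) (by simpa using hpl) (by simpa using hsl)
    · rw [← st_lft hst h1.of_append_left (hB1 p s), ← st_lft hst h2.of_append_left (hB1 p' s')]
      exact e1
    · rw [← st_lft hst h1.of_append_right (hB2 p s), ← st_lft hst h2.of_append_right (hB2 p' s')]
      exact e2
  sub := by
    intro p s hp hs hl he i j
    have hnd : ∀ w : List ℤ, w.Nodup → ((w.drop i).take j).Nodup := fun w hw =>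
      hw.sublist ((List.take_sublist _ _).trans (List.drop_sublist _ _))
    have hmem : ∀ w : List ℤ, ∀ x ∈ (w.drop i).take j, |x| ≤ bnd w := fun w x hx =>
      le_bnd (((List.take_sublist _ _).trans (List.drop_sublist _ _)).subset hx)
    by_cases hij : i < p.length ∧ 0 < j
    · have key : ∀ w : List ℤ, w.Nodup → w.length = p.length →
          st (lft ((w.drop i).take j)) =
            st (substring (lft w) (i + 1) (min (i + j) p.length)) := by
        intro w hw hwl
        rw [st_lft hst (hnd w hw) (hmem w)]
        congr 1
        unfold substring lft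
        rw [List.map_take, List.map_drop, Nat.add_sub_cancel, List.take_drop]
        congr 1
        rw [← hwl]
        conv_lhs => rw [List.take_eq_take_min, List.length_map]
      show st (lft ((p.drop i).take j)) = st (lft ((s.drop i).take j))
      rw [key p hp rfl, key s hs hl.symm]
      have hlp : (lft p).length = p.length := by simp [lft]
      have hls : (lft s).length = s.length := by simp [lft]
      apply hbi.2 _ _ (isPerm_lft hp) (isPerm_lft hs) (by rw [hlp, hls]; exact hl) he
      · omega
      · omega
      · rw [hlp]; omega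
    · have h0 : ∀ w : List ℤ, w.length = p.length → (w.drop i).take j = [] := by
        intro w hw
        rw [← List.length_eq_zero_iff, List.length_take, List.length_drop, hw]
        omega
      show st (lft ((p.drop i).take j)) = st (lft ((s.drop i).take j))
      rw [h0 p rfl, h0 s hl.symm]

/-- Words of positive integers as words of integers. -/
def up (w : List ℕ) : List ℤ := w.map (fun x : ℕ => (x : ℤ))

theorem length_up (w : List ℕ) : (up w).length = w.length := by simp [up]

theorem getD_up (w : List ℕ) (i : ℕ) : (up w).getD i 0 = (w.getD i 0 : ℕ) := by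
  by_cases h : i < w.length
  · rw [List.getD_eq_getElem _ _ h, List.getD_eq_getElem _ _ (by rw [length_up]; exact h)]
    simp [up]
  · rw [List.getD_eq_default w _ (by omega),
      List.getD_eq_default (up w) _ (by rw [length_up]; omega)]
    simp

theorem nodup_up {w : List ℕ} (h : w.Nodup) : (up w).Nodup :=
  h.map (fun x y h => by simpa using h)

theorem st_up (hst : IsStatistic st) {w : List ℕ} (hw : IsPerm w) : st w = st (lft (up w)) := by
  apply hst _ _ hw (isPerm_lft (nodup_up hw.1))
  refine ⟨by simp [lft, up], ?_⟩
  intro i j hi1 hi2 hj1 hj2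
  unfold lft
  rw [letter_map _ _ _ hi1 (by rw [length_up]; exact hi2),
    letter_map _ _ _ hj1 (by rw [length_up]; exact hj2),
    shiftBy_lt (le_bnd (getD_mem' _ _ hi1 (by rw [length_up]; exact hi2)))
      (le_bnd (getD_mem' _ _ hj1 (by rw [length_up]; exact hj2))), getD_up, getD_up]
  unfold letter
  exact Nat.cast_lt.symm

theorem des_up (w : List ℕ) (i : ℕ) : des (up w) i ↔ i + 1 ∈ Des w := by
  unfold des Des letter
  simp only [Set.mem_ofPred_eq, length_up, getD_up, Nat.cast_lt, Nat.add_sub_cancel, gt_iff_lt]
  constructor
  · rintro ⟨h1, h2⟩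
    exact ⟨by omega, by omega, h2⟩
  · rintro ⟨_, h1, h2⟩
    exact ⟨by omega, h2⟩

theorem pk_up (w : List ℕ) (i : ℕ) : pk (up w) i ↔ i + 2 ∈ Pk w := by
  unfold pk Pk letter
  simp only [Set.mem_ofPred_eq, length_up, getD_up, Nat.cast_lt, gt_iff_lt]
  have e1 : i + 2 - 1 - 1 = i := by omega
  have e2 : i + 2 - 1 = i + 1 := by omega
  have e3 : i + 2 + 1 - 1 = i + 2 := by omega
  rw [e1, e2, e3]
  constructor
  · rintro ⟨h1, h2⟩
    exact ⟨by omega, by omega, h2⟩
  · rintro ⟨_, h1, h2⟩
    exact ⟨by omega, h2⟩

theorem vl_up (w : List ℕ) (i : ℕ) : vl (up w) i ↔ i + 2 ∈ Val w := by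
  unfold vl Val letter
  simp only [Set.mem_ofPred_eq, length_up, getD_up, Nat.cast_lt, gt_iff_lt]
  have e1 : i + 2 - 1 - 1 = i := by omega
  have e2 : i + 2 - 1 = i + 1 := by omega
  have e3 : i + 2 + 1 - 1 = i + 2 := by omega
  rw [e1, e2, e3]
  constructor
  · rintro ⟨h1, h2⟩
    exact ⟨by omega, by omega, h2⟩
  · rintro ⟨_, h1, h2⟩
    exact ⟨by omega, h2⟩

theorem Des_eq_iff (p s : List ℕ) :
    Des p = Des s ↔ ∀ i, des (up p) i ↔ des (up s) i := by
  simp only [des_up]
  constructor
  · intro h i; rw [h]
  · intro h
    ext i
    rcases i with _ | i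
    · constructor
      · intro hi; exact absurd hi.1 (by omega)
      · intro hi; exact absurd hi.1 (by omega)
    · exact h i

theorem Pk_eq_iff (p s : List ℕ) :
    Pk p = Pk s ↔ ∀ i, pk (up p) i ↔ pk (up s) i := by
  simp only [pk_up]
  constructor
  · intro h i; rw [h]
  · intro h
    ext i
    rcases i with _ | _ | i
    · constructor
      · intro hi; exact absurd hi.1 (by omega)
      · intro hi; exact absurd hi.1 (by omega)
    · constructor
      · intro hi; exact absurd hi.1 (by omega)
      · intro hi; exact absurd hi.1 (by omega)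
    · exact h i

theorem Val_eq_iff (p s : List ℕ) :
    Val p = Val s ↔ ∀ i, vl (up p) i ↔ vl (up s) i := by
  simp only [vl_up]
  constructor
  · intro h i; rw [h]
  · intro h
    ext i
    rcases i with _ | _ | i
    · constructor
      · intro hi; exact absurd hi.1 (by omega)
      · intro hi; exact absurd hi.1 (by omega)
    · constructor
      · intro hi; exact absurd hi.1 (by omega)
      · intro hi; exact absurd hi.1 (by omega)
    · exact h i

/-- The classification. -/
theorem classification (hst : IsStatistic st) (hbi : Bicompatible st) :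
    Equivalent st Des ∨ Equivalent st Pk ∨ Equivalent st Val ∨ Equivalent st triv := by
  have hl : ∀ {p s : List ℕ}, p.length = s.length → (up p).length = (up s).length := by
    intro p s h
    rw [length_up, length_up, h]
  rcases classify (bi_lft hst hbi) with h | h | h | h
  · right; right; right
    intro p s hp hs hps
    rw [st_up hst hp, st_up hst hs]
    simp only [triv, iff_true]
    exact h _ _ (nodup_up hp.1) (nodup_up hs.1) (hl hps)
  · left
    intro p s hp hs hps
    rw [st_up hst hp, st_up hst hs, Des_eq_iff]
    exact h _ _ (nodup_up hp.1) (nodup_up hs.1) (hl hps)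
  · right; left
    intro p s hp hs hps
    rw [st_up hst hp, st_up hst hs, Pk_eq_iff]
    exact h _ _ (nodup_up hp.1) (nodup_up hs.1) (hl hps)
  · right; right; left
    intro p s hp hs hps
    rw [st_up hst hp, st_up hst hs, Val_eq_iff]
    exact h _ _ (nodup_up hp.1) (nodup_up hs.1) (hl hps)

end

end Pool.Agent.Bicomp
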