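import Pool.Agent.Bicomp.Frame

namespace Pool.Agent.Bicomp

/-- A bound on the letters of a word. -/
def bnd (s : List ℤ) : ℤ := ((s.map Int.natAbs).sum : ℕ)

theorem le_bnd {s : List ℤ} {x : ℤ} (hx : x ∈ s) : |x| ≤ bnd s := by
  unfold bnd
  have : x.natAbs ≤ (s.map Int.natAbs).sum :=
    List.single_le_sum (by simp) _ (List.mem_map_of_mem hx)
  have h2 : |x| = (x.natAbs : ℤ) := Int.abs_eq_natAbs x
  rw [h2]
  exact_mod_cast this

theorem bnd_nonneg (s : List ℤ) : 0 ≤ bnd s := by unfold bnd; positivity

/-- A letter not in the word. -/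
def fresh (s : List ℤ) : ℤ := bnd s + 1

theorem fresh_not_mem (s : List ℤ) : fresh s ∉ s := by
  intro h
  have h1 := le_bnd h
  have h2 := le_abs_self (fresh s)
  unfold fresh at h1 h2
  omega

theorem nodup_fresh {s : List ℤ} (hs : s.Nodup) : (fresh s :: s).Nodup :=
  List.nodup_cons.2 ⟨fresh_not_mem s, hs⟩

/-- Every word can be reached from an increasing word by sliding a window. -/
theorem path_ind {m : ℕ} {Q : List ℤ → Prop}
    (hinc : ∀ f : ℕ → ℤ, (∀ i j, i < j → j < m → f i < f j) → Q (wd f 0 m))
    (hstep : ∀ t : List ℤ, t.Nodup → t.length = m + 1 → Q t.dropLast → Q t.tail) :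
    ∀ w : List ℤ, w.Nodup → w.length = m → Q w := by
  intro w hw hwm
  let f : ℕ → ℤ := fun i => if i < m then (i : ℤ) - (bnd w + m) else w.getD (i - m) 0
  have hbw : ∀ i, i < m → |w.getD i 0| ≤ bnd w := by
    intro i hi
    rw [List.getD_eq_getElem _ _ (by omega)]
    exact le_bnd (List.getElem_mem _)
  have hwinj : ∀ i j, i < m → j < m → w.getD i 0 = w.getD j 0 → i = j := by
    intro i j hi hj h
    rw [List.getD_eq_getElem _ _ (by omega), List.getD_eq_getElem _ _ (by omega)] at h
    exact (hw.getElem_inj_iff).1 h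
  have hlow : ∀ i, i < m → f i < - bnd w := by
    intro i hi
    simp only [f, if_pos hi]
    omega
  have hfinj : ∀ i j, i < 2 * m → j < 2 * m → f i = f j → i = j := by
    intro i j hi hj h
    by_cases h1 : i < m <;> by_cases h2 : j < m
    · simp only [f, if_pos h1, if_pos h2] at h
      omega
    · have := hlow i h1
      have h3 := hbw (j - m) (by omega)
      have h4 := neg_abs_le (w.getD (j - m) 0)
      simp only [f, if_neg h2] at h
      simp only [f] at this
      rw [h] at this
      omega
    · have := hlow j h2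
      have h3 := hbw (i - m) (by omega)
      have h4 := neg_abs_le (w.getD (i - m) 0)
      simp only [f, if_neg h1] at h
      simp only [f] at this
      rw [← h] at this
      omega
    · simp only [f, if_neg h1, if_neg h2] at h
      have := hwinj _ _ (by omega) (by omega) h
      omega
  have key : ∀ k, k ≤ m → Q (wd f k m) := by
    intro k
    induction k with
    | zero =>
      intro _
      apply hinc
      intro i j hij hj
      simp only [f, if_pos hj, if_pos (hij.trans hj)]
      omega
    | succ k ih =>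
      intro hk
      have hnd : (wd f k (m + 1)).Nodup := by
        apply nodup_wd'
        intro i hi j hj h
        have := hfinj (k + i) (k + j) (by omega) (by omega) h
        omega
      have := hstep (wd f k (m + 1)) hnd (by simp)
      rw [wd_dropLast, wd_tail] at this
      exact this (ih (by omega))
  have := key m le_rfl
  have e : wd f m m = w := by
    apply List.ext_getElem
    · simp [hwm]
    · intro i h1 h2
      rw [getElem_wd]
      simp only [f, if_neg (show ¬ m + i < m by omega), Nat.add_sub_cancel_left]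
      exact List.getD_eq_getElem _ _ h2
  rwa [e] at this

/-- Standard representative of the order type of a word. -/
theorem exists_std {m : ℕ} (w : List ℤ) (hw : w.Nodup) (hm : w.length = m) :
    ∃ g : Fin m → Fin m, let f : ℕ → ℤ := fun i => if h : i < m then ((g ⟨i, h⟩ : ℕ) : ℤ) else 0
      (wd f 0 m).Nodup ∧ SameOrd w (wd f 0 m) := by
  classical
  subst hm
  let r : Fin w.length → ℕ := fun i => (Finset.univ.filter (fun j : Fin w.length => w[j] < w[i])).card
  have hr : ∀ i, r i < w.length := by
    intro i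
    have : (Finset.univ.filter (fun j : Fin w.length => w[j] < w[i])) ⊂ Finset.univ := by
      rw [Finset.ssubset_univ_iff]
      intro h
      have : i ∈ (Finset.univ.filter (fun j : Fin w.length => w[j] < w[i])) := by
        rw [h]; exact Finset.mem_univ i
      simp at this
    have := Finset.card_lt_card this
    simpa [r] using this
  have hlt : ∀ i j : Fin w.length, w[i] < w[j] → r i < r j := by
    intro i j h
    apply Finset.card_lt_card
    rw [Finset.ssubset_iff_of_subset]
    · exact ⟨i, by simpa using h, by simp⟩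
    · intro k hk
      simp only [Finset.mem_filter, Finset.mem_univ, true_and] at hk ⊢
      exact hk.trans h
  have hiff : ∀ i j : Fin w.length, w[i] < w[j] ↔ r i < r j := by
    intro i j
    refine ⟨hlt i j, ?_⟩
    intro h
    by_contra hcon
    rcases lt_or_eq_of_le (not_lt.1 hcon) with h' | h'
    · have := hlt j i h'
      omega
    · have : j = i := by
        apply Fin.ext
        exact (hw.getElem_inj_iff).1 h'
      subst this
      omega
  refine ⟨fun i => ⟨r i, hr i⟩, ?_⟩
  intro f
  have hf : ∀ i (h : i < w.length), f i = (r ⟨i, h⟩ : ℤ) := by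
    intro i h
    simp [f, h]
  constructor
  · apply nodup_wd'
    intro i hi j hj h
    rw [zero_add, zero_add, hf i hi, hf j hj] at h
    have h' : r ⟨i, hi⟩ = r ⟨j, hj⟩ := by exact_mod_cast h
    by_contra hne
    have hne2 : w[(⟨i, hi⟩ : Fin w.length)] ≠ w[(⟨j, hj⟩ : Fin w.length)] := by
      intro h3
      exact hne ((hw.getElem_inj_iff).1 h3)
    rcases lt_or_gt_of_ne hne2 with h3 | h3
    · have := hlt _ _ h3; omega
    · have := hlt _ _ h3; omega
  · refine ⟨by simp, ?_⟩
    intro i j hi hj
    rw [getD_wd _ _ _ _ hi, getD_wd _ _ _ _ hj, zero_add, zero_add, hf i hi, hf j hj,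
      List.getD_eq_getElem _ _ hi, List.getD_eq_getElem _ _ hj]
    have := hiff ⟨i, hi⟩ ⟨j, hj⟩
    simp only [Fin.getElem_fin] at this
    rw [this]
    simp

section

variable {α : Type*}

/-- The functions of `st` on words of length `m` with a given parity under reversal. -/
def VS (st : List ℤ → α) (m : ℕ) (e : ℚ) : Submodule ℚ (List ℤ → ℚ) where
  carrier := {F | Meas st m F ∧ (∀ p : List ℤ, p.Nodup → p.length = m → F p.reverse = e * F p) ∧
    ∀ p : List ℤ, ¬ (p.Nodup ∧ p.length = m) → F p = 0}
  add_mem' := by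
    rintro F G ⟨h1, h2, h3⟩ ⟨k1, k2, k3⟩
    refine ⟨?_, ?_, ?_⟩
    · intro p s hp hs hpl hsl h
      simp only [Pi.add_apply]
      rw [h1 p s hp hs hpl hsl h, k1 p s hp hs hpl hsl h]
    · intro p hp hl
      simp only [Pi.add_apply]
      rw [h2 p hp hl, k2 p hp hl]
      ring
    · intro p hp
      simp only [Pi.add_apply]
      rw [h3 p hp, k3 p hp]
      ring
  zero_mem' := by
    refine ⟨?_, ?_, ?_⟩
    · intro p s _ _ _ _ _; rfl
    · intro p _ _; simp
    · intro p _; rfl
  smul_mem' := by
    rintro c F ⟨h1, h2, h3⟩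
    refine ⟨?_, ?_, ?_⟩
    · intro p s hp hs hpl hsl h
      simp only [Pi.smul_apply, smul_eq_mul]
      rw [h1 p s hp hs hpl hsl h]
    · intro p hp hl
      simp only [Pi.smul_apply, smul_eq_mul]
      rw [h2 p hp hl]
      ring
    · intro p hp
      simp only [Pi.smul_apply, smul_eq_mul]
      rw [h3 p hp]
      ring

variable {st : List ℤ → α}

/-- Evaluation on the standard words. -/
def evalStd (st : List ℤ → α) (m : ℕ) (e : ℚ) : VS st m e →ₗ[ℚ] ((Fin m → Fin m) → ℚ) where
  toFun F g := F.1 (wd (fun i => if h : i < m then ((g ⟨i, h⟩ : ℕ) : ℤ) else 0) 0 m)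
  map_add' := by intro F G; rfl
  map_smul' := by intro c F; rfl

theorem evalStd_injective (hb : Bi st) (m : ℕ) (e : ℚ) :
    Function.Injective (evalStd st m e) := by
  intro F G h
  apply Subtype.ext
  funext w
  by_cases hw : w.Nodup ∧ w.length = m
  · obtain ⟨g, hnd, hso⟩ := exists_std w hw.1 hw.2
    have h1 := congrFun h g
    simp only [evalStd, LinearMap.coe_mk, AddHom.coe_mk] at h1
    rw [F.2.1.inv hb hw.1 hnd hw.2 hso, G.2.1.inv hb hw.1 hnd hw.2 hso]
    exact h1
  · rw [F.2.2.2 w hw, G.2.2.2 w hw]

theorem finite_VS (hb : Bi st) (m : ℕ) (e : ℚ) : Module.Finite ℚ (VS st m e) :=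
  Module.Finite.of_injective (evalStd st m e) (evalStd_injective hb m e)

open Classical in
/-- Summation over the insertions of one letter. -/
noncomputable def Dop (m : ℕ) (F : List ℤ → ℚ) : List ℤ → ℚ :=
  fun s => if s.Nodup ∧ s.length = m then S F [fresh s] s else 0

open Classical in
/-- Sum of the values on the two windows. -/
noncomputable def Wop (m : ℕ) (F : List ℤ → ℚ) : List ℤ → ℚ :=
  fun s => if s.Nodup ∧ s.length = m + 1 then F s.dropLast + F s.tail else 0

theorem Dop_of {m : ℕ} (F : List ℤ → ℚ) {s : List ℤ} (h : s.Nodup) (h' : s.length = m) :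
    Dop m F s = S F [fresh s] s := if_pos ⟨h, h'⟩

theorem Wop_of {m : ℕ} (F : List ℤ → ℚ) {s : List ℤ} (h : s.Nodup) (h' : s.length = m + 1) :
    Wop m F s = F s.dropLast + F s.tail := if_pos ⟨h, h'⟩

theorem Dop_mem (hb : Bi st) {m : ℕ} {e : ℚ} {F : List ℤ → ℚ} (hF : F ∈ VS st (m + 1) e) :
    Dop m F ∈ VS st m e := by
  obtain ⟨h1, h2, h3⟩ := hF
  refine ⟨?_, ?_, ?_⟩
  · intro p s hp hs hpl hsl h
    rw [Dop_of F hp hpl, Dop_of F hs hsl]
    exact S_single_eq hb h1 (nodup_fresh hp) (nodup_fresh hs) hpl hsl h
  · intro p hp hpl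
    have hp' : p.reverse.Nodup := List.nodup_reverse.2 hp
    rw [Dop_of F hp hpl, Dop_of F hp' (by simpa using hpl)]
    have e1 : S F [fresh p.reverse] p.reverse = S F [fresh p] p.reverse := by
      apply S_single_eq hb h1 (nodup_fresh hp') _ (by simpa using hpl) (by simpa using hpl) rfl
      rw [List.nodup_cons]
      refine ⟨?_, hp'⟩
      rw [List.mem_reverse]
      exact fresh_not_mem p
    have e2 := S_reverse F [fresh p] p
    rw [List.reverse_singleton] at e2
    rw [e1, ← e2, ← S_smul]
    apply S_congr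
    intro t ht
    apply h2
    · exact nodup_of_mem_shuf ht (by simpa using nodup_fresh hp)
    · rw [length_of_mem_shuf ht]; simp; omega
  · intro p hp
    exact if_neg hp

theorem Wop_mem (hb : Bi st) {m : ℕ} {e : ℚ} {F : List ℤ → ℚ} (hF : F ∈ VS st m e) :
    Wop m F ∈ VS st (m + 1) e := by
  obtain ⟨h1, h2, h3⟩ := hF
  refine ⟨?_, ?_, ?_⟩
  · intro p s hp hs hpl hsl h
    rw [Wop_of F hp hpl, Wop_of F hs hsl]
    have e1 : ∀ t : List ℤ, t.length = m + 1 → t.dropLast = (t.drop 0).take m := by
      intro t ht
      rw [List.dropLast_eq_take, ht]; simp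
    have e2 : ∀ t : List ℤ, t.length = m + 1 → t.tail = (t.drop 1).take m := by
      intro t ht
      rw [List.drop_one, List.take_of_length_le]
      simp [ht]
    rw [e1 p hpl, e1 s hsl, e2 p hpl, e2 s hsl]
    exact congrArg₂ (· + ·) (h1.window hb 0 (m + 1) (by omega) p s hp hs hpl hsl h)
      (h1.window hb 1 (m + 1) (by omega) p s hp hs hpl hsl h)
  · intro p hp hpl
    rw [Wop_of F hp hpl, Wop_of F (List.nodup_reverse.2 hp) (by simpa using hpl)]
    rw [List.dropLast_reverse, List.tail_reverse]
    rw [h2 p.tail (hp.sublist (List.tail_sublist _)) (by simp [hpl]),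
      h2 p.dropLast (hp.sublist (List.dropLast_sublist _)) (by simp [hpl])]
    ring
  · intro p hp
    exact if_neg hp

/-- `Dop` as a linear map. -/
noncomputable def DL (hb : Bi st) (m : ℕ) (e : ℚ) : VS st (m + 1) e →ₗ[ℚ] VS st m e where
  toFun F := ⟨Dop m F.1, Dop_mem hb F.2⟩
  map_add' := by
    intro F G
    apply Subtype.ext
    funext s
    simp only [Dop, Submodule.coe_add, Pi.add_apply]
    split_ifs
    · exact S_add _ _ _ _
    · simp
  map_smul' := by
    intro c F
    apply Subtype.ext
    funext s
    simp only [Dop, Submodule.coe_smul, Pi.smul_apply, smul_eq_mul, RingHom.id_apply]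
    split_ifs
    · exact S_smul c F.1 _ _
    · simp

/-- `Wop` as a linear map. -/
noncomputable def WL (hb : Bi st) (m : ℕ) (e : ℚ) : VS st m e →ₗ[ℚ] VS st (m + 1) e where
  toFun F := ⟨Wop m F.1, Wop_mem hb F.2⟩
  map_add' := by
    intro F G
    apply Subtype.ext
    funext s
    simp only [Wop, Submodule.coe_add, Pi.add_apply]
    split_ifs
    · ring
    · simp
  map_smul' := by
    intro c F
    apply Subtype.ext
    funext s
    simp only [Wop, Submodule.coe_smul, Pi.smul_apply, smul_eq_mul, RingHom.id_apply]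
    split_ifs
    · ring
    · simp

theorem DL_injective (hb : Bi st) {n m : ℕ} (hc : Cst st n) (hm : m + 1 < 2 * n) :
    Function.Injective (DL hb m ((-1) ^ (m + 1))) := by
  rw [← LinearMap.ker_eq_bot, LinearMap.ker_eq_bot']
  intro F hF
  apply Subtype.ext
  funext w
  by_cases hw : w.Nodup ∧ w.length = m + 1
  · have hk : ∀ (a : ℤ) (s : List ℤ), (a :: s).Nodup → s.length + 1 = m + 1 →
        S F.1 [a] s = 0 := by
      intro a s has hs
      have hs' : s.length = m := by omega
      have hsn : s.Nodup := (List.nodup_cons.1 has).2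
      have h1 : Dop m F.1 s = 0 := congrFun (congrArg Subtype.val hF) s
      rw [Dop_of _ hsn hs'] at h1
      rw [← h1]
      exact S_single_eq hb F.2.1 has (nodup_fresh hsn) hs' hs' rfl
    have h2 := rev_of_kill (kill_all hb hc hm F.2.1 hk) w hw.1 hw.2
    have h3 := F.2.2.1 w hw.1 hw.2
    have hx : ∀ x y : ℚ, y = (-1) ^ m * x → y = (-1) ^ (m + 1) * x → x = 0 := by
      intro x y h2 h3
      rw [h2, pow_succ] at h3
      have h4 : ((-1 : ℚ)) ^ m * x = 0 := by linarith
      rcases mul_eq_zero.1 h4 with h5 | h5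
      · exact absurd h5 (pow_ne_zero _ (by norm_num))
      · exact h5
    exact hx _ _ h2 h3
  · exact F.2.2.2 w hw

theorem WL_injective (hb : Bi st) (m : ℕ) (e : ℚ) : Function.Injective (WL hb m e) := by
  rw [← LinearMap.ker_eq_bot, LinearMap.ker_eq_bot']
  intro F hF
  have hF' : ∀ t : List ℤ, t.Nodup → t.length = m + 1 → F.1 t.dropLast + F.1 t.tail = 0 := by
    intro t ht htl
    have h1 : Wop m F.1 t = 0 := congrFun (congrArg Subtype.val hF) t
    rwa [Wop_of _ ht htl] at h1
  have key : ∀ w : List ℤ, w.Nodup → w.length = m → F.1 w = 0 := by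
    apply path_ind
    · intro f hf
      let g : ℕ → ℤ := fun i => (i : ℤ)
      have hg : Function.Injective g := fun i j h => by simpa [g] using h
      have h1 := hF' (wd g 0 (m + 1)) (nodup_wd hg _ _) (by simp)
      rw [wd_dropLast, wd_tail] at h1
      have hfi : ∀ i < m, ∀ j < m, (f (0 + i) < f (0 + j) ↔ i < j) := by
        intro i hi j hj
        rw [zero_add, zero_add]
        constructor
        · intro h
          by_contra hcon
          rcases lt_or_eq_of_le (not_lt.1 hcon) with h' | h'
          · exact absurd (hf j i h' hi) (not_lt.2 h.le)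
          · subst h'; exact lt_irrefl _ h
        · intro h; exact hf i j h hj
      have hfn : (wd f 0 m).Nodup := by
        apply nodup_wd'
        intro i hi j hj h
        by_contra hne
        rcases lt_or_gt_of_ne hne with h' | h'
        · have := (hfi i hi j hj).2 h'; omega
        · have := (hfi j hj i hi).2 h'; omega
      have e0 : F.1 (wd g 0 m) = F.1 (wd f 0 m) := by
        apply F.2.1.inv hb (nodup_wd hg _ _) hfn (by simp)
        apply sameOrd_wd
        intro i hi j hj
        rw [hfi i hi j hj]
        simp [g]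
      have e1 : F.1 (wd g (0 + 1) m) = F.1 (wd f 0 m) := by
        apply F.2.1.inv hb (nodup_wd hg _ _) hfn (by simp)
        apply sameOrd_wd
        intro i hi j hj
        rw [hfi i hi j hj]
        simp [g]
      rw [e0, e1] at h1
      linarith
    · intro t ht htl h
      have := hF' t ht htl
      rw [h] at this
      linarith
  apply Subtype.ext
  funext w
  by_cases hw : w.Nodup ∧ w.length = m
  · exact key w hw.1 hw.2
  · exact F.2.2.2 w hw

/-- Main linear algebra input: functions of `st` of the right parity are window sums. -/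
theorem window_sum (hb : Bi st) {n m : ℕ} (hc : Cst st n) (hm : m + 1 < 2 * n)
    {F : List ℤ → ℚ} (hF : Meas st (m + 1) F)
    (hrev : ∀ w : List ℤ, w.Nodup → w.length = m + 1 → F w.reverse = (-1) ^ (m + 1) * F w) :
    ∃ θ : List ℤ → ℚ, Meas st m θ ∧
      (∀ w : List ℤ, w.Nodup → w.length = m → θ w.reverse = (-1) ^ (m + 1) * θ w) ∧
      ∀ t : List ℤ, t.Nodup → t.length = m + 1 → F t = θ t.dropLast + θ t.tail := by
  classical
  let F' : List ℤ → ℚ := fun w => if w.Nodup ∧ w.length = m + 1 then F w else 0
  have hF'of : ∀ w : List ℤ, w.Nodup → w.length = m + 1 → F' w = F w := by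
    intro w h1 h2
    exact if_pos ⟨h1, h2⟩
  have hmem : F' ∈ VS st (m + 1) ((-1) ^ (m + 1)) := by
    refine ⟨?_, ?_, ?_⟩
    · intro p s hp hs hpl hsl h
      rw [hF'of p hp hpl, hF'of s hs hsl]
      exact hF p s hp hs hpl hsl h
    · intro p hp hpl
      rw [hF'of p hp hpl, hF'of _ (List.nodup_reverse.2 hp) (by simpa using hpl)]
      exact hrev p hp hpl
    · intro p hp
      exact if_neg hp
  have := finite_VS hb m (((-1 : ℚ)) ^ (m + 1))
  let e : ℚ := (-1) ^ (m + 1)
  let T : VS st m e →ₗ[ℚ] VS st m e := (DL hb m e).comp (WL hb m e)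
  have hT : Function.Injective T := by
    intro x y hxy
    apply WL_injective hb m e
    exact DL_injective hb hc hm hxy
  have hTs : Function.Surjective T := LinearMap.injective_iff_surjective.1 hT
  obtain ⟨θ, hθ⟩ := hTs (DL hb m e ⟨F', hmem⟩)
  have hW : WL hb m e θ = ⟨F', hmem⟩ := by
    apply DL_injective hb hc hm
    exact hθ
  refine ⟨θ.1, θ.2.1, θ.2.2.1, ?_⟩
  intro t ht htl
  have h1 : Wop m θ.1 t = F' t := congrFun (congrArg Subtype.val hW) t
  rw [Wop_of _ ht htl, hF'of t ht htl] at h1
  exact h1.symm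

end

end Pool.Agent.Bicomp
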